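import Pool.Agent.MP_2a1f0e_nt.DH.Defs

set_option autoImplicit false

open Finset

namespace Pool.Agent.MP_2a1f0e_nt.DH

open Pool.Agent.MP_2a1f0e_nt.GM

lemma hf_nonneg (x : ℝ) : 0 ≤ hf x := by unfold hf; positivity

lemma hf_pos {x : ℝ} (hx : 0 < x) : 0 < hf x := by
  unfold hf
  have := Real.sqrt_pos.2 hx
  positivity

lemma hf_mul {x : ℝ} (hx : 0 ≤ x) (y : ℝ) : hf (x * y) = hf x * hf y := by
  unfold hf
  rw [Real.sqrt_mul hx, one_div_mul_one_div]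

lemma hf_sq {x : ℝ} (hx : 0 ≤ x) : hf x ^ 2 = 1 / x := by
  unfold hf
  rw [div_pow, one_pow, Real.sq_sqrt hx]

lemma hf_anti {x y : ℝ} (hx : 0 < x) (h : x ≤ y) : hf y ≤ hf x :=
  one_div_le_one_div_of_le (Real.sqrt_pos.2 hx) (Real.sqrt_le_sqrt h)

lemma hf_le_one {x : ℝ} (hx : 1 ≤ x) : hf x ≤ 1 := by
  have := hf_anti one_pos hx
  simpa [hf] using this

lemma continuous_pw (x : ℝ) : Continuous (pw x) := by
  unfold pw
  fun_prop

lemma continuous_PP (L : ℕ) (c : ℕ → ℂ) : Continuous (PP L c) := by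
  unfold PP
  exact continuous_finsetSum _ fun l _ => continuous_const.mul (continuous_pw _)

lemma continuous_ZZ (M : ℕ) : Continuous (ZZ M) := continuous_PP _ _

lemma KK_eq_PP (N : ℕ) : KK N = PP (3 * N) fun n => (Wt ((n : ℝ) / N) : ℂ) := rfl

lemma continuous_KK (N : ℕ) : Continuous (KK N) := continuous_PP _ _

lemma norm_PP_le {L : ℕ} {c : ℕ → ℂ} {B : ℝ} (h : ∀ l ∈ Icc 1 L, ‖c l‖ ≤ B) (u : ℝ) :
    ‖PP L c u‖ ≤ L * B := by
  unfold PP
  refine (norm_sum_le _ _).trans ?_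
  have := sum_le_card_nsmul (Icc 1 L) (fun l : ℕ => ‖c l * pw (l : ℝ) u‖) B fun l hl => by
    rw [norm_mul, norm_pw, mul_one]
    exact h l hl
  simpa using this

lemma norm_ZZ_le (M : ℕ) (u : ℝ) : ‖ZZ M u‖ ≤ M := by
  have := norm_PP_le (L := M) (c := fun l => (hf (l : ℝ) : ℂ)) (B := 1) (fun l hl => by
    rw [Complex.norm_real, Real.norm_of_nonneg (hf_nonneg _)]
    exact hf_le_one (by exact_mod_cast (mem_Icc.1 hl).1)) u
  simpa [ZZ] using this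

lemma norm_KK_le (N : ℕ) (u : ℝ) : ‖KK N u‖ ≤ 3 * N := by
  have := norm_PP_le (L := 3 * N) (c := fun n => (Wt ((n : ℝ) / N) : ℂ)) (B := 1) (fun l _ => by
    rw [Complex.norm_real, Real.norm_of_nonneg (Wt_nonneg _)]
    exact Wt_le_one _) u
  rw [KK_eq_PP]
  simpa using this

lemma norm_ZZ_neg (M : ℕ) (u : ℝ) : ‖ZZ M (-u)‖ = ‖ZZ M u‖ := by
  rw [← Complex.norm_conj (ZZ M u)]
  unfold ZZ PP
  rw [map_sum]
  congr 1
  refine sum_congr rfl fun l _ => ?_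
  rw [map_mul, conj_pw, Complex.conj_ofReal]

lemma PP_add (L : ℕ) (c : ℕ → ℂ) (u ξ : ℝ) :
    PP L c (u + ξ) = PP L (fun l => c l * pw (l : ℝ) ξ) u := by
  unfold PP
  refine sum_congr rfl fun l _ => ?_
  rw [pw_add]
  ring

lemma PP_smul (L : ℕ) (α : ℂ) (c : ℕ → ℂ) (u : ℝ) :
    PP L (fun l => α * c l) u = α * PP L c u := by
  unfold PP
  rw [mul_sum]
  exact sum_congr rfl fun l _ => mul_assoc _ _ _

lemma EE_nonneg {s : Finset ℤ} {g : ℤ → ℝ} (hg : ∀ x ∈ s, 0 ≤ g x) (F : ℝ → ℂ) : 0 ≤ EE s g F :=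
  sum_nonneg fun x hx => sum_nonneg fun y hy =>
    mul_nonneg (mul_nonneg (hg x hx) (hg y hy)) (by positivity)

lemma EE_smul (s : Finset ℤ) (g : ℤ → ℝ) (α : ℂ) (F : ℝ → ℂ) :
    EE s g (fun u => α * F u) = ‖α‖ ^ 2 * EE s g F := by
  unfold EE
  simp only [mul_sum, norm_mul]
  exact sum_congr rfl fun x _ => sum_congr rfl fun y _ => by ring

/-- majorant by a multiple of the zeta sum -/
lemma EE_le_ZZ (hP : PosStmt) {L L' : ℕ} {c : ℕ → ℂ} {α : ℝ} (hα : 0 ≤ α) (hL : L ≤ L')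
    (hc : ∀ l ∈ Icc 1 L, ‖c l‖ ≤ α * hf l) (s : Finset ℤ) (g : ℤ → ℝ) :
    EE s g (PP L c) ≤ α ^ 2 * EE s g (ZZ L') := by
  have h := hP L L' c (fun l => α * hf l) s g hL hc fun l _ => mul_nonneg hα (hf_nonneg _)
  have e : (PP L' fun l => ((α * hf (l : ℝ) : ℝ) : ℂ)) = fun u => (α : ℂ) * ZZ L' u := by
    funext u
    rw [ZZ, ← PP_smul]
    simp only [Complex.ofReal_mul]
  rw [e, EE_smul, Complex.norm_real, Real.norm_of_nonneg hα] at h
  exact h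

lemma EE_ZZ_mono (hP : PosStmt) {L L' : ℕ} (hL : L ≤ L') (s : Finset ℤ) (g : ℤ → ℝ) :
    EE s g (ZZ L) ≤ EE s g (ZZ L') :=
  hP L L' _ (fun l => hf l) s g hL
    (fun l _ => by rw [Complex.norm_real, Real.norm_of_nonneg (hf_nonneg _)])
    fun l _ => hf_nonneg _

lemma DivB_mono {X Y : ℕ} {Δ : ℝ} (h : DivB Y Δ) (hXY : X ≤ Y) : DivB X Δ :=
  ⟨h.1, fun n hn => h.2 n (hn.trans hXY)⟩

lemma exists_DivB {ε : ℝ} (hε : 0 < ε) :
    ∃ C : ℝ, 1 ≤ C ∧ ∀ X : ℕ, 1 ≤ X → DivB X (C * (X : ℝ) ^ ε) := by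
  obtain ⟨C, hC, h⟩ := divisor_bound hε
  refine ⟨C, hC, fun X hX => ⟨?_, fun n hn => (h n).trans ?_⟩⟩
  · exact one_le_mul_of_one_le_of_one_le hC
      (Real.one_le_rpow (by exact_mod_cast hX) hε.le)
  · gcongr

lemma exists_log_le {ε : ℝ} (hε : 0 < ε) :
    ∃ C : ℝ, 1 ≤ C ∧ ∀ X : ℕ, 1 ≤ X → (Nat.log 2 X : ℝ) + 1 ≤ C * (X : ℝ) ^ ε := by
  have hl : 0 < Real.log 2 := Real.log_pos (by norm_num)
  refine ⟨1 + 1 / (ε * Real.log 2), le_add_of_nonneg_right (by positivity), fun X hX => ?_⟩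
  refine (succ_le_mul_rpow hε _).trans (mul_le_mul_of_nonneg_left ?_ (by positivity))
  rw [mul_comm, Real.rpow_mul (by norm_num), Real.rpow_natCast]
  refine Real.rpow_le_rpow (by positivity) ?_ hε.le
  exact_mod_cast Nat.pow_log_le_self 2 (by omega : X ≠ 0)

lemma cnt_mono (N : ℕ) (b : ℕ → ℂ) {T T' : ℕ} {V V' : ℝ} (hT : T ≤ T') (hV : V' ≤ V) :
    cnt N b T V ≤ cnt N b T' V' := by
  unfold cnt
  refine card_le_card fun t ht => ?_
  rw [mem_filter, mem_Icc] at ht ⊢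
  exact ⟨⟨ht.1.1, ht.1.2.trans (by exact_mod_cast hT)⟩, hV.trans ht.2⟩

lemma cnt_le (N : ℕ) (b : ℕ → ℂ) (T : ℕ) (V : ℝ) : cnt N b T V ≤ T + 1 := by
  unfold cnt
  refine (card_filter_le _ _).trans ?_
  rw [Int.card_Icc]
  omega

lemma integrable_kp : MeasureTheory.Integrable kp := by
  have : kp = fun x : ℝ => (1 + x ^ 2)⁻¹ := by
    funext x
    rw [kp, one_div]
  rw [this]
  exact integrable_inv_one_add_sq

lemma integral_kp : ∫ x : ℝ, kp x = Real.pi := by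
  simp only [kp, one_div]
  exact integral_univ_inv_one_add_sq

lemma psi_nonneg (x : ℝ) : 0 ≤ psi x := Real.smoothTransition.nonneg _

lemma psi_le_one (x : ℝ) : psi x ≤ 1 := Real.smoothTransition.le_one _

lemma psi_eq_one {x : ℝ} (h : x ≤ 1) : psi x = 1 :=
  Real.smoothTransition.one_of_one_le (by linarith)

lemma psi_eq_zero {x : ℝ} (h : 5 / 4 ≤ x) : psi x = 0 :=
  Real.smoothTransition.zero_of_nonpos (by linarith)

lemma psi_anti : Antitone psi := fun _ _ h => Real.smoothTransition.monotone (by linarith)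

lemma contDiff_psi : ContDiff ℝ (⊤ : ℕ∞) psi :=
  Real.smoothTransition.contDiff.comp (by fun_prop)

lemma contDiff_om : ContDiff ℝ (⊤ : ℕ∞) om :=
  (contDiff_psi.comp (by fun_prop)).sub contDiff_psi

lemma om_eq_zero {x : ℝ} (h : x ≤ 1 ∨ 5 / 3 ≤ x) : om x = 0 := by
  unfold om
  rcases h with h | h
  · rw [psi_eq_one h, psi_eq_one (by linarith), sub_self]
  · rw [psi_eq_zero (by linarith), psi_eq_zero (by linarith), sub_self]

end Pool.Agent.MP_2a1f0e_nt.DH
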