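import Pool.Agent.MP_2a1f0e_nt.DH.Basic

set_option autoImplicit false

open Finset

namespace Pool.Agent.MP_2a1f0e_nt.DH

open Pool.Agent.MP_2a1f0e_nt.GM

lemma conj_mul_Bil (α β : ℂ) (x u v : ℝ) :
    (starRingEnd ℂ) (α * pw x u) * (β * pw x v) = (starRingEnd ℂ) α * β * pw x (v - u) := by
  rw [map_mul, pw_sub]
  ring

lemma sqrt_sq_Bil {a : ℝ} (ha : 0 ≤ a) : ((√a : ℝ) : ℂ) * ((√a : ℝ) : ℂ) = a := by
  rw [← Complex.ofReal_mul, Real.mul_self_sqrt ha]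

lemma row_Bil {H : ℕ} {f : ℝ → ℝ} (hf : ∀ u, 0 ≤ f u) {d : ℤ} (hd : d ∈ Icc (-(H : ℤ)) H) :
    ∑ e ∈ Icc (-(H : ℤ)) H, f ((e : ℝ) - d) ≤
      ∑ u ∈ Icc (-((2 * H : ℕ) : ℤ)) ((2 * H : ℕ) : ℤ), f (u : ℝ) := by
  have h1 : ∑ e ∈ Icc (-(H : ℤ)) H, f ((e : ℝ) - d) =
      ∑ u ∈ (Icc (-(H : ℤ)) H).image (fun e => e - d), f (u : ℝ) := by
    rw [sum_image fun a _ b _ h => by simpa using h]
    simp only [Int.cast_sub]
  rw [h1]
  refine sum_le_sum_of_subset_of_nonneg (fun u hu => ?_) fun _ _ _ => hf _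
  obtain ⟨e, he, rfl⟩ := mem_image.1 hu
  rw [mem_Icc] at he hd ⊢
  push_cast
  omega

theorem bil_stmt (hS : SpecStmt) (hP : PosStmt) : BilStmt := by
  intro N M H E Z b W g hN hb hg hE
  have hE0 : 0 ≤ E := (sum_nonneg fun _ _ => norm_nonneg _).trans hE
  have hZ0 : 0 ≤ Z := (hg 0).1.trans (hg 0).2
  have hN0 : (0 : ℝ) < N := by exact_mod_cast hN
  obtain ⟨bt, hbt⟩ : ∃ bt : ℕ → ℂ, bt = fun n => if n ∈ Icc N (2 * N) then b n else 0 := ⟨_, rfl⟩
  have hsub : Icc N (2 * N) ⊆ Icc 1 (3 * N) := Icc_subset_Icc hN (by omega)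
  have hW : ∀ n ∈ Icc N (2 * N), Wt ((n : ℝ) / N) = 1 := fun n hn => by
    rw [mem_Icc] at hn
    refine Wt_eq_one ((one_le_div hN0).2 (by exact_mod_cast hn.1)) ((div_le_iff₀ hN0).2 ?_)
    exact_mod_cast hn.2
  have hbt1 : ∀ n, ‖bt n‖ ^ 2 ≤ if n ∈ Icc N (2 * N) then 1 else 0 := fun n => by
    rw [hbt]
    dsimp only
    split_ifs
    · exact pow_le_one₀ (norm_nonneg _) (hb n)
    · simp
  have h := hS (Icc 1 (3 * N)) (Icc (-(H : ℤ)) H) W
    (fun n d => ((√(Wt ((n : ℝ) / N)) : ℝ) : ℂ) * ((√(g d) : ℝ) : ℂ) * pw (n : ℝ) d)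
    (fun n t => bt n * pw (n : ℝ) t)
    (fun d e => ((√(g d) : ℝ) : ℂ) * ((√(g e) : ℝ) : ℂ) * Kb N M ((e : ℝ) - d)) (E * Z)
    (mul_nonneg hE0 hZ0) (fun x => ?_)
  · refine le_trans (le_of_eq ?_) (h.trans (add_le_add ?_ (mul_le_mul (le_of_eq ?_) ?_
      (Real.sqrt_nonneg _) (Real.sqrt_nonneg _))))
    · refine sum_congr rfl fun t _ => sum_congr rfl fun d _ => ?_
      have e : ∑ n ∈ Icc 1 (3 * N), (starRingEnd ℂ) (((√(Wt ((n : ℝ) / N)) : ℝ) : ℂ) *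
          ((√(g d) : ℝ) : ℂ) * pw (n : ℝ) d) * (bt n * pw (n : ℝ) t) =
          ((√(g d) : ℝ) : ℂ) * DP N b ((t - d : ℤ) : ℝ) := by
        rw [DP, mul_sum, ← sum_subset hsub fun n _ hn => by simp only [hbt, if_neg hn, zero_mul, mul_zero]]
        refine sum_congr rfl fun n hn => ?_
        rw [conj_mul_Bil, hW n hn, hbt]
        simp only [if_pos hn, Real.sqrt_one, Complex.ofReal_one, one_mul, Complex.conj_ofReal,
          Int.cast_sub, mul_assoc]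
      rw [e, norm_mul, mul_pow, Complex.norm_real, Real.norm_eq_abs, sq_abs, Real.sq_sqrt (hg d).1]
    · have e : ∀ t ∈ W, ∑ n ∈ Icc 1 (3 * N), ‖bt n * pw (n : ℝ) t‖ ^ 2 ≤ 2 * N := fun t _ => by
        simp only [norm_mul, norm_pw, mul_one]
        refine (sum_le_sum fun n _ => hbt1 n).trans ?_
        rw [sum_ite_mem, inter_eq_right.2 hsub, sum_const, Nat.card_Icc, nsmul_eq_mul, mul_one]
        exact_mod_cast (by omega : 2 * N + 1 - N ≤ 2 * N)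
      have e2 := sum_le_card_nsmul _ _ _ e
      rw [nsmul_eq_mul] at e2
      exact (mul_le_mul_of_nonneg_left e2 (mul_nonneg hE0 hZ0)).trans_eq (by ring)
    · congr 1
      refine sum_congr rfl fun d _ => sum_congr rfl fun e _ => ?_
      rw [norm_mul, norm_mul, mul_pow, mul_pow, Complex.norm_real, Complex.norm_real,
        Real.norm_eq_abs, Real.norm_eq_abs, sq_abs, sq_abs, Real.sq_sqrt (hg d).1,
        Real.sq_sqrt (hg e).1, norm_Kb_sub]
    · refine Real.sqrt_le_sqrt (le_trans (le_of_eq ?_) (hP (3 * N) (3 * N)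
        (fun n => (starRingEnd ℂ) (bt n) * bt n) (fun n => Wt ((n : ℝ) / N)) W (fun _ => 1) le_rfl
        (fun n _ => ?_) fun n _ => Wt_nonneg _))
      · rw [EE, sum_comm]
        refine sum_congr rfl fun t _ => sum_congr rfl fun t' _ => ?_
        simp only [conj_mul_Bil, one_mul, PP]
      · rw [norm_mul, Complex.norm_conj, ← sq]
        refine (hbt1 n).trans ?_
        split_ifs with hn
        · exact (hW n hn).ge
        · exact Wt_nonneg _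
  · have e : ∀ d e : ℤ, ∑ n ∈ Icc 1 (3 * N), (starRingEnd ℂ) (((√(Wt ((n : ℝ) / N)) : ℝ) : ℂ) *
          ((√(g d) : ℝ) : ℂ) * pw (n : ℝ) d) * (((√(Wt ((n : ℝ) / N)) : ℝ) : ℂ) *
          ((√(g e) : ℝ) : ℂ) * pw (n : ℝ) e) =
          ((√(g d) : ℝ) : ℂ) * ((√(g e) : ℝ) : ℂ) * KK N ((e : ℝ) - d) := fun d e => by
      rw [KK, mul_sum]
      refine sum_congr rfl fun n _ => ?_
      rw [conj_mul_Bil, map_mul, Complex.conj_ofReal, Complex.conj_ofReal]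
      linear_combination (((√(g d) : ℝ) : ℂ) * ((√(g e) : ℝ) : ℂ) * pw (n : ℝ) ((e : ℝ) - d)) *
        sqrt_sq_Bil (Wt_nonneg ((n : ℝ) / N))
    have h1 := schur (Icc (-(H : ℤ)) H) (fun d => ‖x d‖ * √(g d))
      (fun d e => ‖KK N ((e : ℝ) - d) - Kb N M ((e : ℝ) - d)‖) (fun _ _ _ _ => norm_nonneg _)
      (fun d _ e _ => norm_K1_sub N M _ _) E fun d hd =>
        (row_Bil (f := fun u => ‖KK N u - Kb N M u‖) (fun _ => norm_nonneg _) hd).trans hE
    refine (norm_sum_le _ _).trans ((sum_le_sum fun d _ => (norm_sum_le _ _).trans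
      (le_of_eq (sum_congr rfl fun e' _ => ?_))).trans (h1.trans ?_))
    · rw [e, ← mul_sub]
      simp only [norm_mul, Complex.norm_conj, Complex.norm_real,
        Real.norm_of_nonneg (Real.sqrt_nonneg _)]
      ring
    · rw [mul_assoc, Finset.mul_sum _ _ Z]
      refine mul_le_mul_of_nonneg_left (sum_le_sum fun d _ => ?_) hE0
      rw [mul_pow, Real.sq_sqrt (hg d).1, mul_comm]
      exact mul_le_mul_of_nonneg_right (hg d).2 (sq_nonneg _)

end Pool.Agent.MP_2a1f0e_nt.DH
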