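import Pool.Agent.MP_2a1f0e_nt.DH.Basic

set_option autoImplicit false

open Finset

namespace Pool.Agent.MP_2a1f0e_nt.DH

open Pool.Agent.MP_2a1f0e_nt.GM

lemma kp_le_Ca {t ξ : ℝ} (ht : 0 < t) (h : t / 2 ≤ |ξ|) : kp ξ ≤ 5 / t ^ 2 * kp (ξ / t) := by
  have h1 : (t / 2) ^ 2 ≤ ξ ^ 2 := by
    rw [← sq_abs ξ]
    exact pow_le_pow_left₀ (by positivity) h 2
  have h2 : 5 / t ^ 2 * kp (ξ / t) = 5 / (t ^ 2 + ξ ^ 2) := by
    unfold kp
    field_simp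
  rw [h2, kp, div_le_div_iff₀ (by positivity) (by positivity)]
  nlinarith

lemma int_Ca (N : ℕ) (S : Finset ℤ) {t B : ℝ} (ht : 0 < t) (hB0 : 0 ≤ B)
    (hB : ∀ ξ : ℝ, |ξ| ≤ t / 2 → ∑ m ∈ S, ‖KK N (ξ - m)‖ ≤ B) :
    ∑ m ∈ S, ∫ ξ : ℝ, kp ξ * ‖KK N (ξ - m)‖ ≤ Real.pi * (B + 15 * (S.card * (N / t))) := by
  have hi : ∀ m ∈ S, MeasureTheory.Integrable fun ξ : ℝ => kp ξ * ‖KK N (ξ - m)‖ := fun m _ =>
    integrable_kp.mul_bdd (c := 3 * N)
      ((continuous_KK N).comp (continuous_id.sub continuous_const)).norm.aestronglyMeasurable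
      (Filter.Eventually.of_forall fun ξ => by rw [norm_norm]; exact norm_KK_le _ _)
  have h1 := integrable_kp.mul_const B
  have h2 := (integrable_kp.comp_div ht.ne').const_mul (S.card * (3 * N) * (5 / t ^ 2))
  rw [← MeasureTheory.integral_finsetSum _ hi]
  refine (MeasureTheory.integral_mono (MeasureTheory.integrable_finsetSum _ hi) (h1.add h2)
    fun ξ => ?_).trans (le_of_eq ?_)
  · change _ ≤ kp ξ * B + S.card * (3 * N) * (5 / t ^ 2) * kp (ξ / t)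
    have k1 := kp_pos ξ
    have k2 := kp_pos (ξ / t)
    rw [← mul_sum]
    rcases le_total |ξ| (t / 2) with h | h
    · exact (mul_le_mul_of_nonneg_left (hB ξ h) k1.le).trans
        (le_add_of_nonneg_right (by positivity))
    · refine le_trans ?_ (le_add_of_nonneg_left (by positivity))
      have h3 : ∑ m ∈ S, ‖KK N (ξ - m)‖ ≤ S.card * (3 * N) := by
        simpa using sum_le_card_nsmul S _ _ fun m _ => norm_KK_le N (ξ - m)
      rw [mul_assoc _ (5 / t ^ 2), mul_comm (kp ξ)]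
      exact mul_le_mul h3 (kp_le_Ca ht h) k1.le (by positivity)
  · change ∫ ξ : ℝ, kp ξ * B + S.card * (3 * N) * (5 / t ^ 2) * kp (ξ / t) = _
    rw [MeasureTheory.integral_add h1 h2, MeasureTheory.integral_mul_const,
      MeasureTheory.integral_const_mul, MeasureTheory.Measure.integral_comp_div, integral_kp,
      abs_of_pos ht, smul_eq_mul]
    field_simp
    ring

lemma num_Ca {t y σ n : ℝ} (ht : 1 ≤ t) (h1 : √t ≤ y) (h2 : y ≤ 2 * t ^ 2) (hσ : 11 / 20 ≤ σ)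
    (hn : n ≤ y) : y ^ (-σ) ≤ t ^ (-(1 / 10) : ℝ) ∧ y ^ (-σ) * √n ≤ t ^ ((1 - 2 * σ) / 4) ∧
      y ^ (-σ) * (n / t) ≤ 2 * t ^ (-(1 / 10) : ℝ) := by
  have t0 : 0 < t := by linarith
  have r1 : 1 ≤ √t := Real.one_le_sqrt.2 ht
  have y1 : 1 ≤ y := r1.trans h1
  have y0 : 0 < y := by linarith
  have key : ∀ a : ℝ, a ≤ 0 → y ^ a ≤ t ^ (a / 2) := fun a ha => by
    refine (Real.rpow_le_rpow_of_nonpos (by linarith) h1 ha).trans (le_of_eq ?_)
    rw [Real.sqrt_eq_rpow, ← Real.rpow_mul t0.le]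
    congr 1
    ring
  refine ⟨(key _ (by linarith)).trans (Real.rpow_le_rpow_of_exponent_le ht (by linarith)), ?_, ?_⟩
  · calc y ^ (-σ) * √n ≤ y ^ (-σ) * √y := by gcongr
      _ = y ^ (-σ + 1 / 2) := by rw [Real.sqrt_eq_rpow, Real.rpow_add y0]
      _ ≤ t ^ ((-σ + 1 / 2) / 2) := key _ (by linarith)
      _ = _ := by congr 1; ring
  · calc y ^ (-σ) * (n / t) ≤ y ^ (-σ) * (y / t) := by gcongr
      _ = y ^ (-σ + 1) / t := by rw [Real.rpow_add y0, Real.rpow_one, mul_div_assoc]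
      _ ≤ y ^ (9 / 20 : ℝ) / t := by
        gcongr
        linarith
      _ ≤ (2 * t ^ 2) ^ (9 / 20 : ℝ) / t := by gcongr
      _ = 2 ^ (9 / 20 : ℝ) * t ^ (-(1 / 10) : ℝ) := by
        rw [Real.mul_rpow (by norm_num) (by positivity), ← Real.rpow_natCast,
          ← Real.rpow_mul t0.le, mul_div_assoc, ← Real.rpow_sub_one t0.ne']
        norm_num
      _ ≤ _ := by
        gcongr
        exact (Real.rpow_le_rpow_of_exponent_le one_le_two (by norm_num)).trans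
          (Real.rpow_one 2).le

theorem ca_stmt (hS : SmStmt) (hK : KsStmt) : CaStmt := by
  intro ε hε
  obtain ⟨Cs, hCs, hS⟩ := hS
  obtain ⟨Ck, hCk, hK⟩ := hK ε hε
  have hπ := Real.pi_pos
  refine ⟨1 + Cs * Real.pi * (Ck + 30), le_add_of_nonneg_right (by positivity),
    fun T y σ hT h1 h2 hσ S ρ hSI hB => ?_⟩
  have t100 : (100 : ℝ) ≤ T := by exact_mod_cast hT
  have t0 : (0 : ℝ) < T := by linarith
  have r10 : 10 ≤ √(T : ℝ) := Real.le_sqrt_of_sq_le (by linarith)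
  have r2 := Real.sq_sqrt t0.le
  have n1 : (⌊y⌋₊ : ℝ) ≤ y := Nat.floor_le (by linarith)
  have n2 := Nat.lt_floor_add_one y
  have n3 : 3 * T ≤ 4 * ⌊y⌋₊ ^ 2 := by
    have : 9 / 10 * √(T : ℝ) ≤ ⌊y⌋₊ := by linarith
    have : 3 * (T : ℝ) ≤ 4 * (⌊y⌋₊ : ℝ) ^ 2 := by nlinarith
    exact_mod_cast this
  have n4 : ⌊y⌋₊ ≤ 2 * T ^ 2 := by exact_mod_cast n1.trans h2
  have k1 := int_Ca ⌊y⌋₊ S t0 (by positivity) (hK T _ (by omega) n3 n4 S hSI)
  obtain ⟨a1, a2, a3⟩ := num_Ca (by linarith) h1 h2 hσ n1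
  have u0 : 0 < y ^ (-σ) := Real.rpow_pos_of_pos (by linarith) _
  have k2 : ∑ m ∈ S, ‖Sm y (ρ m)‖ ≤
      Cs * y ^ (-σ) * ∑ m ∈ S, ∫ ξ : ℝ, kp ξ * ‖KK ⌊y⌋₊ (ξ - m)‖ := by
    rw [mul_sum]
    refine sum_le_sum fun m hm => ?_
    obtain ⟨b1, b2, b3, b4⟩ := hB m hm
    refine (hS y m (ρ m) (by linarith) (by linarith) b2 b3 b4).trans
      (mul_le_mul_of_nonneg_right (mul_le_mul_of_nonneg_left
        (Real.rpow_le_rpow_of_exponent_le (by linarith) (by linarith)) hCs.le)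
        (MeasureTheory.integral_nonneg fun ξ => mul_nonneg (kp_pos ξ).le (norm_nonneg _)))
  have e : (T : ℝ) ^ ((2 - 2 * σ + ε) / 4) =
      (T : ℝ) ^ ((1 - 2 * σ) / 4) * (T : ℝ) ^ ((1 + ε) / 4) := by
    rw [← Real.rpow_add t0]
    congr 1
    ring
  refine (k2.trans (mul_le_mul_of_nonneg_left k1 (by positivity))).trans ?_
  rw [e]
  have p1 : 0 ≤ (S.card : ℝ) ^ (3 / 4 : ℝ) := by positivity
  have p2 : 0 ≤ (T : ℝ) ^ ((1 + ε) / 4) := by positivity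
  have p3 : 0 ≤ (T : ℝ) ^ ((1 - 2 * σ) / 4) := by positivity
  have p4 : 0 ≤ (T : ℝ) ^ (-(1 / 10) : ℝ) := by positivity
  have p5 : 0 ≤ (S.card : ℝ) := by positivity
  generalize (S.card : ℝ) ^ (3 / 4 : ℝ) = Q at *
  generalize (S.card : ℝ) = R at *
  generalize (T : ℝ) ^ ((1 + ε) / 4) = a at *
  generalize (T : ℝ) ^ ((1 - 2 * σ) / 4) = b at *
  generalize (T : ℝ) ^ (-(1 / 10) : ℝ) = c at *
  calc Cs * y ^ (-σ) * (Real.pi * (Ck * (R + √(⌊y⌋₊ : ℝ) * Q * a) + 15 * (R * (⌊y⌋₊ / T))))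
      = Cs * Real.pi * (Ck * (R * y ^ (-σ) + Q * (y ^ (-σ) * √(⌊y⌋₊ : ℝ) * a)) +
          15 * (R * (y ^ (-σ) * (⌊y⌋₊ / T)))) := by ring
    _ ≤ Cs * Real.pi * (Ck * (R * c + Q * (b * a)) + 15 * (R * (2 * c))) := by gcongr
    _ ≤ _ := by
      have q1 : 0 ≤ R * c := by positivity
      have q2 : 0 ≤ Q * (b * a) := by positivity
      have q3 : 0 ≤ Cs * Real.pi * (Q * (b * a)) := by positivity
      nlinarith

end Pool.Agent.MP_2a1f0e_nt.DH
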