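import Pool.Agent.MP_2a1f0e_nt.DH.Basic

set_option autoImplicit false

open Finset

namespace Pool.Agent.MP_2a1f0e_nt.DH

open Pool.Agent.MP_2a1f0e_nt.GM

theorem conj_pow_Cb {k N : ℕ} (hk : 0 < k) (hN : 0 < N) (σ m : ℝ) (ρ z : ℂ)
    (hz : z = σ - Complex.I * m - (starRingEnd ℂ) ρ) :
    (starRingEnd ℂ) ((k : ℂ) ^ (-ρ)) = Complex.exp ((z - σ) * (Real.log N : ℝ)) *
      ((Real.exp (σ * (Real.log N - Real.log k)) : ℝ) * pw (k : ℝ) m *
        ((((k : ℝ) / N : ℝ) : ℂ) ^ z)) := by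
  have hk' : (0 : ℝ) < k := by exact_mod_cast hk
  have hN' : (0 : ℝ) < N := by exact_mod_cast hN
  rw [Complex.cpow_def_of_ne_zero (by exact_mod_cast hk.ne'),
    Complex.cpow_def_of_ne_zero (Complex.ofReal_ne_zero.2 (div_pos hk' hN').ne'),
    ← Complex.ofReal_log (div_pos hk' hN').le, Real.log_div hk'.ne' hN'.ne', ← Complex.exp_conj,
    ← Complex.natCast_log, map_mul, Complex.conj_ofReal, map_neg, pw, Complex.ofReal_exp,
    ← Complex.exp_add, ← Complex.exp_add, ← Complex.exp_add, hz]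
  congr 1
  generalize Real.log k = a
  generalize Real.log N = b
  push_cast
  ring

theorem cb_stmt (hT : TyStmt) : CbStmt := by
  intro N T Y σ Δ κ Z c hN hσ hΔ hκ hc hY hZ S ρ hS hB hm
  have hN' : (0 : ℝ) < N := by exact_mod_cast hN
  let b : ℕ → ℂ := fun k => if k ∈ Ioc N (2 * N) then
    (starRingEnd ℂ) (c k) * (Real.exp (σ * (Real.log N - Real.log k)) : ℝ) / Δ else 0
  refine hT N T Y _ Z hN (by positivity) hY hZ b (fun k => ?_) S
    (fun m => σ - Complex.I * (m : ℝ) - (starRingEnd ℂ) (ρ m)) hS (fun m h => ?_) fun m h => ?_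
  · simp only [b]
    split_ifs with h
    · rw [norm_div, norm_mul, Complex.norm_conj, Complex.norm_real, Complex.norm_real,
        Real.norm_of_nonneg (Real.exp_pos _).le, Real.norm_of_nonneg hΔ.le, div_le_one hΔ]
      refine (mul_le_of_le_one_right (norm_nonneg _) (Real.exp_le_one_iff.2 ?_)).trans (hc k h)
      refine mul_nonpos_of_nonneg_of_nonpos (by linarith) (sub_nonpos.2 ?_)
      exact Real.log_le_log hN' (by exact_mod_cast (mem_Ioc.1 h).1.le)
    · simp
  · obtain ⟨h1, h2, h3, h4⟩ := hB m h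
    rw [← sq_le_sq₀ (norm_nonneg _) (by norm_num), Complex.sq_norm, Complex.normSq_apply]
    simp only [Complex.sub_re, Complex.sub_im, Complex.ofReal_re, Complex.ofReal_im,
      Complex.mul_re, Complex.mul_im, Complex.I_re, Complex.I_im, Complex.conj_re, Complex.conj_im]
    nlinarith
  · obtain ⟨z, hz⟩ : ∃ z, z = σ - Complex.I * (m : ℝ) - (starRingEnd ℂ) (ρ m) := ⟨_, rfl⟩
    have e : (starRingEnd ℂ) (∑ k ∈ Ioc N (2 * N), c k * (k : ℂ) ^ (-ρ m)) =
        Δ * Complex.exp ((z - σ) * (Real.log N : ℝ)) * ∑ n ∈ Icc N (2 * N),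
          b n * pw (n : ℝ) m * ((((n : ℝ) / N : ℝ) : ℂ) ^ z) := by
      rw [← sum_subset Ioc_subset_Icc_self fun n _ hn => by simp only [b, if_neg hn, zero_mul],
        map_sum, mul_sum]
      refine sum_congr rfl fun k hk => ?_
      have : (Δ : ℂ) ≠ 0 := Complex.ofReal_ne_zero.2 hΔ.ne'
      rw [map_mul, conj_pow_Cb (lt_of_le_of_lt (Nat.zero_le _) (mem_Ioc.1 hk).1) hN σ m _ z hz]
      simp only [b, if_pos hk]
      field_simp
    have h1 := hm m h
    rw [← Complex.norm_conj, e, norm_mul, norm_mul, Complex.norm_real, Real.norm_of_nonneg hΔ.le,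
      Complex.norm_exp] at h1
    have h2 : Real.exp ((z - σ) * (Real.log N : ℝ)).re * (N : ℝ) ^ σ ≤ 1 := by
      rw [Real.rpow_def_of_pos hN', ← Real.exp_add, Real.exp_le_one_iff, hz]
      have h3 := mul_le_mul_of_nonneg_left (hB m h).1 (Real.log_natCast_nonneg N)
      simp only [Complex.sub_re, Complex.sub_im, Complex.ofReal_re, Complex.ofReal_im,
        Complex.mul_re, Complex.mul_im, Complex.I_re, Complex.I_im, Complex.conj_re]
      linarith
    rw [← hz, div_le_iff₀ hΔ]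
    refine (mul_le_mul_of_nonneg_right h1 (by positivity)).trans ?_
    rw [mul_right_comm, mul_assoc Δ, mul_comm]
    exact mul_le_mul_of_nonneg_left (mul_le_of_le_one_right hΔ.le h2) (norm_nonneg _)

end Pool.Agent.MP_2a1f0e_nt.DH
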