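import Pool.Agent.MP_2a1f0e_nt.DH.Basic

set_option autoImplicit false

open Finset

namespace Pool.Agent.MP_2a1f0e_nt.DH

open Pool.Agent.MP_2a1f0e_nt.GM

lemma root_Core {R K E : ℝ} (hR : 0 ≤ R) (hE : 0 ≤ E) (e : ℝ)
    (h : R ≤ K * (R ^ (3 / 4 : ℝ) * E ^ (e / 4))) : R ≤ K ^ 4 * E ^ e := by
  rcases hR.eq_or_lt with rfl | h0
  · positivity
  have e1 : (R ^ (3 / 4 : ℝ)) ^ 4 = R ^ 3 := by
    rw [← Real.rpow_natCast, ← Real.rpow_mul hR, ← Real.rpow_natCast]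
    norm_num
  have e2 : (E ^ (e / 4)) ^ 4 = E ^ e := by
    rw [← Real.rpow_natCast, ← Real.rpow_mul hE]
    norm_num
  have h1 := pow_le_pow_left₀ hR h 4
  rw [mul_pow, mul_pow, e1, e2] at h1
  refine le_of_mul_le_mul_left ?_ (pow_pos h0 3)
  calc R ^ 3 * R = R ^ 4 := by ring
    _ ≤ _ := h1
    _ = _ := by ring

theorem core_stmt (hZ : ZbStmt) (hT : TelStmt) (hM : MolStmt) (hA : CaStmt) (hB : CbStmt) :
    CoreStmt := by
  intro ε hε
  obtain ⟨C₁, hC₁, hA⟩ := hA ε hε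
  refine ⟨300 + 6 * C₁, by linarith, ?_⟩
  intro T X I J Y σ Δ Z hT100 hX hXT hI hJ1 hJ2 hΔ hσ hC hY hcnt S ρ hS hbox hzero
  classical
  have hT' : (100 : ℝ) ≤ T := by exact_mod_cast hT100
  have hT0 : (0 : ℝ) < T := by linarith
  have hX' : (1 : ℝ) ≤ X := by exact_mod_cast hX
  set y := √(T : ℝ) with hy
  have hy2 : y ^ 2 = T := Real.sq_sqrt hT0.le
  have hy10 : 10 ≤ y := Real.le_sqrt_of_sq_le (by linarith)
  have hI1 : 1 ≤ I := by
    rcases Nat.eq_zero_or_pos I with rfl | h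
    · rw [pow_zero] at hI
      linarith
    · exact h
  have hJ : 1 ≤ J := by
    rcases Nat.eq_zero_or_pos J with rfl | h
    · rw [pow_zero, mul_one] at hJ1
      nlinarith
    · exact h
  have hI' : (1 : ℝ) ≤ I := by exact_mod_cast hI1
  have hJ' : (1 : ℝ) ≤ J := by exact_mod_cast hJ
  have hΔ1 : (1 : ℝ) ≤ Δ := hΔ.1
  obtain ⟨c, hc, hμ⟩ := hM X I y hX hXT hI
  set B : ℕ → ℤ → ℂ := fun i m =>
    ∑ k ∈ Ioc (2 ^ i * X) (2 * (2 ^ i * X)), c k * (k : ℂ) ^ (-ρ m) with hBd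
  set κ : ℝ := 1 / (3 * I) with hκ
  have hκ0 : 0 < κ := by positivity
  set S₁ := S.filter fun m => ∀ i < I, ‖B i m‖ < κ with hS₁
  have hsub : S ⊆ (range I).biUnion (fun i => S.filter fun m => κ ≤ ‖B i m‖) ∪ S₁ := by
    intro m hm
    by_cases h : ∀ i < I, ‖B i m‖ < κ
    · exact mem_union_right _ (mem_filter.2 ⟨hm, h⟩)
    · push Not at h
      obtain ⟨i, hi, h⟩ := h
      exact mem_union_left _ (mem_biUnion.2 ⟨i, mem_range.2 hi, mem_filter.2 ⟨hm, h⟩⟩)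
  have h2 : ∀ i ∈ range I, ((S.filter fun m => κ ≤ ‖B i m‖).card : ℝ) ≤ (2 * Y + 8) * Z := by
    intro i hi
    have hi' := mem_range.1 hi
    have hN : 1 ≤ 2 ^ i * X := Nat.mul_pos (Nat.two_pow_pos i) hX
    have hN2 : 2 * (2 ^ i * X) ≤ 2 ^ I * X := by
      rw [← mul_assoc, ← pow_succ']
      exact Nat.mul_le_mul_right _ (Nat.pow_le_pow_right two_pos hi')
    have hN' : (1 : ℝ) ≤ ((2 ^ i * X : ℕ) : ℝ) := by exact_mod_cast hN
    have hN3 : 2 * ((2 ^ i * X : ℕ) : ℝ) ≤ 2 ^ I * X := by exact_mod_cast hN2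
    have hp : (1 : ℝ) ≤ ((2 ^ i * X : ℕ) : ℝ) ^ σ := Real.one_le_rpow hN' (by linarith)
    refine hB (2 ^ i * X) (2 * T) Y σ Δ κ Z c hN (by linarith) (by linarith) hκ0
      (fun k hk => (hc k).trans (hΔ.2 k ((mem_Ioc.1 hk).2.trans hN2))) ?_ (fun b hb => ?_) _ ρ
      (fun m hm => ?_) (fun m hm => hbox m (mem_filter.1 hm).1) fun m hm => (mem_filter.1 hm).2
    · have h3 : (0 : ℝ) ≤ κ / Δ := by positivity
      calc ((2 ^ i * X : ℕ) : ℝ) + 1 ≤ 2 * (2 ^ I * X) := by linarith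
        _ = 6 * I * Δ * (2 ^ I * X) * (κ / Δ) := by
          rw [hκ]
          field_simp
          ring
        _ ≤ 2 ^ Y * (κ / Δ) := mul_le_mul_of_nonneg_right hY h3
        _ ≤ _ := by gcongr; exact le_mul_of_one_le_right hκ0.le hp
    · refine le_of_eq_of_le ?_ (hcnt i hi' b hb)
      congr 2
      rw [hκ]
      field_simp
      ring
    · have h3 := mem_Icc.1 (hS (mem_filter.1 hm).1)
      exact mem_Icc.2 ⟨(Int.natCast_nonneg T).trans h3.1, by push_cast; exact h3.2⟩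
  set τ := (T : ℝ) ^ (-(1 / 10) : ℝ) with hτ
  have hτ0 : 0 < τ := Real.rpow_pos_of_pos hT0 _
  have hCτ : (300 + 6 * C₁) * X * J * τ ≤ 1 := by
    rw [hτ, Real.rpow_neg hT0.le]
    exact mul_inv_le_one_of_le₀ hC (Real.rpow_nonneg hT0.le _)
  have hXτ : 0 < X * τ := by positivity
  have hXJτ : 0 < X * J * τ := by positivity
  have hm1 : ∀ m ∈ S₁, 1 / 3 ≤ X * ∑ j ∈ range J, ‖Sm (y * (4 / 3) ^ j) (ρ m)‖ := by
    intro m hm
    obtain ⟨hmS, hm⟩ := mem_filter.1 hm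
    obtain ⟨b1, b2, b3, b4⟩ := hbox m hmS
    obtain ⟨μ, hμ1, hμ2⟩ := hμ (ρ m) (by linarith)
    have h3 := mem_Icc.1 (hS hmS)
    have h4 : (T : ℝ) ≤ m := by exact_mod_cast h3.1
    have h5 : (m : ℝ) ≤ 2 * T := by exact_mod_cast h3.2
    have h6 := hZ (ρ m) T _ (hzero m hmS) (by linarith) b2 (by linarith) (by linarith)
      (by linarith) hJ1 hJ2
    have h7 : (T : ℝ) ^ (1 - 2 * (ρ m).re) ≤ τ :=
      Real.rpow_le_rpow_of_exponent_le (by linarith) (by linarith)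
    have h8 : ‖∑ i ∈ range I, B i m‖ ≤ 1 / 3 := by
      refine (norm_sum_le_of_le _ fun i hi => (hm i (mem_range.1 hi)).le).trans (le_of_eq ?_)
      rw [sum_const, card_range, nsmul_eq_mul, hκ]
      field_simp
    have h9 : 1 - ‖∑ i ∈ range I, B i m‖ ≤ ‖μ * Ps y (ρ m)‖ := by
      rw [hμ2]
      simpa using norm_sub_norm_le (1 : ℂ) (-∑ i ∈ range I, B i m)
    have h10 : ‖Ps y (ρ m)‖ ≤ 100 * τ + ∑ j ∈ range J, ‖Sm (y * (4 / 3) ^ j) (ρ m)‖ := by
      rw [← sub_eq_iff_eq_add.2 (hT (ρ m) y J (by linarith))]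
      exact norm_sub_le_of_le (h6.trans (by linarith)) (norm_sum_le _ _)
    have h11 : ‖μ * Ps y (ρ m)‖ ≤
        X * (100 * τ + ∑ j ∈ range J, ‖Sm (y * (4 / 3) ^ j) (ρ m)‖) := by
      rw [norm_mul]
      exact mul_le_mul hμ1 h10 (norm_nonneg _) (by linarith)
    have h12 : X * τ ≤ X * J * τ := by
      rw [mul_right_comm]
      exact le_mul_of_one_le_right hXτ.le hJ'
    nlinarith
  set R : ℝ := (S₁.card : ℝ) with hR
  set G := R ^ (3 / 4 : ℝ) * (T : ℝ) ^ ((2 - 2 * σ + ε) / 4) with hG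
  have hR0 : 0 ≤ R := Nat.cast_nonneg _
  have hG0 : 0 ≤ G := by positivity
  have h3 : R * (1 / 3) ≤ X * (J * (C₁ * (R * τ + G))) := by
    have h4 := sum_le_sum hm1
    rw [sum_const, nsmul_eq_mul, ← mul_sum, sum_comm] at h4
    refine h4.trans (mul_le_mul_of_nonneg_left ?_ (by linarith))
    refine (sum_le_card_nsmul _ _ (C₁ * (R * τ + G)) fun j hj => ?_).trans
      (by rw [card_range, nsmul_eq_mul])
    refine hA T _ σ hT100 (le_mul_of_one_le_right (by linarith) (one_le_pow₀ (by norm_num)))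
      (le_trans ?_ hJ2) hσ S₁ ρ ((filter_subset _ _).trans hS) fun m hm =>
        hbox m (mem_filter.1 hm).1
    exact mul_le_mul_of_nonneg_left (pow_le_pow_right₀ (by norm_num) (mem_range.1 hj).le)
      (by linarith)
  have h4 : R ≤ ((300 + 6 * C₁) * X * J) ^ 4 * (T : ℝ) ^ (2 - 2 * σ + ε) := by
    refine root_Core hR0 hT0.le _ ?_
    have h5 : 6 * C₁ * (X * J * τ) ≤ 1 := by nlinarith
    have h6 := mul_le_mul_of_nonneg_left h5 hR0
    have h7 : 0 ≤ X * J * G := by positivity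
    nlinarith
  have h5 : (S.card : ℝ) ≤ ∑ i ∈ range I, ((S.filter fun m => κ ≤ ‖B i m‖).card : ℝ) + R := by
    rw [hR]
    exact_mod_cast (card_le_card hsub).trans ((card_union_le _ _).trans
      (Nat.add_le_add_right card_biUnion_le _))
  have h6 := sum_le_card_nsmul _ _ _ h2
  rw [card_range, nsmul_eq_mul, ← mul_assoc] at h6
  linarith

end Pool.Agent.MP_2a1f0e_nt.DH
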