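import Pool.Agent.MP_2a1f0e_nt.GM.Basic

set_option autoImplicit false

open Finset

namespace Pool.Agent.MP_2a1f0e_nt.DH

open Pool.Agent.MP_2a1f0e_nt.GM

/-- Dirichlet polynomial on `[1, L]` -/
noncomputable def PP (L : ℕ) (c : ℕ → ℂ) (u : ℝ) : ℂ := ∑ l ∈ Icc 1 L, c l * pw (l : ℝ) u

/-- `x ^ (-1/2)` -/
noncomputable def hf (x : ℝ) : ℝ := 1 / √x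

/-- the zeta sum on the critical line -/
noncomputable def ZZ (M : ℕ) (u : ℝ) : ℂ := PP M (fun l => (hf (l : ℝ) : ℂ)) u

/-- weighted double sum over differences -/
noncomputable def EE (s : Finset ℤ) (g : ℤ → ℝ) (F : ℝ → ℂ) : ℝ :=
  ∑ x ∈ s, ∑ y ∈ s, g x * g y * ‖F ((x : ℝ) - y)‖ ^ 2

def Diam (s : Finset ℤ) (L : ℕ) : Prop := ∀ x ∈ s, ∀ y ∈ s, |x - y| ≤ (L : ℤ)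

/-- number of integer points of `[0, T]` with a large value -/
noncomputable def cnt (N : ℕ) (b : ℕ → ℂ) (T : ℕ) (V : ℝ) : ℕ :=
  ((Icc 0 (T : ℤ)).filter (fun t : ℤ => V ≤ ‖DP N b t‖)).card

/-- the Gamma integral -/
noncomputable def GI (r : ℂ) (τ : ℝ) : ℂ :=
  ∫ t in Set.Ioi (0 : ℝ), (hf t : ℂ) * pw t τ * Complex.exp (-(r * t))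

/-- smooth cutoff, `1` on `x ≤ 1`, `0` on `5/4 ≤ x`, antitone -/
noncomputable def psi (x : ℝ) : ℝ := Real.smoothTransition (5 - 4 * x)

/-- smooth bump supported in `[1, 5/3]` -/
noncomputable def om (x : ℝ) : ℝ := psi (3 / 4 * x) - psi x

noncomputable def Ps (y : ℝ) (ρ : ℂ) : ℂ :=
  ∑ n ∈ Icc 1 (3 * ⌊y⌋₊), (psi ((n : ℝ) / y) : ℂ) * (n : ℂ) ^ (-ρ)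

noncomputable def Sm (y : ℝ) (ρ : ℂ) : ℂ :=
  ∑ n ∈ Icc 1 (3 * ⌊y⌋₊), (om ((n : ℝ) / y) : ℂ) * (n : ℂ) ^ (-ρ)

/-- right side of the master inequality -/
noncomputable def RHS (N H V R Z : ℝ) : ℝ :=
  N ^ 2 * R + N ^ (7 / 2 : ℝ) * R * Z / V ^ 2 + N ^ (3 / 2 : ℝ) * R * H / Z ^ 7 +
    (N ^ 3 * √R + N ^ (5 / 2 : ℝ) * R) / V ^ 2 *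
      (H / (V ^ 2 / N ^ (3 / 2 : ℝ)) ^ 7 + H ^ (11 / 12 : ℝ) / (V ^ 2 / N ^ (3 / 2 : ℝ)) ^ 5)

/-- the points `ρ m` lie in the box `σ ≤ re ≤ 1`, `m ≤ im ≤ m + 1` -/
def Box (σ : ℝ) (S : Finset ℤ) (ρ : ℤ → ℂ) : Prop :=
  ∀ m ∈ S, σ ≤ (ρ m).re ∧ (ρ m).re ≤ 1 ∧ (m : ℝ) ≤ (ρ m).im ∧ (ρ m).im ≤ (m : ℝ) + 1

/-! ### reflection -/

def MelStmt : Prop := ∀ (f : ℝ → ℝ) (a b : ℝ), 0 < a → ContDiff ℝ (⊤ : ℕ∞) f →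
  (∀ x, x ≤ a ∨ b ≤ x → f x = 0) → ∃ C : ℝ, 0 < C ∧ ∀ c : ℂ, ‖c‖ ≤ 2 → ∃ φ : ℝ → ℂ,
    Continuous φ ∧ (∀ ξ, ‖φ ξ‖ ≤ C * kp ξ) ∧
    ∀ x : ℝ, 0 < x → (f x : ℂ) * (x : ℂ) ^ c = ∫ ξ : ℝ, φ ξ * pw x ξ

def GamStmt : Prop := ∀ (r : ℂ) (τ : ℝ), 0 < r.re → 2 * Real.pi ≤ ‖r‖ → ‖GI r τ‖ ≤ 1

def FubStmt : Prop := ∃ C : ℝ, 0 < C ∧ ∃ φ : ℝ → ℂ, (∀ ξ, ‖φ ξ‖ ≤ C * kp ξ) ∧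
  ∀ (u : ℝ) (r : ℂ), 0 < r.re → MeasureTheory.Integrable (fun ξ : ℝ => φ ξ * GI r (u + ξ)) ∧
    ∀ k : ℝ, 0 < k → ∫ x : ℝ, (Wt x : ℂ) * pw x u * Complex.exp (-(k * r * x)) =
      ∫ ξ : ℝ, φ ξ * GI r (u + ξ) * ((hf k : ℂ) * pw k (-(u + ξ)))

def ReflStmt : Prop := ∃ C : ℝ, 0 < C ∧ ∀ N M : ℕ, 1 ≤ N → ∀ u : ℝ,
  ‖Kb N M u‖ ≤ C * √N * ∫ ξ : ℝ, kp ξ * ‖ZZ M (u + ξ)‖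

def AvgStmt : Prop := ∃ C : ℝ, 0 < C ∧ ∀ N M : ℕ, 1 ≤ N →
  ∀ (ι : Type) (s : Finset ι) (w u : ι → ℝ) (B : ℝ), (∀ i ∈ s, 0 ≤ w i) →
    (∀ ξ : ℝ, ∑ i ∈ s, w i * ‖ZZ M (u i + ξ)‖ ≤ B) →
    ∑ i ∈ s, w i * ‖Kb N M (u i)‖ ≤ C * √N * B

def PkStmt : Prop := ∀ δ : ℝ, 0 < δ → ∃ E : ℝ, 0 < E ∧ ∀ N M L : ℕ, 1 ≤ N → 1 ≤ L →
  L ≤ 4 * N ^ 2 → 2 * (L : ℝ) * (N : ℝ) ^ δ ≤ (N : ℝ) * M → ∀ u : ℝ, |u| ≤ L →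
  ‖KK N u - Kb N M u‖ ≤ E * (N * kp u + 1)

/-! ### double sums -/

def IdStmt : Prop := ∀ (L : ℕ) (a : ℕ → ℝ) (s : Finset ℤ) (g : ℤ → ℝ),
  EE s g (PP L fun l => (a l : ℂ)) =
    ∑ l ∈ Icc 1 L, ∑ l' ∈ Icc 1 L, a l * a l' * ‖FT s g ((l : ℝ) / l')‖ ^ 2

def PosStmt : Prop := ∀ (L L' : ℕ) (c : ℕ → ℂ) (a : ℕ → ℝ) (s : Finset ℤ) (g : ℤ → ℝ),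
  L ≤ L' → (∀ l ∈ Icc 1 L, ‖c l‖ ≤ a l) → (∀ l ∈ Icc 1 L', 0 ≤ a l) →
  EE s g (PP L c) ≤ EE s g (PP L' fun l => (a l : ℂ))

def PowZStmt : Prop := ∀ (M L : ℕ) (Δ ξ : ℝ), DivB L Δ →
  (M ^ 2 ≤ L → ∃ d : ℕ → ℂ, (∀ l ∈ Icc 1 L, ‖d l‖ ≤ Δ * hf l) ∧
    ∀ u : ℝ, ZZ M (u + ξ) ^ 2 = PP L d u) ∧
  (M ^ 4 ≤ L → ∃ d : ℕ → ℂ, (∀ l ∈ Icc 1 L, ‖d l‖ ≤ Δ ^ 3 * hf l) ∧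
    ∀ u : ℝ, ZZ M (u + ξ) ^ 4 = PP L d u)

def LenStmt : Prop := ∀ (L : ℕ) (Δ : ℝ) (s : Finset ℤ) (g : ℤ → ℝ), 1 ≤ L → DivB (8 * L) Δ →
  (∀ x ∈ s, 0 ≤ g x) →
  EE s g (ZZ L) ≤ 3 * ((Nat.log 2 L : ℝ) + 1) ^ 2 * Δ / L *
    ∑ i ∈ range 3, EE s g (KK (2 ^ i * L))

def SqStmt : Prop := ∀ (N M L : ℕ) (E : ℝ) (s : Finset ℤ) (g : ℤ → ℝ), Diam s L →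
  (∀ x ∈ s, 0 ≤ g x) → ∑ u ∈ Icc (-(L : ℤ)) L, ‖KK N (u : ℝ) - Kb N M (u : ℝ)‖ ≤ E →
  EE s g (KK N) ≤ 2 * E ^ 2 * ∑ x ∈ s, g x ^ 2 + 2 * EE s g (Kb N M)

def KbJStmt : Prop := ∃ C : ℝ, 0 < C ∧ ∀ (N M L : ℕ) (Δ : ℝ) (s : Finset ℤ) (g : ℤ → ℝ),
  1 ≤ N → M ^ 2 ≤ L → DivB L Δ → (∀ x ∈ s, 0 ≤ g x) →
  EE s g (Kb N M) ≤ C * N * Δ * (∑ x ∈ s, g x) * √(EE s g (ZZ L))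

def JutStmt : Prop := ∀ ε : ℝ, 0 < ε → ∃ C : ℝ, 0 < C ∧
  ∀ (L D : ℕ) (s : Finset ℤ) (g : ℤ → ℝ), 1 ≤ L → D ^ 2 ≤ L ^ 3 → Diam s D →
    (∀ x ∈ s, 0 ≤ g x) →
    EE s g (ZZ L) ≤ C * (L : ℝ) ^ ε * (L * ∑ x ∈ s, g x ^ 2 + (∑ x ∈ s, g x) ^ 2)

def MomStmt : Prop := ∀ ε : ℝ, 0 < ε → ∃ C : ℝ, 0 < C ∧ ∀ (M L H : ℕ) (ξ : ℝ), 1 ≤ L →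
  3 * H ≤ L →
  (M ^ 2 ≤ L → ∑ d ∈ Icc (-(H : ℤ)) H, ‖ZZ M ((d : ℝ) + ξ)‖ ^ 4 ≤ C * (L : ℝ) ^ ε * L) ∧
  (M ^ 4 ≤ L → ∑ d ∈ Icc (-(H : ℤ)) H, ‖ZZ M ((d : ℝ) + ξ)‖ ^ 8 ≤ C * (L : ℝ) ^ ε * L)

def SetAStmt : Prop := ∀ ε : ℝ, 0 < ε → ∃ C : ℝ, 1 ≤ C ∧ ∀ N H : ℕ, 1 ≤ N → N ≤ H →
  H ^ 3 ≤ N ^ 4 → ∃ M : ℕ,
    ∑ u ∈ Icc (-((2 * H : ℕ) : ℤ)) ((2 * H : ℕ) : ℤ), ‖KK N (u : ℝ) - Kb N M (u : ℝ)‖ ≤ C * N ∧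
    (∀ ξ : ℝ, ∑ d ∈ Icc (-(H : ℤ)) H, ‖ZZ M ((d : ℝ) + ξ)‖ ^ 8 ≤ C * (N : ℝ) ^ ε * H) ∧
    ∀ g : ℤ → ℝ, (∀ d, 0 ≤ g d) →
      EE (Icc (-(H : ℤ)) H) g (Kb N M) ≤ C * (N : ℝ) ^ ε * N * (∑ d ∈ Icc (-(H : ℤ)) H, g d) *
        √((H : ℝ) ^ (2 / 3 : ℝ) * ∑ d ∈ Icc (-(H : ℤ)) H, g d ^ 2 +
          (∑ d ∈ Icc (-(H : ℤ)) H, g d) ^ 2)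

def SetBStmt : Prop := ∀ ε : ℝ, 0 < ε → ∃ C : ℝ, 1 ≤ C ∧ ∀ N T : ℕ, 1 ≤ N → T ^ 2 ≤ N ^ 3 →
  ∀ W : Finset ℤ, W ⊆ Icc 0 (T : ℤ) →
    EE W (fun _ => 1) (KK N) ≤
      C * (N : ℝ) ^ ε * (W.card * (N : ℝ) ^ 2 + (W.card : ℝ) ^ 2 * N)

/-! ### the large values estimate -/

def SpecStmt : Prop := ∀ (S : Finset ℕ) (s W : Finset ℤ) (A B : ℕ → ℤ → ℂ) (G : ℤ → ℤ → ℂ)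
  (lam : ℝ), 0 ≤ lam →
  (∀ x : ℤ → ℂ, ‖∑ d ∈ s, ∑ e ∈ s, (starRingEnd ℂ) (x d) * x e *
      (∑ n ∈ S, (starRingEnd ℂ) (A n d) * A n e - G d e)‖ ≤ lam * ∑ d ∈ s, ‖x d‖ ^ 2) →
  ∑ t ∈ W, ∑ d ∈ s, ‖∑ n ∈ S, (starRingEnd ℂ) (A n d) * B n t‖ ^ 2 ≤
    lam * ∑ t ∈ W, ∑ n ∈ S, ‖B n t‖ ^ 2 + √(∑ d ∈ s, ∑ e ∈ s, ‖G d e‖ ^ 2) *
      √(∑ t ∈ W, ∑ t' ∈ W, ‖∑ n ∈ S, (starRingEnd ℂ) (B n t) * B n t'‖ ^ 2)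

def BilStmt : Prop := ∀ (N M H : ℕ) (E Z : ℝ) (b : ℕ → ℂ) (W : Finset ℤ) (g : ℤ → ℝ), 1 ≤ N →
  (∀ n, ‖b n‖ ≤ 1) → (∀ d, 0 ≤ g d ∧ g d ≤ Z) →
  ∑ u ∈ Icc (-((2 * H : ℕ) : ℤ)) ((2 * H : ℕ) : ℤ), ‖KK N (u : ℝ) - Kb N M (u : ℝ)‖ ≤ E →
  ∑ t ∈ W, ∑ d ∈ Icc (-(H : ℤ)) H, g d * ‖DP N b ((t - d : ℤ) : ℝ)‖ ^ 2 ≤
    2 * E * Z * N * W.card +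
      √(EE (Icc (-(H : ℤ)) H) g (Kb N M)) * √(EE W (fun _ => 1) (KK N))

def PrStmt : Prop := ∀ (N T H : ℕ) (b : ℕ → ℂ) (V : ℝ) (W : Finset ℤ), 1 ≤ N → 1 ≤ H →
  (∀ n, ‖b n‖ ≤ 1) → 0 ≤ V → W ⊆ Icc 0 (T : ℤ) → (∀ t ∈ W, V ≤ ‖DP N b t‖) →
  ∃ P : Finset (ℤ × ℤ), (∀ p ∈ P, p.1 ∈ W ∧ p.2 ∈ W ∧ |p.1 - p.2| ≤ (H : ℤ)) ∧
    (W.card : ℝ) ^ 2 ≤ ((T : ℝ) / H + 1) * P.card ∧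
    P.card * V ^ 2 ≤ 2 * N * ∑ p ∈ P, ‖KK N ((p.1 : ℝ) - p.2)‖

def LevStmt : Prop := ∀ (H : ℕ) (z D : ℤ → ℝ) (W : Finset ℤ) (P : Finset (ℤ × ℤ))
  (V Z₁ Z₂ Y : ℝ), (∀ d, 0 ≤ z d) → 0 < V → 0 < Z₁ → 0 < Z₂ →
  ∑ d ∈ Icc (-(H : ℤ)) H, z d ^ 8 ≤ Y →
  (∀ p ∈ P, p.1 ∈ W ∧ p.2 ∈ W ∧ |p.1 - p.2| ≤ (H : ℤ)) → (∀ t ∈ W, V ≤ D t) →
  ∃ g : ℤ → ℝ, (∀ d, 0 ≤ g d ∧ g d ≤ Z₂) ∧ ∑ d ∈ Icc (-(H : ℤ)) H, g d ≤ Y / Z₁ ^ 7 ∧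
    ∑ d ∈ Icc (-(H : ℤ)) H, g d ^ 2 ≤ Y / Z₁ ^ 6 ∧
    ∑ p ∈ P, z (p.1 - p.2) ≤ P.card * Z₁ + W.card * Y / Z₂ ^ 7 +
      (∑ t ∈ W, ∑ d ∈ Icc (-(H : ℤ)) H, g d * D (t - d) ^ 2) / V ^ 2

def MasterStmt : Prop := ∀ ε : ℝ, 0 < ε → ∃ C : ℝ, 1 ≤ C ∧ ∀ N H T : ℕ, 1 ≤ N → N ≤ H →
  H ^ 3 ≤ N ^ 4 → T ^ 2 ≤ N ^ 3 → ∀ b : ℕ → ℂ, (∀ n, ‖b n‖ ≤ 1) → ∀ V Z : ℝ, 0 < V → 0 < Z →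
  ∀ W : Finset ℤ, W ⊆ Icc 0 (T : ℤ) → (∀ t ∈ W, V ≤ ‖DP N b t‖) →
    (W.card : ℝ) ^ 2 * V ^ 2 ≤ C * (N : ℝ) ^ ε * ((T : ℝ) / H + 1) * RHS N H V W.card Z

def NuStmt : Prop := ∀ N T H V R K lam σ : ℝ, 1 ≤ N → N ^ (6 / 5 : ℝ) ≤ T →
  T ≤ N ^ (3 / 2 : ℝ) → 0 < H → H ≤ T → (T ≤ H ∨ N ^ (4 / 3 : ℝ) ≤ 2 * H) → 7 / 9 ≤ σ →
  σ ≤ 5 / 6 → 1 ≤ lam → 0 < V → N ^ σ ≤ lam * V → 1 ≤ K → 0 ≤ R →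
  (∀ Z : ℝ, 0 < Z → R ^ 2 * V ^ 2 ≤ K * (T / H + 1) * RHS N H V R Z) →
  R ≤ 100 * K * lam ^ 18 * T ^ (2 - 2 * σ)

def IvStmt : Prop := ∀ ε : ℝ, 0 < ε → ∃ K : ℝ, 0 < K ∧ ∀ N T : ℕ, 1 ≤ N → N ≤ T →
  T ^ 2 ≤ N ^ 3 → ∀ σ lam V : ℝ, 7 / 9 ≤ σ → σ ≤ 1 → 1 ≤ lam → 0 < V → (N : ℝ) ^ σ ≤ lam * V →
  ∀ b : ℕ → ℂ, (∀ n, ‖b n‖ ≤ 1) →
    (cnt N b T V : ℝ) ≤ K * (N : ℝ) ^ ε * lam ^ 18 * (T : ℝ) ^ (2 - 2 * σ)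

def PowStmt : Prop := ∀ A : ℝ, ∃ a : ℕ, ∀ ε : ℝ, 0 < ε → ∃ K : ℝ, 0 < K ∧ ∀ N T : ℕ, 1 ≤ N →
  N ^ 2 ≤ T → (T : ℝ) ≤ (N : ℝ) ^ A → ∀ σ lam V : ℝ, 7 / 9 ≤ σ → σ ≤ 1 → 1 ≤ lam → 0 < V →
  (N : ℝ) ^ σ ≤ lam * V → ∀ b : ℕ → ℂ, (∀ n, ‖b n‖ ≤ 1) →
    (cnt N b T V : ℝ) ≤ K * lam ^ a * (T : ℝ) ^ (2 - 2 * σ + ε)

def TyStmt : Prop := ∀ (N T Y : ℕ) (V Z : ℝ), 1 ≤ N → 0 < V → (N : ℝ) + 1 ≤ 2 ^ Y * V →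
  (∀ b : ℕ → ℂ, (∀ n, ‖b n‖ ≤ 1) → (cnt N b T (V / 6) : ℝ) ≤ Z) →
  ∀ b : ℕ → ℂ, (∀ n, ‖b n‖ ≤ 1) → ∀ (S : Finset ℤ) (z : ℤ → ℂ), S ⊆ Icc 0 (T : ℤ) →
    (∀ m ∈ S, ‖z m‖ ≤ 6 / 5) →
    (∀ m ∈ S, V ≤ ‖∑ n ∈ Icc N (2 * N),
      b n * pw (n : ℝ) m * ((((n : ℝ) / N : ℝ) : ℂ) ^ z m)‖) →
    (S.card : ℝ) ≤ (2 * Y + 8) * Z

def LVStmt : Prop := ∀ A ε : ℝ, 0 < ε → ∃ K : ℝ, ∀ (N : ℕ) (T σ : ℝ), 1 ≤ N → (N : ℝ) ≤ T →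
  T ≤ (N : ℝ) ^ A → (T ≤ (N : ℝ) ^ (3 / 2 : ℝ) ∨ (N : ℝ) ^ 2 ≤ T) → 7 / 9 ≤ σ → σ ≤ 1 →
  ∀ b : ℕ → ℂ, (∀ n, ‖b n‖ ≤ 1) → ∀ W : Finset ℝ, (∀ t ∈ W, 0 ≤ t ∧ t ≤ T) →
    (∀ s ∈ W, ∀ t ∈ W, s ≠ t → 1 ≤ |s - t|) → (∀ t ∈ W, (N : ℝ) ^ σ ≤ ‖DP N b t‖) →
    (W.card : ℝ) ≤ K * (N : ℝ) ^ ε * T ^ (2 - 2 * σ)

/-! ### zero detection -/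

def ZaStmt : Prop := ∀ ρ : ℂ, riemannZeta ρ = 0 → 1 / 2 ≤ ρ.re → 1 ≤ ρ.im → ∀ X : ℕ, 1 ≤ X →
  ‖∑ n ∈ Icc 1 X, (n : ℂ) ^ (-ρ)‖ ≤
    4 * ((X : ℝ) ^ (1 - ρ.re) / ρ.im + ‖ρ‖ * (X : ℝ) ^ (-ρ.re))

def ZbStmt : Prop := ∀ (ρ : ℂ) (T y : ℝ), riemannZeta ρ = 0 → 1 / 2 ≤ ρ.re → ρ.re ≤ 1 → 1 ≤ T →
  T ≤ ρ.im → ρ.im ≤ 3 * T → T ^ 2 ≤ y → y ≤ 2 * T ^ 2 → ‖Ps y ρ‖ ≤ 100 * T ^ (1 - 2 * ρ.re)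

def TelStmt : Prop := ∀ (ρ : ℂ) (y : ℝ) (J : ℕ), 1 ≤ y →
  Ps (y * (4 / 3) ^ J) ρ = Ps y ρ + ∑ j ∈ range J, Sm (y * (4 / 3) ^ j) ρ

def MolStmt : Prop := ∀ (X I : ℕ) (y : ℝ), 1 ≤ X → (X : ℝ) ≤ y → 3 * y ≤ 2 ^ I →
  ∃ c : ℕ → ℂ, (∀ k, ‖c k‖ ≤ k.divisors.card) ∧ ∀ ρ : ℂ, 0 ≤ ρ.re → ∃ μ : ℂ, ‖μ‖ ≤ X ∧
    μ * Ps y ρ = 1 + ∑ i ∈ range I, ∑ k ∈ Ioc (2 ^ i * X) (2 * (2 ^ i * X)), c k * (k : ℂ) ^ (-ρ)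

def SmStmt : Prop := ∃ C : ℝ, 0 < C ∧ ∀ (y m : ℝ) (ρ : ℂ), 5 ≤ y → 0 ≤ ρ.re → ρ.re ≤ 1 →
  m ≤ ρ.im → ρ.im ≤ m + 1 →
  ‖Sm y ρ‖ ≤ C * y ^ (-ρ.re) * ∫ ξ : ℝ, kp ξ * ‖KK ⌊y⌋₊ (ξ - m)‖

def KsStmt : Prop := ∀ ε : ℝ, 0 < ε → ∃ C : ℝ, 0 < C ∧ ∀ T N : ℕ, 1 ≤ T → 3 * T ≤ 4 * N ^ 2 →
  N ≤ 2 * T ^ 2 → ∀ S : Finset ℤ, S ⊆ Icc (T : ℤ) (2 * T) → ∀ ξ : ℝ, |ξ| ≤ T / 2 →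
    ∑ m ∈ S, ‖KK N (ξ - m)‖ ≤
      C * (S.card + √N * (S.card : ℝ) ^ (3 / 4 : ℝ) * (T : ℝ) ^ ((1 + ε) / 4))

def CaStmt : Prop := ∀ ε : ℝ, 0 < ε → ∃ C : ℝ, 1 ≤ C ∧ ∀ (T : ℕ) (y σ : ℝ), 100 ≤ T →
  √T ≤ y → y ≤ 2 * (T : ℝ) ^ 2 → 11 / 20 ≤ σ → ∀ (S : Finset ℤ) (ρ : ℤ → ℂ),
    S ⊆ Icc (T : ℤ) (2 * T) → Box σ S ρ →
    ∑ m ∈ S, ‖Sm y (ρ m)‖ ≤ C * (S.card * (T : ℝ) ^ (-(1 / 10) : ℝ) +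
      (S.card : ℝ) ^ (3 / 4 : ℝ) * (T : ℝ) ^ ((2 - 2 * σ + ε) / 4))

def CbStmt : Prop := ∀ (N T Y : ℕ) (σ Δ κ Z : ℝ) (c : ℕ → ℂ), 1 ≤ N → 1 / 2 ≤ σ → 0 < Δ →
  0 < κ → (∀ k ∈ Ioc N (2 * N), ‖c k‖ ≤ Δ) → (N : ℝ) + 1 ≤ 2 ^ Y * (κ * (N : ℝ) ^ σ / Δ) →
  (∀ b : ℕ → ℂ, (∀ n, ‖b n‖ ≤ 1) → (cnt N b T (κ * (N : ℝ) ^ σ / Δ / 6) : ℝ) ≤ Z) →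
  ∀ (S : Finset ℤ) (ρ : ℤ → ℂ), S ⊆ Icc 0 (T : ℤ) → Box σ S ρ →
    (∀ m ∈ S, κ ≤ ‖∑ k ∈ Ioc N (2 * N), c k * (k : ℂ) ^ (-ρ m)‖) →
    (S.card : ℝ) ≤ (2 * Y + 8) * Z

def CoreStmt : Prop := ∀ ε : ℝ, 0 < ε → ∃ C : ℝ, 1 ≤ C ∧ ∀ (T X I J Y : ℕ) (σ Δ Z : ℝ),
  100 ≤ T → 1 ≤ X → (X : ℝ) ≤ √T → 3 * √T ≤ 2 ^ I → (T : ℝ) ^ 2 ≤ √T * (4 / 3) ^ J →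
  √T * (4 / 3) ^ J ≤ 2 * (T : ℝ) ^ 2 → DivB (2 ^ I * X) Δ → 11 / 20 ≤ σ →
  C * X * J ≤ (T : ℝ) ^ (1 / 10 : ℝ) → 6 * I * Δ * (2 ^ I * X) ≤ 2 ^ Y →
  (∀ i < I, ∀ b : ℕ → ℂ, (∀ n, ‖b n‖ ≤ 1) →
    (cnt (2 ^ i * X) b (2 * T) (((2 ^ i * X : ℕ) : ℝ) ^ σ / (18 * I * Δ)) : ℝ) ≤ Z) →
  ∀ (S : Finset ℤ) (ρ : ℤ → ℂ), S ⊆ Icc (T : ℤ) (2 * T) → Box σ S ρ →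
    (∀ m ∈ S, riemannZeta (ρ m) = 0) →
    (S.card : ℝ) ≤ I * (2 * Y + 8) * Z + (C * X * J) ^ 4 * (T : ℝ) ^ (2 - 2 * σ + ε)

def DetStmt : Prop := ∀ η ε : ℝ, 0 < η → η ≤ 1 / 20 → 0 < ε → ∃ C : ℝ, 1 ≤ C ∧ ∃ T₀ : ℕ,
  ∀ T : ℕ, T₀ ≤ T → ∀ σ Z : ℝ, 11 / 20 ≤ σ →
  (∀ N : ℕ, (T : ℝ) ^ η ≤ N → (N : ℝ) ≤ 6 * (T : ℝ) ^ (1 / 2 + η) →
    ∀ b : ℕ → ℂ, (∀ n, ‖b n‖ ≤ 1) →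
      (cnt N b (2 * T) ((N : ℝ) ^ σ / (C * (T : ℝ) ^ ε)) : ℝ) ≤ Z) →
  ∀ (S : Finset ℤ) (ρ : ℤ → ℂ), S ⊆ Icc (T : ℤ) (2 * T) → Box σ S ρ →
    (∀ m ∈ S, riemannZeta (ρ m) = 0) →
    (S.card : ℝ) ≤ C * (T : ℝ) ^ ε * (Z + (T : ℝ) ^ (2 - 2 * σ + 4 * η))

/-- dyadic zero density bound with exponent `A σ` for `σ₀ ≤ σ ≤ 1` -/
def DyaP (σ₀ : ℝ) (A : ℝ → ℝ) : Prop := ∀ ε : ℝ, 0 < ε → ∃ K : ℝ, 0 < K ∧ ∃ T₀ : ℕ, ∀ T : ℕ,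
  T₀ ≤ T → ∀ σ : ℝ, σ₀ ≤ σ → σ ≤ 1 → ∀ (S : Finset ℤ) (ρ : ℤ → ℂ), S ⊆ Icc (T : ℤ) (2 * T) →
    Box σ S ρ → (∀ m ∈ S, riemannZeta (ρ m) = 0) → (S.card : ℝ) ≤ K * (T : ℝ) ^ (A σ + ε)

/-- zero density bound with multiplicity, exponent `A σ` for `σ₀ ≤ σ ≤ 1` -/
def ZdP (σ₀ : ℝ) (A : ℝ → ℝ) : Prop := ∀ ε : ℝ, 0 < ε → ∃ K : ℝ, ∀ σ T : ℝ, σ₀ ≤ σ → σ ≤ 1 →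
  1 ≤ T → ∀ Z : Finset ℂ, (∀ ρ ∈ Z, riemannZeta ρ = 0 ∧ σ ≤ ρ.re ∧ 0 < ρ.im ∧ ρ.im ≤ T) →
    ∑ ρ ∈ Z, ((analyticOrderAt riemannZeta ρ).toNat : ℝ) ≤ K * T ^ (A σ + ε)

def DyaStmt : Prop := DyaP (7 / 9) fun σ => 2 * (1 - σ)

def MulStmt : Prop := ∀ (σ₀ : ℝ) (A : ℝ → ℝ), 1 / 2 ≤ σ₀ → (∀ σ, σ₀ ≤ σ → σ ≤ 1 → 0 ≤ A σ) →
  DyaP σ₀ A → ZdP σ₀ A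

end Pool.Agent.MP_2a1f0e_nt.DH
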