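import Pool.Agent.MP_2a1f0e_nt.DH.Basic

set_option autoImplicit false

open Finset

namespace Pool.Agent.MP_2a1f0e_nt.DH

open Pool.Agent.MP_2a1f0e_nt.GM

lemma exI_Det (y : ℝ) (hy : 1 < y) : ∃ I : ℕ, y ≤ 2 ^ I ∧ (2 : ℝ) ^ I ≤ 2 * y ∧
    ∀ i < I, (2 : ℝ) ^ i ≤ y := by
  classical
  have hex : ∃ I : ℕ, y ≤ 2 ^ I := by
    obtain ⟨n, hn⟩ := pow_unbounded_of_one_lt y (by norm_num : (1 : ℝ) < 2)
    exact ⟨n, hn.le⟩
  have hmin : ∀ i < Nat.find hex, (2 : ℝ) ^ i ≤ y := fun i hi =>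
    (not_le.1 (Nat.find_min hex hi)).le
  refine ⟨Nat.find hex, Nat.find_spec hex, ?_, hmin⟩
  rcases h : Nat.find hex with _ | k
  · have := Nat.find_spec hex
    rw [h] at this
    simp at this
    linarith
  · have := hmin k (by omega)
    rw [pow_succ]
    linarith

lemma exJ_Det (s t : ℝ) (L : ℕ) (hs : 1 ≤ s) (hst : s < t ^ 2) (hL : t ≤ 2 ^ L) (ht : 0 ≤ t) :
    ∃ J : ℕ, t ^ 2 ≤ s * (4 / 3) ^ J ∧ s * (4 / 3) ^ J ≤ 2 * t ^ 2 ∧ J ≤ 6 * L := by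
  classical
  have h6 : t ^ 2 ≤ s * (4 / 3) ^ (6 * L) := by
    have h1 : t ^ 2 ≤ ((2 : ℝ) ^ L) ^ 2 := pow_le_pow_left₀ ht hL 2
    have h2 : ((2 : ℝ) ^ L) ^ 2 ≤ (4 / 3 : ℝ) ^ (6 * L) := by
      rw [← pow_mul, mul_comm L 2, pow_mul, pow_mul]
      exact pow_le_pow_left₀ (by norm_num) (by norm_num) L
    have h3 : (0 : ℝ) ≤ (4 / 3 : ℝ) ^ (6 * L) := by positivity
    nlinarith
  have hex : ∃ J : ℕ, t ^ 2 ≤ s * (4 / 3) ^ J := ⟨_, h6⟩
  refine ⟨Nat.find hex, Nat.find_spec hex, ?_, Nat.find_min' hex h6⟩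
  rcases h : Nat.find hex with _ | k
  · have := Nat.find_spec hex
    rw [h] at this
    simp at this
    linarith
  · have := not_le.1 (Nat.find_min hex (show k < Nat.find hex by omega))
    rw [pow_succ, ← mul_assoc]
    have h0 : 0 ≤ t ^ 2 := by positivity
    linarith

theorem det_stmt (hC : CoreStmt) : DetStmt := by
  intro η ε hη hη' hε
  obtain ⟨C0, hC0, hcore⟩ := hC (ε / 2) (by positivity)
  set de : ℝ := min (ε / 8) (1 / 40) with hde
  have hde0 : 0 < de := lt_min (by positivity) (by norm_num)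
  have hde1 : de ≤ ε / 8 := min_le_left _ _
  have hde2 : de ≤ 1 / 40 := min_le_right _ _
  obtain ⟨cD, hcD, hD⟩ := exists_DivB hde0
  obtain ⟨cL, hcL, hL⟩ := exists_log_le hde0
  have hcD0 : 0 < cD := by linarith
  have hcL0 : 0 < cL := by linarith
  have hC00 : 0 < C0 := by linarith
  set C : ℝ := (12 * C0 * cL) ^ 4 + 18 * cL * cD + 12 * cL ^ 2 with hCdef
  have hCa : (12 * C0 * cL) ^ 4 ≤ C := by
    have : 0 ≤ 18 * cL * cD + 12 * cL ^ 2 := by positivity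
    linarith
  have hCb : 18 * cL * cD ≤ C := by
    have : 0 ≤ (12 * C0 * cL) ^ 4 + 12 * cL ^ 2 := by positivity
    linarith
  have hCc : 12 * cL ^ 2 ≤ C := by
    have : 0 ≤ (12 * C0 * cL) ^ 4 + 18 * cL * cD := by positivity
    linarith
  have hC1 : 1 ≤ C := by
    have : 1 ≤ cL ^ 2 := one_le_pow₀ hcL
    linarith
  clear_value C de
  set W : ℝ := 12 * C0 * cL + 6 * cL * cD + 2 with hW
  have hWa : 0 ≤ 12 * C0 * cL := by positivity
  have hWb : 0 ≤ 6 * cL * cD := by positivity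
  refine ⟨C, hC1, ⌈W ^ 40⌉₊ + 100, fun T hT σ Z hσ hZ S ρ hS hB hz => ?_⟩
  have hT100 : 100 ≤ T := by omega
  have hT1 : 1 ≤ T := by omega
  have ht1 : (1 : ℝ) ≤ T := by exact_mod_cast hT1
  have ht0 : (0 : ℝ) < T := by linarith
  set w : ℝ := (T : ℝ) ^ (1 / 40 : ℝ) with hw
  have hw0 : 0 < w := Real.rpow_pos_of_pos ht0 _
  have hwk : ∀ k : ℕ, w ^ k = (T : ℝ) ^ ((k : ℝ) / 40) := fun k => by
    rw [hw, ← Real.rpow_natCast, ← Real.rpow_mul ht0.le]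
    congr 1
    ring
  have hw40 : w ^ 40 = T := by rw [hwk]; norm_num
  have hw20 : w ^ 20 = √T := by rw [hwk, Real.sqrt_eq_rpow]; norm_num
  have hw4 : w ^ 4 = (T : ℝ) ^ (1 / 10 : ℝ) := by rw [hwk]; norm_num
  have hw2 : w ^ 2 = (T : ℝ) ^ (1 / 20 : ℝ) := by rw [hwk]; norm_num
  have hWw : W ≤ w := by
    have h1 : W ^ 40 ≤ w ^ 40 := by
      rw [hw40]
      refine (Nat.le_ceil _).trans ?_
      exact_mod_cast (by omega : ⌈W ^ 40⌉₊ ≤ T)
    exact (pow_le_pow_iff_left₀ (by linarith) hw0.le (by norm_num)).1 h1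
  have hw2' : 2 ≤ w := by linarith
  have hw1 : 1 ≤ w := by linarith
  have hpw : ∀ k : ℕ, (2 : ℝ) ^ k ≤ w ^ k := fun k => pow_le_pow_left₀ (by norm_num) hw2' k
  clear_value W
  set a : ℝ := (T : ℝ) ^ η with ha
  have ha1 : 1 ≤ a := Real.one_le_rpow ht1 hη.le
  have haw : a ≤ w ^ 2 := by rw [hw2]; exact Real.rpow_le_rpow_of_exponent_le ht1 hη'
  set d : ℝ := (T : ℝ) ^ de with hd
  have hd1 : 1 ≤ d := Real.one_le_rpow ht1 hde0.le
  have hdw : d ≤ w := Real.rpow_le_rpow_of_exponent_le ht1 hde2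
  have hdk : ∀ k : ℕ, d ^ k = (T : ℝ) ^ (de * k) := fun k => by
    rw [hd, ← Real.rpow_natCast, ← Real.rpow_mul ht0.le]
  have hd2 : d ^ 2 ≤ (T : ℝ) ^ ε := by
    rw [hdk]
    exact Real.rpow_le_rpow_of_exponent_le ht1 (by push_cast; linarith)
  have hd4 : d ^ 4 ≤ (T : ℝ) ^ (ε / 2) := by
    rw [hdk]
    exact Real.rpow_le_rpow_of_exponent_le ht1 (by push_cast; linarith)
  clear_value w
  set X : ℕ := ⌈a⌉₊ with hX
  have hXa : a ≤ X := Nat.le_ceil _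
  have hXb : (X : ℝ) ≤ 2 * a := by
    have := Nat.ceil_lt_add_one (by linarith : 0 ≤ a)
    linarith
  have hX1 : 1 ≤ X := by
    have : (1 : ℝ) ≤ X := by linarith
    exact_mod_cast this
  clear_value X
  have hX0 : (0 : ℝ) ≤ X := Nat.cast_nonneg _
  have hXw : (X : ℝ) ≤ 2 * w ^ 2 := by linarith
  have h18 : (12 : ℝ) ≤ w ^ 18 := le_trans (by norm_num) (hpw 18)
  have hs1 : (2 : ℝ) ≤ √T := by
    rw [← hw20]
    exact le_trans (by norm_num) (hpw 20)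
  have hXs : (X : ℝ) ≤ √T := by
    rw [← hw20]
    calc (X : ℝ) ≤ 2 * w ^ 2 := hXw
      _ ≤ w ^ 18 * w ^ 2 := by gcongr; linarith only [h18]
      _ = w ^ 20 := by ring
  obtain ⟨I, hI1, hI2, hI3⟩ := exI_Det (3 * √T) (by linarith)
  set L : ℕ := Nat.log 2 T + 1 with hLdef
  have hLd : (L : ℝ) ≤ cL * d := by
    have := hL T hT1
    rw [hLdef]
    push_cast
    exact this
  have hL1 : (1 : ℝ) ≤ L := by
    have : 1 ≤ L := by omega
    exact_mod_cast this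
  have hTL : (T : ℝ) ≤ 2 ^ L := by
    have := Nat.lt_pow_succ_log_self (by norm_num : 1 < 2) T
    exact_mod_cast this.le
  clear_value L
  have hIX : (2 : ℝ) ^ I * X ≤ T := by
    calc (2 : ℝ) ^ I * X ≤ (2 * (3 * √T)) * (2 * w ^ 2) := by gcongr
      _ = 12 * w ^ 22 := by rw [← hw20]; ring
      _ ≤ w ^ 18 * w ^ 22 := by gcongr
      _ = T := by rw [← hw40]; ring
  have hX1' : (1 : ℝ) ≤ X := by linarith
  have hIL : (I : ℝ) ≤ L := by
    have h1 : (2 : ℝ) ^ I ≤ 2 ^ L := by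
      exact ((le_mul_of_one_le_right (by positivity) hX1').trans hIX).trans hTL
    have := (pow_le_pow_iff_right₀ (by norm_num : (1 : ℝ) < 2)).1 h1
    exact_mod_cast this
  have hI0 : (0 : ℝ) ≤ I := Nat.cast_nonneg _
  have hst : √(T : ℝ) < (T : ℝ) ^ 2 := by
    rw [← hw20, ← hw40, ← pow_mul]
    exact pow_lt_pow_right₀ (by linarith only [hw2']) (by norm_num)
  obtain ⟨J, hJ1, hJ2, hJ3⟩ := exJ_Det (√T) T L (by linarith) hst hTL ht0.le
  have hJ4 : (J : ℝ) ≤ 6 * (cL * d) := by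
    have : (J : ℝ) ≤ 6 * L := by exact_mod_cast hJ3
    linarith
  have hJ0 : (0 : ℝ) ≤ J := Nat.cast_nonneg _
  have hIX1 : 1 ≤ 2 ^ I * X := Nat.mul_pos (by positivity) hX1
  set Δ : ℝ := cD * ((2 ^ I * X : ℕ) : ℝ) ^ de with hΔ
  have hDiv : DivB (2 ^ I * X) Δ := hD _ hIX1
  have hΔ1 : 1 ≤ Δ := hDiv.1
  have hΔd : Δ ≤ cD * d := by
    refine mul_le_mul_of_nonneg_left ?_ hcD0.le
    refine Real.rpow_le_rpow (Nat.cast_nonneg _) ?_ hde0.le
    push_cast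
    exact hIX
  clear_value Δ d
  have hXJ : C0 * X * J ≤ 12 * C0 * cL * a * d := by
    calc C0 * X * J ≤ C0 * (2 * a) * (6 * (cL * d)) := by gcongr
      _ = 12 * C0 * cL * a * d := by ring
  have hsmall : C0 * X * J ≤ (T : ℝ) ^ (1 / 10 : ℝ) := by
    rw [← hw4]
    calc C0 * X * J ≤ 12 * C0 * cL * a * d := hXJ
      _ ≤ w * w ^ 2 * w := by gcongr; linarith
      _ = w ^ 4 := by ring
  have hIΔ : I * Δ ≤ cL * cD * d ^ 2 := by
    calc I * Δ ≤ (cL * d) * (cD * d) := by gcongr; linarith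
      _ = cL * cD * d ^ 2 := by ring
  have hY : 6 * I * Δ * (2 ^ I * X) ≤ (2 : ℝ) ^ (2 * L) := by
    calc 6 * I * Δ * (2 ^ I * X) = 6 * (I * Δ) * (2 ^ I * X) := by ring
      _ ≤ 6 * (cL * cD * d ^ 2) * T := by gcongr
      _ = (6 * cL * cD) * d ^ 2 * T := by ring
      _ ≤ w * w ^ 2 * T := by gcongr; linarith
      _ = w ^ 3 * T := by ring
      _ ≤ w ^ 40 * T := by gcongr; norm_num
      _ = (T : ℝ) ^ 2 := by rw [hw40]; ring
      _ ≤ (2 ^ L) ^ 2 := by gcongr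
      _ = 2 ^ (2 * L) := by rw [← pow_mul, mul_comm]
  have hsa : (T : ℝ) ^ (1 / 2 + η) = √T * a := by
    rw [Real.rpow_add ht0, Real.sqrt_eq_rpow]
  have hTe : 0 < (T : ℝ) ^ ε := Real.rpow_pos_of_pos ht0 _
  have hZ0 : 0 ≤ Z := by
    refine le_trans (Nat.cast_nonneg _) (hZ X hXa ?_ (fun _ => 0) (fun _ => by simp))
    rw [hsa]
    have h1 : a ≤ √T * a := le_mul_of_one_le_left (by linarith only [ha1]) (by linarith only [hs1])
    linarith only [h1, hXb, ha1]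
  have key := hcore T X I J (2 * L) σ Δ Z hT100 hX1 hXs hI1 hJ1 hJ2 hDiv hσ hsmall hY
    (fun i hi b hb => by
      refine le_trans ?_ (hZ (2 ^ i * X) ?_ ?_ b hb)
      · refine Nat.cast_le.2 (cnt_mono _ _ le_rfl ?_)
        have hI1' : (1 : ℝ) ≤ I := by
          have : 1 ≤ I := by omega
          exact_mod_cast this
        refine div_le_div_of_nonneg_left (by positivity) (by positivity) ?_
        calc 18 * I * Δ = 18 * (I * Δ) := by ring
          _ ≤ 18 * (cL * cD * d ^ 2) := by gcongr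
          _ = (18 * cL * cD) * d ^ 2 := by ring
          _ ≤ C * (T : ℝ) ^ ε := by gcongr
      · push_cast
        exact hXa.trans (le_mul_of_one_le_left hX0 (one_le_pow₀ (by norm_num)))
      · push_cast
        rw [hsa]
        calc (2 : ℝ) ^ i * X ≤ (3 * √T) * (2 * a) := by
              gcongr
              exact hI3 i hi
          _ = 6 * (√T * a) := by ring) S ρ hS hB hz
  refine key.trans ?_
  rw [mul_add (C * (T : ℝ) ^ ε)]
  refine add_le_add ?_ ?_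
  · refine mul_le_mul_of_nonneg_right ?_ hZ0
    push_cast
    calc (I : ℝ) * (2 * (2 * L) + 8) ≤ L * (12 * L) := by gcongr; linarith
      _ = 12 * (L : ℝ) ^ 2 := by ring
      _ ≤ 12 * (cL * d) ^ 2 := by gcongr
      _ = (12 * cL ^ 2) * d ^ 2 := by ring
      _ ≤ C * (T : ℝ) ^ ε := by gcongr
  · have ha4 : a ^ 4 = (T : ℝ) ^ (4 * η) := by
      rw [ha, ← Real.rpow_natCast, ← Real.rpow_mul ht0.le]
      congr 1
      push_cast
      ring
    calc (C0 * X * J) ^ 4 * (T : ℝ) ^ (2 - 2 * σ + ε / 2)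
        ≤ (12 * C0 * cL * a * d) ^ 4 * (T : ℝ) ^ (2 - 2 * σ + ε / 2) := by gcongr
      _ = (12 * C0 * cL) ^ 4 * (a ^ 4 * d ^ 4 * (T : ℝ) ^ (2 - 2 * σ + ε / 2)) := by ring
      _ ≤ C * (a ^ 4 * (T : ℝ) ^ (ε / 2) * (T : ℝ) ^ (2 - 2 * σ + ε / 2)) := by gcongr
      _ = C * (T : ℝ) ^ ε * (T : ℝ) ^ (2 - 2 * σ + 4 * η) := by
        rw [ha4, mul_assoc C, ← Real.rpow_add ht0, ← Real.rpow_add ht0, ← Real.rpow_add ht0]
        congr 2
        ring

end Pool.Agent.MP_2a1f0e_nt.DH
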