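import Pool.Agent.MP_2a1f0e_nt.DH.Basic

set_option autoImplicit false

open Finset

namespace Pool.Agent.MP_2a1f0e_nt.DH

open Pool.Agent.MP_2a1f0e_nt.GM

lemma len_Dya {η : ℝ} (hη : 0 < η) (hη1 : η ≤ 1 / 20) {T N : ℕ} (hT : 2 ≤ T)
    (h1 : (T : ℝ) ^ η ≤ N) (h2 : (N : ℝ) ≤ 6 * (T : ℝ) ^ (1 / 2 + η)) :
    1 ≤ N ∧ ((max (2 * T) (N ^ 2) : ℕ) : ℝ) ≤ (N : ℝ) ^ (2 / η) ∧
      ((max (2 * T) (N ^ 2) : ℕ) : ℝ) ≤ 36 * (T : ℝ) ^ (1 + 2 * η) := by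
  have hx : (2 : ℝ) ≤ T := by exact_mod_cast hT
  have hx1 : (1 : ℝ) ≤ T := by linarith
  have hN : (1 : ℝ) ≤ N := (Real.one_le_rpow hx1 hη.le).trans h1
  have hA : (2 : ℝ) ≤ 2 / η := by
    rw [le_div_iff₀ hη]; linarith
  refine ⟨by exact_mod_cast hN, ?_, ?_⟩
  · rw [Nat.cast_max]
    refine max_le ?_ ?_
    · have e : ((T : ℝ) ^ η) ^ (2 / η) = (T : ℝ) ^ 2 := by
        rw [← Real.rpow_mul (by linarith), mul_div_cancel₀ _ hη.ne', Real.rpow_two]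
      have h3 : ((T : ℝ) ^ η) ^ (2 / η) ≤ (N : ℝ) ^ (2 / η) :=
        Real.rpow_le_rpow (by positivity) h1 (by linarith)
      push_cast
      nlinarith
    · push_cast
      rw [← Real.rpow_two]
      exact Real.rpow_le_rpow_of_exponent_le hN hA
  · rw [Nat.cast_max]
    refine max_le ?_ ?_
    · have h3 : (T : ℝ) ^ (1 : ℝ) ≤ (T : ℝ) ^ (1 + 2 * η) :=
        Real.rpow_le_rpow_of_exponent_le hx1 (by linarith)
      rw [Real.rpow_one] at h3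
      push_cast
      linarith
    · have e : ((T : ℝ) ^ (1 / 2 + η)) ^ 2 = (T : ℝ) ^ (1 + 2 * η) := by
        rw [← Real.rpow_two, ← Real.rpow_mul (by linarith)]
        congr 1
        ring
      push_cast
      calc (N : ℝ) ^ 2 ≤ (6 * (T : ℝ) ^ (1 / 2 + η)) ^ 2 := by gcongr
        _ = 36 * (T : ℝ) ^ (1 + 2 * η) := by rw [mul_pow, e]; norm_num

lemma pw_Dya {η p x y : ℝ} (hη : 0 < η) (hx : 1 ≤ x) (hy : 0 ≤ y) (hp : 0 ≤ p)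
    (hp1 : p ≤ 3 / 2) (h : y ≤ 36 * x ^ (1 + 2 * η)) : y ^ p ≤ 36 ^ 2 * x ^ (p + 3 * η) := by
  have hx0 : 0 ≤ x := by linarith
  calc y ^ p ≤ (36 * x ^ (1 + 2 * η)) ^ p := Real.rpow_le_rpow hy h hp
    _ = 36 ^ p * x ^ ((1 + 2 * η) * p) := by
        rw [Real.mul_rpow (by norm_num) (by positivity), ← Real.rpow_mul hx0]
    _ ≤ 36 ^ 2 * x ^ (p + 3 * η) := by
        have h1 : (36 : ℝ) ^ p ≤ 36 ^ (2 : ℝ) :=
          Real.rpow_le_rpow_of_exponent_le (by norm_num) (by linarith)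
        rw [Real.rpow_two] at h1
        have h2 : x ^ ((1 + 2 * η) * p) ≤ x ^ (p + 3 * η) :=
          Real.rpow_le_rpow_of_exponent_le hx (by nlinarith)
        exact mul_le_mul h1 h2 (by positivity) (by positivity)

theorem dya_stmt (hD : DetStmt) (hP : PowStmt) : DyaStmt := by
  intro ε hε
  obtain ⟨η, hη, hη1, hη2⟩ : ∃ η : ℝ, 0 < η ∧ η ≤ 1 / 20 ∧ η ≤ ε / 10 :=
    ⟨min (1 / 20) (ε / 10), by positivity, min_le_left _ _, min_le_right _ _⟩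
  obtain ⟨e2, he2, he21, he22⟩ : ∃ e : ℝ, 0 < e ∧ e ≤ 1 ∧ e ≤ ε / 10 :=
    ⟨min 1 (ε / 10), by positivity, min_le_left _ _, min_le_right _ _⟩
  obtain ⟨a, ha⟩ := hP (2 / η)
  obtain ⟨e1, he1, he1a⟩ : ∃ e : ℝ, 0 < e ∧ e + e * a = ε / 10 :=
    ⟨ε / (10 * (a + 1)), by positivity, by field_simp; ring⟩
  obtain ⟨C, hC, T₀, hT₀⟩ := hD η e1 hη hη1 he1
  obtain ⟨K, hK, hK'⟩ := ha e2 he2
  have hC0 : 0 < C := by linarith
  refine ⟨C * (K * C ^ a * 36 ^ 2 + 1), by positivity, max T₀ 2, fun T hT σ hσ hσ1 S ρ hS hB hz => ?_⟩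
  have hT2 : 2 ≤ T := le_of_max_le_right hT
  have hx : (2 : ℝ) ≤ T := by exact_mod_cast hT2
  have hx1 : (1 : ℝ) ≤ T := by linarith
  have hx0 : (0 : ℝ) < T := by linarith
  have hea : 0 ≤ e1 * a := by positivity
  have key := hT₀ T (le_of_max_le_left hT) σ
    (K * C ^ a * 36 ^ 2 * (T : ℝ) ^ (e1 * a + (2 - 2 * σ + e2 + 3 * η))) (by linarith)
    (fun N h1 h2 b hb => by
      obtain ⟨hN, hl1, hl2⟩ := len_Dya hη hη1 hT2 h1 h2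
      have hN0 : (0 : ℝ) < N := by exact_mod_cast hN
      have hlam : 1 ≤ C * (T : ℝ) ^ e1 :=
        one_le_mul_of_one_le_of_one_le hC (Real.one_le_rpow hx1 he1.le)
      have h3 := hK' N (max (2 * T) (N ^ 2)) hN (le_max_right _ _) hl1 σ (C * (T : ℝ) ^ e1)
        ((N : ℝ) ^ σ / (C * (T : ℝ) ^ e1)) hσ hσ1 hlam (by positivity)
        (by rw [mul_div_cancel₀ _ (by positivity)]) b hb
      have h4 : (cnt N b (2 * T) ((N : ℝ) ^ σ / (C * (T : ℝ) ^ e1)) : ℝ) ≤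
          cnt N b (max (2 * T) (N ^ 2)) ((N : ℝ) ^ σ / (C * (T : ℝ) ^ e1)) := by
        exact_mod_cast cnt_mono N b (le_max_left _ _) le_rfl
      have h5 := pw_Dya (p := 2 - 2 * σ + e2) hη hx1 (Nat.cast_nonneg _) (by linarith)
        (by linarith) hl2
      refine h4.trans (h3.trans ?_)
      rw [mul_pow, ← Real.rpow_natCast ((T : ℝ) ^ e1), ← Real.rpow_mul hx0.le,
        Real.rpow_add hx0 (e1 * a)]
      calc K * (C ^ a * (T : ℝ) ^ (e1 * a)) *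
            ((max (2 * T) (N ^ 2) : ℕ) : ℝ) ^ (2 - 2 * σ + e2)
          ≤ K * (C ^ a * (T : ℝ) ^ (e1 * a)) *
            (36 ^ 2 * (T : ℝ) ^ (2 - 2 * σ + e2 + 3 * η)) := by gcongr
        _ = _ := by ring)
    S ρ hS hB hz
  refine key.trans ?_
  have f1 : (T : ℝ) ^ e1 * (T : ℝ) ^ (e1 * a + (2 - 2 * σ + e2 + 3 * η)) ≤
      (T : ℝ) ^ (2 * (1 - σ) + ε) := by
    rw [← Real.rpow_add hx0]
    exact Real.rpow_le_rpow_of_exponent_le hx1 (by linarith)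
  have f2 : (T : ℝ) ^ e1 * (T : ℝ) ^ (2 - 2 * σ + 4 * η) ≤ (T : ℝ) ^ (2 * (1 - σ) + ε) := by
    rw [← Real.rpow_add hx0]
    exact Real.rpow_le_rpow_of_exponent_le hx1 (by linarith)
  have hc : 0 ≤ K * C ^ a * 36 ^ 2 := by positivity
  calc C * (T : ℝ) ^ e1 * (K * C ^ a * 36 ^ 2 * (T : ℝ) ^ (e1 * a + (2 - 2 * σ + e2 + 3 * η)) +
        (T : ℝ) ^ (2 - 2 * σ + 4 * η))
      = C * (K * C ^ a * 36 ^ 2 *
          ((T : ℝ) ^ e1 * (T : ℝ) ^ (e1 * a + (2 - 2 * σ + e2 + 3 * η))) +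
          (T : ℝ) ^ e1 * (T : ℝ) ^ (2 - 2 * σ + 4 * η)) := by ring
    _ ≤ C * (K * C ^ a * 36 ^ 2 * (T : ℝ) ^ (2 * (1 - σ) + ε) +
          (T : ℝ) ^ (2 * (1 - σ) + ε)) := by gcongr
    _ = _ := by ring

end Pool.Agent.MP_2a1f0e_nt.DH
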