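import Pool.Agent.MP_2a1f0e_nt.DH.Basic

set_option autoImplicit false

open Finset

namespace Pool.Agent.MP_2a1f0e_nt.DH

open Pool.Agent.MP_2a1f0e_nt.GM MeasureTheory

lemma scale_Fub (r : ℂ) (τ : ℝ) {k : ℝ} (hk : 0 < k) :
    GI (k * r) τ = GI r τ * ((hf k : ℂ) * pw k (-τ)) := by
  have h := integral_comp_mul_left_Ioi
    (fun t : ℝ => (hf t : ℂ) * pw t τ * Complex.exp (-(r * t))) 0 hk
  have e : ∫ t in Set.Ioi (0 : ℝ), (hf (k * t) : ℂ) * pw (k * t) τ *
      Complex.exp (-(r * (k * t : ℝ))) = (hf k : ℂ) * pw k τ * GI (k * r) τ := by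
    rw [GI, ← integral_const_mul]
    refine setIntegral_congr_fun measurableSet_Ioi fun t ht => ?_
    rw [hf_mul hk.le, pw_mul hk.ne' (ne_of_gt ht), show r * (k * t : ℝ) = k * r * t by
      push_cast; ring]
    push_cast
    ring
  rw [e, mul_zero, Complex.real_smul, ← one_div, ← hf_sq hk.le] at h
  have h0 : (hf k : ℂ) ≠ 0 := by exact_mod_cast (hf_pos hk).ne'
  refine mul_left_cancel₀ h0 ?_
  have h1 := pw_mul_neg k τ
  unfold GI at h ⊢
  push_cast at h
  linear_combination pw k (-τ) * h - ((hf k : ℂ) * ∫ t in Set.Ioi (0 : ℝ), (hf t : ℂ) * pw t τ *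
    Complex.exp (-(k * r * t))) * h1

lemma int_Fub {φ : ℝ → ℂ} {C : ℝ} (hc : Continuous φ) (hb : ∀ ξ, ‖φ ξ‖ ≤ C * kp ξ) (u : ℝ)
    {r : ℂ} (hr : 0 < r.re) :
    Integrable (Function.uncurry fun (x ξ : ℝ) =>
      φ ξ * ((hf x : ℂ) * pw x (u + ξ) * Complex.exp (-(r * x))))
      ((volume.restrict (Set.Ioi 0)).prod volume) := by
  have h1 : IntegrableOn (fun x : ℝ => hf x * Real.exp (-r.re * x)) (Set.Ioi 0) := by
    refine (integrableOn_rpow_mul_exp_neg_mul_rpow (s := -(1 / 2)) (p := 1) (by norm_num) one_pos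
      hr).congr_fun (fun x hx => ?_) measurableSet_Ioi
    simp only
    rw [Real.rpow_one, Real.rpow_neg (le_of_lt hx), hf, Real.sqrt_eq_rpow, one_div (x ^ _)]
  refine (h1.mul_prod (integrable_kp.const_mul C)).mono' (Measurable.aestronglyMeasurable ?_)
    (Filter.Eventually.of_forall fun p => ?_)
  · have := hc.measurable
    unfold Function.uncurry pw hf
    fun_prop
  · simp only [Function.uncurry, norm_mul, norm_pw, Complex.norm_real, Complex.norm_exp,
      Real.norm_of_nonneg (hf_nonneg _), mul_one, Complex.neg_re, Complex.mul_re,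
      Complex.ofReal_re, Complex.ofReal_im, mul_zero, sub_zero, neg_mul]
    rw [mul_comm]
    exact mul_le_mul_of_nonneg_left (hb _) (mul_nonneg (hf_nonneg _) (Real.exp_pos _).le)

theorem fub_stmt (hM : MelStmt) : FubStmt := by
  obtain ⟨C, hC, h⟩ := hM Wt (3 / 4) (9 / 4) (by norm_num) contDiff_Wt fun x hx => Wt_eq_zero hx
  obtain ⟨φ, hc, hb, hφ⟩ := h ((1 / 2 : ℝ) : ℂ) (by rw [Complex.norm_real]; norm_num)
  refine ⟨C, hC, φ, hb, fun u r hr => ⟨?_, fun k hk => ?_⟩⟩
  · simpa only [Function.uncurry, integral_const_mul, GI] using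
      (int_Fub hc hb u hr).integral_prod_right
  have hr' : 0 < ((k : ℂ) * r).re := by
    rw [Complex.re_ofReal_mul]
    exact mul_pos hk hr
  have h1 := integral_integral_swap (int_Fub hc hb u hr')
  simp only [mul_assoc (φ _), ← scale_Fub r _ hk]
  rw [← setIntegral_eq_integral_of_forall_compl_eq_zero (s := Set.Ioi 0) fun x hx => by
    rw [Wt_eq_zero (Or.inl ((not_lt.1 hx).trans (by norm_num)))]
    simp]
  refine Eq.trans (setIntegral_congr_fun measurableSet_Ioi fun x hx => ?_)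
    (h1.trans (by simp only [integral_const_mul, GI]))
  have h2 := hφ x hx
  have h3 : (hf x : ℂ) * (x : ℂ) ^ ((1 / 2 : ℝ) : ℂ) = 1 := by
    rw [← Complex.ofReal_cpow (le_of_lt hx), ← Real.sqrt_eq_rpow, ← Complex.ofReal_mul, hf,
      one_div_mul_cancel (Real.sqrt_pos.2 hx).ne', Complex.ofReal_one]
  have h4 : ∀ ξ, φ ξ * ((hf x : ℂ) * pw x (u + ξ) * Complex.exp (-(k * r * x))) =
      (hf x : ℂ) * pw x u * Complex.exp (-(k * r * x)) * (φ ξ * pw x ξ) := fun ξ => by
    rw [pw_add]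
    ring
  simp only [h4, integral_const_mul, ← h2]
  linear_combination -(Wt x : ℂ) * pw x u * Complex.exp (-(k * r * x)) * h3

end Pool.Agent.MP_2a1f0e_nt.DH
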