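import Pool.Agent.MP_2a1f0e_nt.DH.Basic
set_option autoImplicit false
open Finset
namespace Pool.Agent.MP_2a1f0e_nt.DH
open Pool.Agent.MP_2a1f0e_nt.GM

/-- the exponent on the critical line -/
noncomputable def sv_Gam (τ : ℝ) : ℂ := 1 / 2 + (τ : ℂ) * Complex.I

lemma sv_re_Gam (τ : ℝ) : (sv_Gam τ).re = 1 / 2 := by simp [sv_Gam]

lemma sv_im_Gam (τ : ℝ) : (sv_Gam τ).im = τ := by simp [sv_Gam]

lemma hf_rpow_Gam {t : ℝ} (ht : 0 < t) : hf t = t ^ (-(1 / 2) : ℝ) := by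
  unfold hf
  rw [Real.sqrt_eq_rpow, Real.rpow_neg ht.le, one_div]

lemma cpow_eq_Gam {t : ℝ} (ht : 0 < t) (τ : ℝ) :
    (t : ℂ) ^ (sv_Gam τ - 1) = (hf t : ℂ) * pw t τ := by
  have h0 : (t : ℂ) ≠ 0 := Complex.ofReal_ne_zero.mpr ht.ne'
  rw [hf_rpow_Gam ht, Complex.ofReal_cpow ht.le, Complex.cpow_def_of_ne_zero h0,
    Complex.cpow_def_of_ne_zero h0, pw, ← Complex.exp_add, ← Complex.ofReal_log ht.le]
  congr 1
  unfold sv_Gam
  push_cast
  ring

lemma GI_real_Gam {r : ℝ} (hr : 0 < r) (τ : ℝ) :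
    GI (r : ℂ) τ = (1 / (r : ℂ)) ^ (sv_Gam τ) * Complex.Gamma (sv_Gam τ) := by
  rw [← Complex.integral_cpow_mul_exp_neg_mul_Ioi (by rw [sv_re_Gam]; norm_num) hr]
  unfold GI
  refine MeasureTheory.setIntegral_congr_fun measurableSet_Ioi fun t ht => ?_
  rw [cpow_eq_Gam ht]

lemma meas_Gam (τ : ℝ) (r : ℂ) :
    Measurable fun t : ℝ => (hf t : ℂ) * pw t τ * Complex.exp (-(r * t)) := by
  have h1 : Measurable fun t : ℝ => (hf t : ℂ) := by
    unfold hf
    fun_prop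
  exact (h1.mul (measurable_pw τ)).mul (by fun_prop)

lemma norm_term_Gam (τ : ℝ) (r : ℂ) {t : ℝ} (ht : 0 < t) :
    ‖(hf t : ℂ) * pw t τ * Complex.exp (-(r * t))‖ =
      t ^ (-(1 / 2) : ℝ) * Real.exp (-r.re * t) := by
  rw [norm_mul, norm_mul, norm_pw, mul_one, Complex.norm_real, Real.norm_of_nonneg (hf_nonneg _),
    Complex.norm_exp, hf_rpow_Gam ht]
  simp

lemma diff_GI_Gam (τ : ℝ) {r₀ : ℂ} (hr : 0 < r₀.re) :
    DifferentiableAt ℂ (fun r => GI r τ) r₀ := by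
  have hb : 0 < r₀.re / 2 := by positivity
  have hint : ∀ (a b : ℝ), -1 < a → 0 < b →
      MeasureTheory.IntegrableOn (fun x : ℝ => x ^ a * Real.exp (-b * x)) (Set.Ioi 0) := by
    intro a b ha hb
    have := integrableOn_rpow_mul_exp_neg_mul_rpow (p := 1) ha one_pos hb
    simpa using this
  have key := hasDerivAt_integral_of_dominated_loc_of_deriv_le
    (μ := MeasureTheory.volume.restrict (Set.Ioi (0 : ℝ))) (𝕜 := ℂ)
    (F := fun (r : ℂ) (t : ℝ) => (hf t : ℂ) * pw t τ * Complex.exp (-(r * t)))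
    (F' := fun (r : ℂ) (t : ℝ) => (hf t : ℂ) * pw t τ * Complex.exp (-(r * t)) * (-(t : ℂ)))
    (x₀ := r₀) (s := Metric.ball r₀ (r₀.re / 2))
    (bound := fun t : ℝ => t ^ ((1 / 2) : ℝ) * Real.exp (-(r₀.re / 2) * t))
    (Metric.ball_mem_nhds _ hb)
    (Filter.Eventually.of_forall fun r => (meas_Gam τ r).aestronglyMeasurable)
    ?_ ?_ ?_ (hint _ _ (by norm_num) hb) ?_
  · exact key.2.differentiableAt
  · refine MeasureTheory.Integrable.mono' (hint (-(1 / 2)) r₀.re (by norm_num) hr)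
      (meas_Gam τ r₀).aestronglyMeasurable ?_
    refine (MeasureTheory.ae_restrict_iff' measurableSet_Ioi).2
      (Filter.Eventually.of_forall fun t ht => ?_)
    rw [norm_term_Gam τ r₀ ht]
  · exact ((meas_Gam τ r₀).mul (by fun_prop)).aestronglyMeasurable
  · refine (MeasureTheory.ae_restrict_iff' measurableSet_Ioi).2
      (Filter.Eventually.of_forall fun t ht r hrb => ?_)
    have ht0 : 0 < t := ht
    rw [norm_mul, norm_term_Gam τ r ht0, norm_neg, Complex.norm_real, Real.norm_of_nonneg ht0.le]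
    have h1 : r₀.re / 2 ≤ r.re := by
      have h2 := Complex.abs_re_le_norm (r - r₀)
      rw [Metric.mem_ball, dist_eq_norm] at hrb
      rw [Complex.sub_re] at h2
      have := (abs_le.1 (h2.trans hrb.le)).1
      linarith
    have h3 : t ^ ((1 / 2) : ℝ) = t ^ (-(1 / 2) : ℝ) * t := by
      rw [← Real.rpow_add_one ht0.ne']
      norm_num
    have h4 : Real.exp (-r.re * t) ≤ Real.exp (-(r₀.re / 2) * t) :=
      Real.exp_le_exp.2 (by nlinarith)
    have h5 : 0 ≤ t ^ (-(1 / 2) : ℝ) := Real.rpow_nonneg ht0.le _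
    rw [h3]
    calc t ^ (-(1 / 2) : ℝ) * Real.exp (-r.re * t) * t
        = (t ^ (-(1 / 2) : ℝ) * t) * Real.exp (-r.re * t) := by ring
      _ ≤ _ := mul_le_mul_of_nonneg_left h4 (mul_nonneg h5 ht0.le)
  · refine Filter.Eventually.of_forall fun t r _ => ?_
    have h1 : HasDerivAt (fun r : ℂ => -(r * (t : ℂ))) (-(t : ℂ)) r := by
      have h := ((hasDerivAt_id r).mul_const (t : ℂ)).neg
      rw [one_mul] at h
      exact h
    have h2 := (h1.cexp).const_mul ((hf t : ℂ) * pw t τ)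
    rw [mul_assoc ((hf t : ℂ) * pw t τ)]
    exact h2

lemma re_inv_pos_Gam {r : ℂ} (hr : 0 < r.re) : 0 < (1 / r).re := by
  have h0 : r ≠ 0 := fun h => by simp [h] at hr
  rw [one_div, Complex.inv_re]
  exact div_pos hr (Complex.normSq_pos.2 h0)

lemma GI_eq_Gam (τ : ℝ) {r : ℂ} (hr : 0 < r.re) :
    GI r τ = (1 / r) ^ (sv_Gam τ) * Complex.Gamma (sv_Gam τ) := by
  have hU : IsOpen {z : ℂ | 0 < z.re} := isOpen_lt continuous_const Complex.continuous_re
  have hc : IsPreconnected {z : ℂ | 0 < z.re} := (convex_halfSpace_re_gt 0).isPreconnected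
  have h1 : AnalyticOnNhd ℂ (fun r => GI r τ) {z : ℂ | 0 < z.re} := by
    refine DifferentiableOn.analyticOnNhd (fun z hz => ?_) hU
    exact (diff_GI_Gam τ hz).differentiableWithinAt
  have h2 : AnalyticOnNhd ℂ (fun r : ℂ => (1 / r) ^ (sv_Gam τ) * Complex.Gamma (sv_Gam τ))
      {z : ℂ | 0 < z.re} := by
    refine DifferentiableOn.analyticOnNhd (fun z hz => ?_) hU
    have hz' : 0 < z.re := hz
    have h0 : z ≠ 0 := fun h => by simp [h] at hz'
    have h3 : DifferentiableAt ℂ (fun r : ℂ => 1 / r) z :=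
      (differentiableAt_const _).div differentiableAt_id h0
    exact ((h3.cpow (differentiableAt_const _)
      (Or.inl (re_inv_pos_Gam hz'))).mul_const _).differentiableWithinAt
  have h1U : (1 : ℂ) ∈ {z : ℂ | 0 < z.re} := by simp
  refine h1.eqOn_of_preconnected_of_frequently_eq h2 hc h1U ?_ hr
  have ht : Filter.Tendsto (fun x : ℝ => (x : ℂ)) (nhdsWithin (1 : ℝ) (Set.Ioi 1))
      (nhdsWithin (1 : ℂ) {1}ᶜ) := by
    refine tendsto_nhdsWithin_iff.2 ⟨?_, ?_⟩
    · have := Complex.continuous_ofReal.tendsto 1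
      simpa using this.mono_left nhdsWithin_le_nhds
    · filter_upwards [self_mem_nhdsWithin] with x hx
      have hx1 : (1 : ℝ) < x := hx
      intro h
      have h' : (x : ℂ) = 1 := h
      have : x = 1 := by exact_mod_cast h'
      linarith
  refine ht.frequently (Filter.Eventually.frequently ?_)
  filter_upwards [self_mem_nhdsWithin] with x hx
  have hx1 : (1 : ℝ) < x := hx
  exact GI_real_Gam (by linarith) τ

lemma norm_Gamma_sq_Gam (τ : ℝ) :
    ‖Complex.Gamma (sv_Gam τ)‖ ^ 2 = Real.pi / Real.cosh (Real.pi * τ) := by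
  have h1 := Complex.Gamma_mul_Gamma_one_sub (sv_Gam τ)
  have h2 : 1 - sv_Gam τ = (starRingEnd ℂ) (sv_Gam τ) := by
    apply Complex.ext <;> simp [sv_Gam]
    norm_num
  have h3 : Complex.sin (Real.pi * sv_Gam τ) = (Real.cosh (Real.pi * τ) : ℂ) := by
    have e : (Real.pi : ℂ) * sv_Gam τ = ((Real.pi * τ : ℝ) : ℂ) * Complex.I + Real.pi / 2 := by
      unfold sv_Gam
      push_cast
      ring
    rw [e, Complex.sin_add_pi_div_two, Complex.cos_mul_I, Complex.ofReal_cosh]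
  rw [h2, Complex.Gamma_conj, Complex.mul_conj, h3, Complex.normSq_eq_norm_sq] at h1
  exact_mod_cast h1

lemma cosh_ge_Gam (x : ℝ) : Real.exp |x| / 2 ≤ Real.cosh x := by
  rw [Real.cosh_eq]
  have h1 := Real.exp_pos x
  have h2 := Real.exp_pos (-x)
  rcases abs_cases x with h | h <;> rw [h.1] <;> linarith

theorem gam_stmt : GamStmt := by
  intro r τ hr hn
  have hpi := Real.pi_pos
  have h0 : r ≠ 0 := fun h => by simp [h] at hr
  have h1 : (1 / r) ≠ 0 := one_div_ne_zero h0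
  have hnr : 0 < ‖r‖ := norm_pos_iff.2 h0
  have harg : |Complex.arg (1 / r)| ≤ Real.pi / 2 :=
    Complex.abs_arg_le_pi_div_two_iff.2 (re_inv_pos_Gam hr).le
  have h2 : ‖(1 / r) ^ (sv_Gam τ)‖ ^ 2 ≤ 1 / ‖r‖ * Real.exp |Real.pi * τ| := by
    rw [Complex.norm_cpow_of_ne_zero h1, sv_re_Gam, sv_im_Gam, div_pow, ← Real.sqrt_eq_rpow,
      Real.sq_sqrt (norm_nonneg _), norm_div, norm_one, div_eq_mul_inv (1 / ‖r‖), ← Real.exp_nat_mul,
      ← Real.exp_neg]
    refine mul_le_mul_of_nonneg_left (Real.exp_le_exp.2 ?_) (by positivity)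
    have h3 : |Complex.arg (1 / r) * τ| ≤ Real.pi / 2 * |τ| := by
      rw [abs_mul]
      exact mul_le_mul_of_nonneg_right harg (abs_nonneg _)
    rw [abs_mul, abs_of_pos hpi]
    have := (abs_le.1 h3).1
    push_cast
    linarith
  have he := Real.exp_pos |Real.pi * τ|
  have h4 : ‖Complex.Gamma (sv_Gam τ)‖ ^ 2 ≤ Real.pi / (Real.exp |Real.pi * τ| / 2) := by
    rw [norm_Gamma_sq_Gam]
    exact div_le_div_of_nonneg_left hpi.le (by positivity) (cosh_ge_Gam _)
  have h5 : ‖GI r τ‖ ^ 2 ≤ 1 := by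
    rw [GI_eq_Gam τ hr, norm_mul, mul_pow]
    calc _ ≤ (1 / ‖r‖ * Real.exp |Real.pi * τ|) * (Real.pi / (Real.exp |Real.pi * τ| / 2)) :=
          mul_le_mul h2 h4 (by positivity) (by positivity)
      _ = 2 * Real.pi / ‖r‖ := by field_simp
      _ ≤ 1 := (div_le_one hnr).2 hn
  nlinarith [norm_nonneg (GI r τ)]

end Pool.Agent.MP_2a1f0e_nt.DH
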