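import Pool.Agent.MP_2a1f0e_nt.DH.Basic

set_option autoImplicit false

open Finset

namespace Pool.Agent.MP_2a1f0e_nt.DH

open Pool.Agent.MP_2a1f0e_nt.GM

lemma cnt_Iv (N : ℕ) (b : ℕ → ℂ) (T : ℕ) {V : ℝ} (hV : 0 ≤ V) :
    (cnt N b T V : ℝ) * V ^ 2 ≤ Mass N b (Icc 0 (T : ℤ)) V := by
  unfold cnt Mass
  rw [← nsmul_eq_mul]
  exact card_nsmul_le_sum _ _ _ fun t ht => pow_le_pow_left₀ hV (mem_filter.1 ht).2 2

lemma num_Iv {n t σ lam V c R K : ℝ} (hn : 1 ≤ n) (hnt : n ≤ t) (htc : t ≤ n ^ c)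
    (hc : c * (2 * σ - 1) ≤ 6 * σ - 4) (h1 : 7 / 9 ≤ σ) (h2 : σ ≤ 1) (hl : 1 ≤ lam) (hV : 0 < V)
    (ha : n ^ σ ≤ lam * V) (hK : 0 ≤ K) (h : R * V ^ 2 ≤ K * (n ^ 2 + t * n ^ 4 / V ^ 4)) :
    R ≤ 2 * K * lam ^ 18 * t ^ (2 - 2 * σ) := by
  have n0 : 0 < n := by linarith
  have t0 : 0 < t := by linarith
  have l0 : 0 < lam := by linarith
  have a0 : 0 < n ^ σ := Real.rpow_pos_of_pos n0 _
  have u0 : 0 < t ^ (2 - 2 * σ) := Real.rpow_pos_of_pos t0 _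
  have e1 : n ^ 2 = n ^ (2 - 2 * σ) * (n ^ σ) ^ 2 := by
    rw [← Real.rpow_natCast (n ^ σ), ← Real.rpow_mul n0.le, ← Real.rpow_add n0,
      ← Real.rpow_natCast n]
    congr 1
    push_cast
    ring
  have e2 : n ^ (6 * σ - 4) * n ^ 4 = (n ^ σ) ^ 6 := by
    rw [← Real.rpow_natCast (n ^ σ), ← Real.rpow_mul n0.le, ← Real.rpow_natCast n,
      ← Real.rpow_add n0]
    congr 1
    push_cast
    ring
  have e3 : t = t ^ (2 - 2 * σ) * t ^ (2 * σ - 1) := by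
    rw [← Real.rpow_add t0, show 2 - 2 * σ + (2 * σ - 1) = 1 by ring, Real.rpow_one]
  have i1 : n ^ (2 - 2 * σ) ≤ t ^ (2 - 2 * σ) := Real.rpow_le_rpow n0.le hnt (by linarith)
  have i2 : t ^ (2 * σ - 1) ≤ n ^ (6 * σ - 4) := by
    refine (Real.rpow_le_rpow t0.le htc (by linarith)).trans ?_
    rw [← Real.rpow_mul n0.le]
    exact Real.rpow_le_rpow_of_exponent_le hn hc
  have l2 : lam ^ 2 ≤ lam ^ 18 := pow_le_pow_right₀ hl (by norm_num)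
  have l6 : lam ^ 6 ≤ lam ^ 18 := pow_le_pow_right₀ hl (by norm_num)
  have j1 : n ^ 2 ≤ lam ^ 18 * t ^ (2 - 2 * σ) * V ^ 2 := by
    calc n ^ 2 = n ^ (2 - 2 * σ) * (n ^ σ) ^ 2 := e1
      _ ≤ t ^ (2 - 2 * σ) * (lam * V) ^ 2 := by gcongr
      _ = lam ^ 2 * t ^ (2 - 2 * σ) * V ^ 2 := by ring
      _ ≤ _ := by gcongr
  have j2 : t * n ^ 4 / V ^ 4 ≤ lam ^ 18 * t ^ (2 - 2 * σ) * V ^ 2 := by
    rw [div_le_iff₀ (by positivity)]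
    calc t * n ^ 4 = t ^ (2 - 2 * σ) * t ^ (2 * σ - 1) * n ^ 4 := by rw [← e3]
      _ ≤ t ^ (2 - 2 * σ) * n ^ (6 * σ - 4) * n ^ 4 := by gcongr
      _ = t ^ (2 - 2 * σ) * (n ^ σ) ^ 6 := by rw [mul_assoc, e2]
      _ ≤ t ^ (2 - 2 * σ) * (lam * V) ^ 6 := by gcongr
      _ = lam ^ 6 * (t ^ (2 - 2 * σ) * V ^ 6) := by ring
      _ ≤ lam ^ 18 * (t ^ (2 - 2 * σ) * V ^ 6) := by gcongr
      _ = _ := by ring
  refine le_of_mul_le_mul_right (h.trans ?_) (show 0 < V ^ 2 by positivity)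
  calc K * (n ^ 2 + t * n ^ 4 / V ^ 4) ≤ K * (lam ^ 18 * t ^ (2 - 2 * σ) * V ^ 2 +
        lam ^ 18 * t ^ (2 - 2 * σ) * V ^ 2) := by gcongr
    _ = _ := by ring

theorem iv_stmt (hM : MasterStmt) (hN : NuStmt) (hB : B2Stmt) : IvStmt := by
  intro ε hε
  obtain ⟨C, C1, hM⟩ := hM ε hε
  obtain ⟨K, K0, hB⟩ := hB ε hε
  refine ⟨2 * K + 100 * C, by positivity, ?_⟩
  intro N T hN1 hNT hT σ lam V h1 h2 hl hV ha b hb
  have n1 : (1 : ℝ) ≤ N := by exact_mod_cast hN1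
  have nt : (N : ℝ) ≤ T := by exact_mod_cast hNT
  have n0 : (0 : ℝ) < N := by linarith
  have t0 : (0 : ℝ) < T := by linarith
  have l0 : 0 < lam := by linarith
  have e1 : 1 ≤ (N : ℝ) ^ ε := Real.one_le_rpow n1 hε.le
  have u0 : 0 < (T : ℝ) ^ (2 - 2 * σ) := Real.rpow_pos_of_pos t0 _
  have t32 : (T : ℝ) ≤ (N : ℝ) ^ (3 / 2 : ℝ) := by
    refine le_of_pow_le_pow_left₀ two_ne_zero (by positivity) ?_
    rw [← Real.rpow_natCast ((N : ℝ) ^ (3 / 2 : ℝ)), ← Real.rpow_mul n0.le,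
      show (3 / 2 : ℝ) * (2 : ℕ) = (3 : ℕ) by norm_num, Real.rpow_natCast]
    exact_mod_cast hT
  have hT2 : T ≤ N ^ 2 := by
    refine le_of_pow_le_pow_left₀ two_ne_zero (Nat.zero_le _) (hT.trans ?_)
    rw [← pow_mul]
    exact pow_le_pow_right₀ hN1 (by norm_num)
  have cA : ∀ c : ℝ, (T : ℝ) ≤ (N : ℝ) ^ c → c * (2 * σ - 1) ≤ 6 * σ - 4 →
      (cnt N b T V : ℝ) ≤ (2 * K + 100 * C) * (N : ℝ) ^ ε * lam ^ 18 * (T : ℝ) ^ (2 - 2 * σ) := by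
    intro c hc hc'
    refine (num_Iv n1 nt hc hc' h1 h2 hl hV ha (K := K * (N : ℝ) ^ ε) (by positivity)
      ((cnt_Iv N b T hV.le).trans (hB N T hN1 hNT hT2 b hb V hV))).trans ?_
    rw [← mul_assoc]
    gcongr
    linarith
  by_cases c1 : 5 / 6 ≤ σ
  · exact cA _ t32 (by linarith)
  by_cases c2 : (T : ℝ) ≤ (N : ℝ) ^ (6 / 5 : ℝ)
  · exact cA _ c2 (by linarith)
  have x1 : (N : ℝ) ≤ (N : ℝ) ^ (4 / 3 : ℝ) := by
    conv_lhs => rw [← Real.rpow_one N]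
    exact Real.rpow_le_rpow_of_exponent_le n1 (by norm_num)
  set x : ℝ := (N : ℝ) ^ (4 / 3 : ℝ) with hx
  have x0 : 0 ≤ x := by linarith
  have x3 : x ^ 3 = (N : ℝ) ^ 4 := by
    rw [hx, ← Real.rpow_natCast ((N : ℝ) ^ (4 / 3 : ℝ)), ← Real.rpow_mul n0.le,
      show (4 / 3 : ℝ) * (3 : ℕ) = (4 : ℕ) by norm_num, Real.rpow_natCast]
  have f1 : N ≤ ⌊x⌋₊ := Nat.le_floor x1
  set H : ℕ := min T ⌊x⌋₊ with hH
  have H1 : N ≤ H := le_min hNT f1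
  have H2 : H ≤ T := min_le_left _ _
  have H3 : H ^ 3 ≤ N ^ 4 := by
    have a1 : (H : ℝ) ≤ x := (Nat.cast_le.2 (min_le_right _ _)).trans (Nat.floor_le x0)
    have a2 : (H : ℝ) ^ 3 ≤ (N : ℝ) ^ 4 := x3 ▸ pow_le_pow_left₀ (by positivity) a1 3
    exact_mod_cast a2
  have H4 : (T : ℝ) ≤ H ∨ x ≤ 2 * H := by
    rcases le_total T ⌊x⌋₊ with h | h
    · left; rw [hH, min_eq_left h]
    · right
      rw [hH, min_eq_right h]
      have a1 := Nat.lt_floor_add_one x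
      have a2 : (1 : ℝ) ≤ ⌊x⌋₊ := by exact_mod_cast hN1.trans f1
      linarith
  have H0 : (0 : ℝ) < H := by exact_mod_cast lt_of_lt_of_le hN1 H1
  have key := hN N T H V (cnt N b T V) (C * (N : ℝ) ^ ε) lam σ n1 (not_le.1 c2).le t32 H0
    (by exact_mod_cast H2) H4 h1 (not_le.1 c1).le hl hV ha (one_le_mul_of_one_le_of_one_le C1 e1)
    (Nat.cast_nonneg _) fun Z hZ => hM N H T hN1 H1 H3 hT b hb V Z hV hZ _ (filter_subset _ _)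
      fun t ht => (mem_filter.1 ht).2
  refine key.trans ?_
  rw [← mul_assoc]
  gcongr
  linarith

end Pool.Agent.MP_2a1f0e_nt.DH
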