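import Pool.Agent.MP_2a1f0e_nt.DH.Basic

set_option autoImplicit false

open Finset

namespace Pool.Agent.MP_2a1f0e_nt.DH

open Pool.Agent.MP_2a1f0e_nt.GM

lemma cond_Jut {δ : ℝ} (hδ : δ ≤ 1 / 2) (L K j D M : ℕ) (hK1 : 1 ≤ K)
    (hj : 1 ≤ j) (hK : 4 * (L : ℝ) ^ δ ≤ K) (hD : D ^ 2 ≤ L ^ 3) (hM : K * L ≤ 4 * M ^ 2) :
    2 * (D : ℝ) * ((j * (K * L) : ℕ) : ℝ) ^ δ ≤ ((j * (K * L) : ℕ) : ℝ) * M := by
  have hK1' : (1 : ℝ) ≤ K := by exact_mod_cast hK1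
  have hj' : (1 : ℝ) ≤ j := by exact_mod_cast hj
  have hD' : (D : ℝ) ^ 2 ≤ (L : ℝ) ^ 3 := by exact_mod_cast hD
  have hM' : (K : ℝ) * L ≤ 4 * (M : ℝ) ^ 2 := by exact_mod_cast hM
  have hL0 : (0 : ℝ) ≤ L := Nat.cast_nonneg _
  have ha : (1 : ℝ) ≤ (j : ℝ) * K := one_le_mul_of_one_le_of_one_le hj' hK1'
  have e1 : ((j * (K * L) : ℕ) : ℝ) = ((j : ℝ) * K) * L := by push_cast; ring
  rw [e1, Real.mul_rpow (by positivity) hL0]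
  set y : ℝ := (L : ℝ) ^ δ with hy
  have hy0 : 0 ≤ y := by positivity
  set z : ℝ := ((j : ℝ) * K) ^ δ with hz
  have hz0 : 0 ≤ z := by positivity
  have hz2 : z ^ 2 ≤ (j : ℝ) * K := by
    rw [hz, ← Real.rpow_natCast, ← Real.rpow_mul (by positivity)]
    calc ((j : ℝ) * K) ^ (δ * ((2 : ℕ) : ℝ)) ≤ ((j : ℝ) * K) ^ (1 : ℝ) :=
          Real.rpow_le_rpow_of_exponent_le ha (by push_cast; linarith)
      _ = (j : ℝ) * K := Real.rpow_one _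
  have hy2 : 16 * y ^ 2 ≤ (K : ℝ) ^ 2 := by nlinarith
  refine le_of_sq_le_sq ?_ (by positivity)
  calc (2 * (D : ℝ) * (z * y)) ^ 2 = (D : ℝ) ^ 2 * z ^ 2 * (16 * y ^ 2) / 4 := by ring
    _ ≤ (L : ℝ) ^ 3 * ((j : ℝ) * K) * (K : ℝ) ^ 2 / 4 := by gcongr
    _ = 1 * ((j : ℝ) * (K : ℝ) ^ 2 * (L : ℝ) ^ 2) * ((K : ℝ) * L) / 4 := by ring
    _ ≤ (j : ℝ) * ((j : ℝ) * (K : ℝ) ^ 2 * (L : ℝ) ^ 2) * (4 * (M : ℝ) ^ 2) / 4 := by gcongr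
    _ = ((j : ℝ) * K * L * M) ^ 2 := by ring

lemma quad_Jut {J a b : ℝ} (hJ : 0 ≤ J) (h : J ≤ a + b * √J) : J ≤ 2 * a + b ^ 2 := by
  have h1 : √J ^ 2 = J := Real.sq_sqrt hJ
  nlinarith [sq_nonneg (√J - b)]

lemma core_Jut (hL : LenStmt) (hS : SqStmt) {C : ℝ}
    (hJ : ∀ (N M L : ℕ) (Δ : ℝ) (s : Finset ℤ) (g : ℤ → ℝ),
      1 ≤ N → M ^ 2 ≤ L → DivB L Δ → (∀ x ∈ s, 0 ≤ g x) →
      EE s g (Kb N M) ≤ C * N * Δ * (∑ x ∈ s, g x) * √(EE s g (ZZ L)))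
    {L M D : ℕ} {Δ E : ℝ} {s : Finset ℤ} {g : ℤ → ℝ} (h1 : 1 ≤ L) (hM : M ^ 2 ≤ L)
    (hΔ : DivB (8 * L) Δ) (hD : Diam s D) (hg : ∀ x ∈ s, 0 ≤ g x)
    (hE : ∀ i : ℕ, ∑ u ∈ Icc (-(D : ℤ)) D, ‖KK (2 ^ i * L) (u : ℝ) - Kb (2 ^ i * L) M (u : ℝ)‖ ≤
      E * ((2 ^ i * L : ℕ) : ℝ)) :
    EE s g (ZZ L) ≤ 252 * ((Nat.log 2 L : ℝ) + 1) ^ 2 * Δ * E ^ 2 * L * (∑ x ∈ s, g x ^ 2) +
      (42 * C * ((Nat.log 2 L : ℝ) + 1) ^ 2 * Δ ^ 2) ^ 2 * (∑ x ∈ s, g x) ^ 2 := by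
  have hL0 : (0 : ℝ) < L := by exact_mod_cast h1
  have hΔ0 : 0 ≤ Δ := le_trans zero_le_one hΔ.1
  have hΔ' : DivB L Δ := DivB_mono hΔ (by omega)
  set J := EE s g (ZZ L) with hJdef
  set G1 := ∑ x ∈ s, g x with hG1
  set G2 := ∑ x ∈ s, g x ^ 2 with hG2
  set lam : ℝ := (Nat.log 2 L : ℝ) + 1 with hlam
  have hJ0 : 0 ≤ J := EE_nonneg hg _
  have hi : ∀ i : ℕ, EE s g (KK (2 ^ i * L)) ≤
      2 * (E * ((2 : ℝ) ^ i * L)) ^ 2 * G2 + 2 * (C * ((2 : ℝ) ^ i * L) * Δ * G1 * √J) := by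
    intro i
    have a1 := hS (2 ^ i * L) M D _ s g hD hg (hE i)
    have a2 := hJ (2 ^ i * L) M L Δ s g (Nat.mul_pos (by positivity) h1) hM hΔ' hg
    push_cast at a1 a2
    linarith
  have hsum : ∑ i ∈ range 3, EE s g (KK (2 ^ i * L)) ≤
      (L : ℝ) * (42 * E ^ 2 * L * G2 + 14 * C * Δ * G1 * √J) := by
    refine (sum_le_sum fun i _ => hi i).trans (le_of_eq ?_)
    simp only [sum_range_succ, sum_range_zero]
    ring
  have h2 := hL L Δ s g h1 hΔ hg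
  have h3 : J ≤ 126 * lam ^ 2 * Δ * E ^ 2 * L * G2 + (42 * C * lam ^ 2 * Δ ^ 2 * G1) * √J := by
    refine h2.trans ((mul_le_mul_of_nonneg_left hsum (by positivity)).trans (le_of_eq ?_))
    field_simp
    ring
  refine (quad_Jut hJ0 h3).trans (le_of_eq ?_)
  ring

theorem jut_stmt (hK : K1Stmt) (hL : LenStmt) (hS : SqStmt) (hJ : KbJStmt) (hP : PosStmt) :
    JutStmt := by
  intro ε hε
  set δ : ℝ := min ε 1 / 20 with hδdef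
  have hm0 : 0 < min ε 1 := lt_min hε one_pos
  have hm1 : min ε 1 ≤ 1 := min_le_right _ _
  have hm2 : min ε 1 ≤ ε := min_le_left _ _
  have hδ0 : 0 < δ := by positivity
  have hδ1 : δ ≤ 1 / 2 := by linarith
  obtain ⟨E, hE0, hE⟩ := hK δ hδ0
  obtain ⟨C, hC0, hC⟩ := hJ
  obtain ⟨c, hc1, hc⟩ := exists_DivB hδ0
  obtain ⟨c', hc1', hc'⟩ := exists_log_le hδ0
  have hc0 : 0 < c := lt_of_lt_of_le one_pos hc1
  have hc0' : 0 < c' := lt_of_lt_of_le one_pos hc1'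
  refine ⟨252 * (40 * c') ^ 2 * (40 * c) * E ^ 2 * 5 + (42 * C * (40 * c') ^ 2 * (40 * c) ^ 2) ^ 2,
    by positivity, fun L D s g h1 hD hDi hg => ?_⟩
  have hL1 : (1 : ℝ) ≤ L := by exact_mod_cast h1
  set y : ℝ := (L : ℝ) ^ δ with hy
  have hy1 : 1 ≤ y := Real.one_le_rpow hL1 hδ0.le
  have hyL : y ≤ L := by
    calc y ≤ (L : ℝ) ^ (1 : ℝ) := Real.rpow_le_rpow_of_exponent_le hL1 (by linarith)
      _ = L := Real.rpow_one _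
  have hy20 : y ^ 20 ≤ (L : ℝ) ^ ε := by
    rw [hy, ← Real.rpow_natCast, ← Real.rpow_mul (by positivity)]
    exact Real.rpow_le_rpow_of_exponent_le hL1 (by push_cast; linarith)
  obtain ⟨K, hK4, hK5⟩ : ∃ K : ℕ, 4 * y ≤ K ∧ (K : ℝ) ≤ 5 * y :=
    ⟨⌈4 * y⌉₊, Nat.le_ceil _, by
      have := Nat.ceil_lt_add_one (a := 4 * y) (by positivity)
      linarith⟩
  have hK1 : 1 ≤ K := by
    have : (1 : ℝ) ≤ K := by linarith
    exact_mod_cast this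
  have hKL1 : 1 ≤ K * L := Nat.mul_pos hK1 h1
  have hKL : L ≤ K * L := Nat.le_mul_of_pos_left _ hK1
  have hM1 : 1 ≤ Nat.sqrt (K * L) := Nat.sqrt_pos.2 hKL1
  have hMa : Nat.sqrt (K * L) ^ 2 ≤ K * L := Nat.sqrt_le' _
  have hMb : K * L ≤ 4 * Nat.sqrt (K * L) ^ 2 := by
    have := Nat.lt_succ_sqrt' (K * L)
    simp only [Nat.succ_eq_add_one] at this
    nlinarith
  have hD' : (max D 1) ^ 2 ≤ L ^ 3 := by
    rcases le_total D 1 with h | h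
    · rw [max_eq_right h]
      simpa using Nat.one_le_pow 3 L h1
    · rwa [max_eq_left h]
  have hD2 : max D 1 ≤ L ^ 2 := by
    refine (Nat.pow_le_pow_iff_left (n := 2) (by norm_num)).1 (hD'.trans ?_)
    rw [← pow_mul]
    exact Nat.pow_le_pow_right h1 (by norm_num)
  have hDi' : Diam s (max D 1) := fun a ha b hb =>
    (hDi a ha b hb).trans (by exact_mod_cast le_max_left D 1)
  have hcore := core_Jut hL hS hC (L := K * L) (M := Nat.sqrt (K * L)) (D := max D 1) (E := E)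
    hKL1 hMa (hc (8 * (K * L)) (by omega)) hDi' hg fun i => by
      have hi : 1 ≤ 2 ^ i := Nat.one_le_two_pow
      have hN : L ≤ 2 ^ i * (K * L) := hKL.trans (Nat.le_mul_of_pos_left _ hi)
      refine hE _ _ _ (h1.trans hN) (le_max_right _ _) ?_
        (cond_Jut hδ1 L K (2 ^ i) (max D 1) _ hK1 hi hK4 hD' hMb)
      have := Nat.pow_le_pow_left hN 2
      omega
  have hKLr : ((K * L : ℕ) : ℝ) ≤ 5 * y * L := by
    push_cast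
    gcongr
  have h8 : ((8 * (K * L) : ℕ) : ℝ) ^ δ ≤ 40 * y ^ 2 := by
    have a1 : ((8 * (K * L) : ℕ) : ℝ) ≤ 40 * (L * L) := by
      have : 5 * y * L ≤ 5 * (L : ℝ) * L := by gcongr
      push_cast at hKLr ⊢
      linarith
    have a2 : (40 : ℝ) ^ δ ≤ 40 := by
      calc (40 : ℝ) ^ δ ≤ (40 : ℝ) ^ (1 : ℝ) :=
            Real.rpow_le_rpow_of_exponent_le (by norm_num) (by linarith)
        _ = 40 := Real.rpow_one _
    calc ((8 * (K * L) : ℕ) : ℝ) ^ δ ≤ (40 * ((L : ℝ) * L)) ^ δ :=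
          Real.rpow_le_rpow (by positivity) a1 hδ0.le
      _ = 40 ^ δ * y ^ 2 := by
          rw [Real.mul_rpow (by norm_num) (by positivity),
            Real.mul_rpow (by positivity) (by positivity), ← hy, sq]
      _ ≤ 40 * y ^ 2 := by gcongr
  have hΔ : c * ((8 * (K * L) : ℕ) : ℝ) ^ δ ≤ 40 * c * y ^ 2 := by
    calc c * ((8 * (K * L) : ℕ) : ℝ) ^ δ ≤ c * (40 * y ^ 2) := by gcongr
      _ = 40 * c * y ^ 2 := by ring
  have hlam : (Nat.log 2 (K * L) : ℝ) + 1 ≤ 40 * c' * y ^ 2 := by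
    calc (Nat.log 2 (K * L) : ℝ) + 1 ≤ c' * ((K * L : ℕ) : ℝ) ^ δ := hc' _ hKL1
      _ ≤ c' * ((8 * (K * L) : ℕ) : ℝ) ^ δ := by
          refine mul_le_mul_of_nonneg_left
            (Real.rpow_le_rpow (by positivity) ?_ hδ0.le) hc0'.le
          exact_mod_cast (by omega : K * L ≤ 8 * (K * L))
      _ ≤ c' * (40 * y ^ 2) := by gcongr
      _ = 40 * c' * y ^ 2 := by ring
  set G1 := ∑ x ∈ s, g x with hG1
  set G2 := ∑ x ∈ s, g x ^ 2 with hG2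
  have hG20 : 0 ≤ G2 := sum_nonneg fun x _ => sq_nonneg _
  have hy7 : y ^ 7 ≤ (L : ℝ) ^ ε := (pow_le_pow_right₀ hy1 (by norm_num)).trans hy20
  have hy16 : y ^ 16 ≤ (L : ℝ) ^ ε := (pow_le_pow_right₀ hy1 (by norm_num)).trans hy20
  set A : ℝ := 252 * (40 * c') ^ 2 * (40 * c) * E ^ 2 * 5 with hA
  set B : ℝ := (42 * C * (40 * c') ^ 2 * (40 * c) ^ 2) ^ 2 with hB
  have hA0 : 0 ≤ A := by positivity
  have hB0 : 0 ≤ B := by positivity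
  have hLe : 0 ≤ (L : ℝ) ^ ε := by positivity
  calc EE s g (ZZ L) ≤ EE s g (ZZ (K * L)) := EE_ZZ_mono hP hKL s g
    _ ≤ _ := hcore
    _ ≤ 252 * (40 * c' * y ^ 2) ^ 2 * (40 * c * y ^ 2) * E ^ 2 * (5 * y * L) * G2 +
        (42 * C * (40 * c' * y ^ 2) ^ 2 * (40 * c * y ^ 2) ^ 2) ^ 2 * G1 ^ 2 := by
        gcongr
    _ = A * y ^ 7 * (L * G2) + B * y ^ 16 * G1 ^ 2 := by
        rw [hA, hB]
        ring
    _ ≤ A * (L : ℝ) ^ ε * (L * G2) + B * (L : ℝ) ^ ε * G1 ^ 2 := by gcongr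
    _ ≤ (A + B) * (L : ℝ) ^ ε * (L * G2 + G1 ^ 2) := by
        have b1 : 0 ≤ A * (L : ℝ) ^ ε * G1 ^ 2 := by positivity
        have b2 : 0 ≤ B * (L : ℝ) ^ ε * (L * G2) := by positivity
        nlinarith

end Pool.Agent.MP_2a1f0e_nt.DH
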