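import Pool.Agent.MP_2a1f0e_nt.DH.Basic

set_option autoImplicit false

open Finset

namespace Pool.Agent.MP_2a1f0e_nt.DH

open Pool.Agent.MP_2a1f0e_nt.GM

lemma cs_KbJ {ι : Type} (s : Finset ι) (w a b : ι → ℝ) (hw : ∀ i ∈ s, 0 ≤ w i) :
    ∑ i ∈ s, w i * a i * b i ≤ √(∑ i ∈ s, w i * a i ^ 2) * √(∑ i ∈ s, w i * b i ^ 2) := by
  have h := Real.sum_mul_le_sqrt_mul_sqrt s (fun i => √(w i) * a i) fun i => √(w i) * b i
  have e : ∀ c : ι → ℝ, ∑ i ∈ s, (√(w i) * c i) ^ 2 = ∑ i ∈ s, w i * c i ^ 2 := fun c =>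
    sum_congr rfl fun i hi => by rw [mul_pow, Real.sq_sqrt (hw i hi)]
  rw [e, e] at h
  refine le_trans (le_of_eq (sum_congr rfl fun i hi => ?_)) h
  rw [mul_mul_mul_comm, Real.mul_self_sqrt (hw i hi), mul_assoc]

lemma ee_KbJ (s : Finset ℤ) (g : ℤ → ℝ) (F : ℝ → ℂ) :
    EE s g F = ∑ p ∈ s ×ˢ s, g p.1 * g p.2 * ‖F ((p.1 : ℝ) - p.2)‖ ^ 2 := by
  rw [EE, sum_product]

theorem kbJ_stmt (hA : AvgStmt) (hZ : PowZStmt) (hP : PosStmt) : KbJStmt := by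
  obtain ⟨C, hC, hA⟩ := hA
  refine ⟨C ^ 2, by positivity, fun N M L Δ s g hN hM hΔ hg => ?_⟩
  have hw : ∀ p ∈ s ×ˢ s, 0 ≤ g p.1 * g p.2 := fun p hp =>
    mul_nonneg (hg _ (mem_product.1 hp).1) (hg _ (mem_product.1 hp).2)
  have hG : 0 ≤ ∑ x ∈ s, g x := sum_nonneg hg
  have h0 : 0 ≤ Δ := zero_le_one.trans hΔ.1
  have hX := EE_nonneg hg (Kb N M)
  have h1 := hA N M hN (ℤ × ℤ) (s ×ˢ s) (fun p => g p.1 * g p.2 * ‖Kb N M ((p.1 : ℝ) - p.2)‖)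
    (fun p => (p.1 : ℝ) - p.2)
    (√(EE s g (Kb N M)) * √((∑ x ∈ s, g x) * (Δ * √(EE s g (ZZ L)))))
    (fun p hp => mul_nonneg (hw p hp) (norm_nonneg _)) fun ξ => by
      refine (cs_KbJ _ _ _ _ hw).trans ?_
      rw [← ee_KbJ]
      refine mul_le_mul_of_nonneg_left (Real.sqrt_le_sqrt ?_) (Real.sqrt_nonneg _)
      obtain ⟨d, d1, d2⟩ := (hZ M L Δ ξ hΔ).1 hM
      have h2 := cs_KbJ (s ×ˢ s) (fun p => g p.1 * g p.2) (fun _ => 1)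
        (fun p => ‖PP L d ((p.1 : ℝ) - p.2)‖) hw
      simp only [mul_one, one_pow] at h2
      rw [← ee_KbJ, sum_product' s s fun x y => g x * g y, ← sum_mul_sum,
        Real.sqrt_mul_self hG] at h2
      simp only [← norm_pow, d2]
      refine h2.trans (mul_le_mul_of_nonneg_left ?_ hG)
      rw [← Real.sqrt_sq h0, ← Real.sqrt_mul (sq_nonneg _)]
      exact Real.sqrt_le_sqrt (EE_le_ZZ hP h0 le_rfl d1 s g)
  simp only [mul_assoc _ ‖Kb N M _‖ ‖Kb N M _‖, ← sq] at h1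
  rw [← ee_KbJ] at h1
  generalize EE s g (Kb N M) = X at *
  have hY : 0 ≤ (∑ x ∈ s, g x) * (Δ * √(EE s g (ZZ L))) := by positivity
  have h3 : √X ≤ C * √N * √((∑ x ∈ s, g x) * (Δ * √(EE s g (ZZ L)))) := by
    rcases (Real.sqrt_nonneg X).eq_or_lt with h | h
    · rw [← h]
      positivity
    · refine le_of_mul_le_mul_left ?_ h
      rw [Real.mul_self_sqrt hX]
      exact h1.trans_eq (by ring)
  have h4 := pow_le_pow_left₀ (Real.sqrt_nonneg _) h3 2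
  rw [Real.sq_sqrt hX, mul_pow, mul_pow, Real.sq_sqrt hY, Real.sq_sqrt (Nat.cast_nonneg _)] at h4
  exact h4.trans_eq (by ring)

end Pool.Agent.MP_2a1f0e_nt.DH
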