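import Pool.Agent.MP_2a1f0e_nt.DH.Basic

set_option autoImplicit false

open Finset

namespace Pool.Agent.MP_2a1f0e_nt.DH

open Pool.Agent.MP_2a1f0e_nt.GM

lemma size_Ks {T N δ M : ℝ} (hT : 1 ≤ T) (hN : 0 < N) (h1 : 3 * T ≤ 4 * N ^ 2)
    (h2 : N ≤ 2 * T ^ 2) (hδ : 0 < δ) (hδ1 : δ ≤ 1) (hM0 : 0 ≤ M)
    (hM : M ≤ 6 * T * N ^ δ / N + 1) :
    M ^ 2 ≤ 225 * T ^ (1 + 4 * δ) ∧ 6 * T ≤ 225 * T ^ (1 + 4 * δ) := by
  have hT0 : 0 < T := by linarith
  have ha : 1 ≤ T ^ (2 * δ) := Real.one_le_rpow hT (by positivity)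
  have hs : 1 ≤ √T := Real.one_le_sqrt.2 hT
  have hs2 : √T ^ 2 = T := Real.sq_sqrt hT0.le
  have e : T ^ (1 + 4 * δ) = T * (T ^ (2 * δ)) ^ 2 := by
    rw [← Real.rpow_natCast, ← Real.rpow_mul hT0.le, Real.rpow_add hT0, Real.rpow_one]
    congr 2
    push_cast
    ring
  have k1 : N ^ δ ≤ 2 * T ^ (2 * δ) := by
    refine (Real.rpow_le_rpow hN.le h2 hδ.le).trans ?_
    rw [Real.mul_rpow (by norm_num) (by positivity), Real.rpow_mul hT0.le, Real.rpow_two]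
    refine mul_le_mul_of_nonneg_right ?_ (by positivity)
    simpa using Real.rpow_le_rpow_of_exponent_le (x := 2) (by norm_num) hδ1
  have k2 : √T ≤ 7 / 6 * N := Real.sqrt_le_iff.2 ⟨by positivity, by nlinarith⟩
  have k3 : 6 * T * N ^ δ / N ≤ 14 * (√T * T ^ (2 * δ)) := by
    rw [div_le_iff₀ hN]
    calc 6 * T * N ^ δ = 6 * (√T * √T) * N ^ δ := by rw [Real.mul_self_sqrt hT0.le]
      _ ≤ 6 * (√T * (7 / 6 * N)) * (2 * T ^ (2 * δ)) := by gcongr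
      _ = _ := by ring
  have k4 : 1 ≤ √T * T ^ (2 * δ) := one_le_mul_of_one_le_of_one_le hs ha
  rw [e]
  constructor
  · calc M ^ 2 ≤ (15 * (√T * T ^ (2 * δ))) ^ 2 := by
          gcongr
          linarith
      _ = _ := by rw [mul_pow, mul_pow, hs2]; norm_num
  · nlinarith [one_le_pow₀ (n := 2) ha]

theorem ks_stmt (hK : PkStmt) (hA : AvgStmt) (hM : MomStmt) : KsStmt := by
  intro ε hε
  obtain ⟨δ, hδ, hδ1, hδε⟩ : ∃ δ : ℝ, 0 < δ ∧ δ ≤ 1 ∧ (1 + 4 * δ) * (1 + δ) ≤ 1 + ε := by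
    refine ⟨min ε 9 / 9, by positivity, by linarith [min_le_right ε 9], ?_⟩
    have : 0 < min ε 9 := by positivity
    nlinarith [min_le_right ε 9, min_le_left ε 9]
  obtain ⟨E, hE, hK⟩ := hK δ hδ
  obtain ⟨A, hA0, hA⟩ := hA
  obtain ⟨C, hC, hM⟩ := hM δ hδ
  refine ⟨9 * E + A * (C + 225), by positivity, fun T N hT h1 h2 S hS ξ hξ => ?_⟩
  have hN : 1 ≤ N := Nat.pos_of_ne_zero fun h => by
    rw [h] at h1
    omega
  have hT' : (1 : ℝ) ≤ T := by exact_mod_cast hT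
  have hT0 : (0 : ℝ) < T := by linarith
  have hN' : (0 : ℝ) < N := by exact_mod_cast hN
  have h2' : (N : ℝ) ≤ 2 * T ^ 2 := by exact_mod_cast h2
  obtain ⟨M, hM1, hM2⟩ : ∃ M : ℕ, 6 * T * (N : ℝ) ^ δ / N ≤ M ∧
      (M : ℝ) ≤ 6 * T * (N : ℝ) ^ δ / N + 1 :=
    ⟨_, Nat.le_ceil _, (Nat.ceil_lt_add_one (by positivity)).le⟩
  obtain ⟨s1, s2⟩ := size_Ks hT' hN' (by exact_mod_cast h1) h2' hδ hδ1 M.cast_nonneg hM2
  obtain ⟨L, l1, l2, l3⟩ : ∃ L : ℕ, M ^ 2 ≤ L ∧ 3 * (2 * T) ≤ L ∧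
      (L : ℝ) ≤ 225 * (T : ℝ) ^ (1 + 4 * δ) := by
    refine ⟨max (M ^ 2) (3 * (2 * T)), le_max_left _ _, le_max_right _ _, ?_⟩
    push_cast
    exact max_le s1 (by linarith)
  have hL : (0 : ℝ) < L := by exact_mod_cast (by omega : 0 < L)
  have l4 : (L : ℝ) ^ δ * L ≤ 225 ^ 2 * (T : ℝ) ^ (1 + ε) := by
    rw [← Real.rpow_add_one hL.ne', add_comm δ]
    refine (Real.rpow_le_rpow hL.le l3 (by positivity)).trans ?_
    rw [Real.mul_rpow (by norm_num) (by positivity), ← Real.rpow_mul hT0.le, ← Real.rpow_two]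
    exact mul_le_mul (Real.rpow_le_rpow_of_exponent_le (by norm_num) (by linarith))
      (Real.rpow_le_rpow_of_exponent_le hT' hδε) (by positivity) (by positivity)
  have hB := hA N M hN ℤ S (fun _ => 1) (fun m => ξ - m)
    ((C + 225) * ((S.card : ℝ) ^ (3 / 4 : ℝ) * (T : ℝ) ^ ((1 + ε) / 4))) (fun _ _ => zero_le_one)
    fun x => by
      simp only [one_mul]
      refine le_of_pow_le_pow_left₀ (n := 3 + 1) (by norm_num) (by positivity)
        ((pow_sum_le_card_mul_sum_pow (fun _ _ => norm_nonneg _) 3).trans ?_)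
      have k1 : ∑ m ∈ S, ‖ZZ M (ξ - m + x)‖ ^ (3 + 1) ≤ C * (L : ℝ) ^ δ * L := by
        refine le_trans ?_ ((hM M L (2 * T) (-(ξ + x)) (by omega) l2).1 l1)
        refine (sum_le_sum fun m _ => ?_).trans (sum_le_sum_of_subset_of_nonneg (s := S)
          (fun m hm => ?_) fun _ _ _ => by positivity)
        · rw [← norm_ZZ_neg, show -(ξ - m + x) = m + -(ξ + x) by ring]
        · have := mem_Icc.1 (hS hm)
          rw [mem_Icc]
          omega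
      have k2 : C * 225 ^ 2 ≤ (C + 225) ^ 4 := by
        calc C * 225 ^ 2 = C * 225 ^ 2 * 1 := (mul_one _).symm
          _ ≤ (C + 225) * (C + 225) ^ 2 * (C + 225) := by gcongr <;> linarith
          _ = _ := by ring
      rw [mul_pow, mul_pow, ← Real.rpow_natCast ((S.card : ℝ) ^ (3 / 4 : ℝ)),
        ← Real.rpow_natCast ((T : ℝ) ^ ((1 + ε) / 4)), ← Real.rpow_mul (by positivity),
        ← Real.rpow_mul hT0.le, show (3 / 4 : ℝ) * ((3 + 1 : ℕ) : ℝ) = (3 : ℕ) by norm_num,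
        show (1 + ε) / 4 * ((3 + 1 : ℕ) : ℝ) = 1 + ε by push_cast; ring, Real.rpow_natCast]
      calc _ ≤ (S.card : ℝ) ^ 3 * (C * (225 ^ 2 * (T : ℝ) ^ (1 + ε))) := by
            refine mul_le_mul_of_nonneg_left (k1.trans ?_) (by positivity)
            rw [mul_assoc]
            gcongr
        _ = C * 225 ^ 2 * ((S.card : ℝ) ^ 3 * (T : ℝ) ^ (1 + ε)) := by ring
        _ ≤ _ := by gcongr
  simp only [one_mul] at hB
  have hD : ∀ m ∈ S, ‖KK N (ξ - m)‖ ≤ 9 * E + ‖Kb N M (ξ - m)‖ := fun m hm => by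
    obtain ⟨m1, m2⟩ := mem_Icc.1 (hS hm)
    have m3 : (T : ℝ) ≤ m := by exact_mod_cast m1
    have m4 : (m : ℝ) ≤ 2 * T := by exact_mod_cast m2
    obtain ⟨x1, x2⟩ := abs_le.1 hξ
    have k1 := hK N M (3 * T) hN (by omega) h1
      (by rw [div_le_iff₀ hN'] at hM1; push_cast; linarith) (ξ - m)
      (by rw [abs_le]; push_cast; constructor <;> linarith)
    have k2 : N * kp (ξ - m) ≤ 8 := by
      rw [kp, mul_one_div, div_le_iff₀ (by positivity)]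
      nlinarith
    have k3 := norm_add_le (KK N (ξ - m) - Kb N M (ξ - m)) (Kb N M (ξ - m))
    rw [sub_add_cancel] at k3
    nlinarith
  refine (sum_le_sum hD).trans ?_
  rw [sum_add_distrib, sum_const, nsmul_eq_mul]
  have k1 : 0 ≤ √N * (S.card : ℝ) ^ (3 / 4 : ℝ) * (T : ℝ) ^ ((1 + ε) / 4) := by positivity
  have k2 : 0 ≤ A * (C + 225) * S.card := by positivity
  nlinarith [mul_nonneg hE.le k1]

end Pool.Agent.MP_2a1f0e_nt.DH
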