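import Pool.Agent.MP_2a1f0e_nt.DH.Basic
set_option autoImplicit false
open Finset
namespace Pool.Agent.MP_2a1f0e_nt.DH
open Pool.Agent.MP_2a1f0e_nt.GM

lemma norm_LV {N : ℕ} (hN : 1 ≤ N) (b : ℕ → ℂ) (m θ : ℝ) :
    ‖∑ n ∈ Icc N (2 * N), b n * pw (n : ℝ) m *
      ((((n : ℝ) / N : ℝ) : ℂ) ^ (Complex.I * (θ : ℂ)))‖ = ‖DP N b (m + θ)‖ := by
  have h0 : (0 : ℝ) < N := Nat.cast_pos.2 hN
  rw [← mul_one ‖DP N b _‖, ← norm_pw N (-θ), ← norm_mul, DP, sum_mul]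
  refine congrArg norm (sum_congr rfl fun n hn => ?_)
  have h1 : (0 : ℝ) < n := Nat.cast_pos.2 (hN.trans (mem_Icc.1 hn).1)
  have h2 := div_pos h1 h0
  rw [pw_add, mul_assoc, mul_assoc, mul_assoc, ← pw_div h1.ne' h0.ne',
    Complex.cpow_def_of_ne_zero (Complex.ofReal_ne_zero.2 h2.ne'), ← Complex.ofReal_log h2.le,
    mul_comm (Real.log _ : ℂ)]
  rfl

lemma red_LV (hT : TyStmt) {N Y : ℕ} {T V Z : ℝ} (hN : 1 ≤ N) (hV : 0 < V)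
    (hY : (N : ℝ) + 1 ≤ 2 ^ Y * V)
    (hZ : ∀ b : ℕ → ℂ, (∀ n, ‖b n‖ ≤ 1) → (cnt N b ⌊T⌋₊ (V / 6) : ℝ) ≤ Z)
    {b : ℕ → ℂ} (hb : ∀ n, ‖b n‖ ≤ 1) {W : Finset ℝ} (h1 : ∀ t ∈ W, 0 ≤ t ∧ t ≤ T)
    (h2 : ∀ s ∈ W, ∀ t ∈ W, s ≠ t → 1 ≤ |s - t|) (h3 : ∀ t ∈ W, V ≤ ‖DP N b t‖) :
    (W.card : ℝ) ≤ (2 * Y + 8) * Z := by
  rw [← card_image_of_injOn (f := Int.floor) fun s hs t ht e => by_contra fun h =>
    (h2 s hs t ht h).not_gt (Int.abs_sub_lt_one_of_floor_eq_floor e)]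
  choose! t ht e using fun m (hm : m ∈ W.image Int.floor) => mem_image.1 hm
  refine hT N ⌊T⌋₊ Y V Z hN hV hY hZ b hb _ (fun m => Complex.I * (t m - m : ℝ))
    (fun m hm => ?_) (fun m hm => ?_) fun m hm => ?_
  · obtain ⟨a, c⟩ := h1 _ (ht m hm)
    rw [← e m hm, Int.natCast_floor_eq_floor (a.trans c)]
    exact mem_Icc.2 ⟨Int.floor_nonneg.2 a, Int.floor_le_floor c⟩
  · have a := Int.floor_le (t m)
    have c := Int.lt_floor_add_one (t m)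
    rw [e m hm] at a c
    rw [norm_mul, Complex.norm_I, one_mul, Complex.norm_real, Real.norm_of_nonneg (by linarith)]
    linarith
  · rw [norm_LV hN, add_sub_cancel]
    exact h3 _ (ht m hm)

theorem lv_stmt (hI : IvStmt) (hP : PowStmt) (hT : TyStmt) : LVStmt := by
  intro A ε hε
  obtain ⟨A', hA, hA1⟩ : ∃ A', A ≤ A' ∧ 1 ≤ A' := ⟨_, le_max_left _ _, le_max_right _ _⟩
  obtain ⟨K₁, hK₁, h1⟩ := hI (ε / 2) (half_pos hε)
  obtain ⟨a, h2⟩ := hP A'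
  obtain ⟨K₂, hK₂, h2⟩ := h2 (ε / 2 / A') (by positivity)
  obtain ⟨c, hc, h3⟩ := exists_log_le (half_pos hε)
  refine ⟨12 * c * (K₁ * 6 ^ 18 + K₂ * 6 ^ a), fun N T σ hN hNT hTA hor s1 s2 b hb W w1 w2 w3 => ?_⟩
  have hN1 : (1 : ℝ) ≤ N := by exact_mod_cast hN
  have hV : 1 ≤ (N : ℝ) ^ σ := Real.one_le_rpow hN1 (by linarith)
  have hT0 : 0 ≤ T := by linarith
  have hf := Nat.floor_le hT0
  have h4 : (⌊T⌋₊ : ℝ) ^ (2 - 2 * σ) ≤ T ^ (2 - 2 * σ) :=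
    Real.rpow_le_rpow (Nat.cast_nonneg _) hf (by linarith)
  have h5 : (N : ℝ) ^ σ ≤ 6 * ((N : ℝ) ^ σ / 6) := by linarith
  have hE : 0 ≤ (N : ℝ) ^ (ε / 2) * T ^ (2 - 2 * σ) := by positivity
  have hZ : ∀ b : ℕ → ℂ, (∀ n, ‖b n‖ ≤ 1) → (cnt N b ⌊T⌋₊ ((N : ℝ) ^ σ / 6) : ℝ) ≤
      (K₁ * 6 ^ 18 + K₂ * 6 ^ a) * ((N : ℝ) ^ (ε / 2) * T ^ (2 - 2 * σ)) := fun b hb => by
    rw [add_mul]
    rcases hor with h | h
    · have h6 : ⌊T⌋₊ ^ 2 ≤ N ^ 3 := by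
        have := pow_le_pow_left₀ (Nat.cast_nonneg _) (hf.trans h) 2
        rw [← Real.rpow_mul_natCast (by linarith), show (3 / 2 : ℝ) * (2 : ℕ) = (3 : ℕ) by norm_num,
          Real.rpow_natCast] at this
        exact_mod_cast this
      refine (h1 N _ hN (Nat.le_floor hNT) h6 σ 6 _ s1 s2 (by norm_num) (by positivity) h5 b
        hb).trans (le_add_of_le_of_nonneg ?_ (by positivity))
      calc _ ≤ K₁ * (N : ℝ) ^ (ε / 2) * 6 ^ 18 * T ^ (2 - 2 * σ) := by gcongr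
        _ = _ := by ring
    · have h6 := hTA.trans (Real.rpow_le_rpow_of_exponent_le hN1 hA)
      refine (h2 N _ hN (Nat.le_floor (by exact_mod_cast h)) (hf.trans h6) σ 6 _ s1 s2
        (by norm_num) (by positivity) h5 b hb).trans (le_add_of_nonneg_of_le (by positivity) ?_)
      have h7 : T ^ (ε / 2 / A') ≤ (N : ℝ) ^ (ε / 2) := by
        refine (Real.rpow_le_rpow hT0 h6 (by positivity)).trans_eq ?_
        rw [← Real.rpow_mul (by linarith), mul_div_cancel₀ _ (by positivity)]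
      have h8 : 0 < ε / 2 / A' := by positivity
      calc _ ≤ K₂ * 6 ^ a * T ^ (2 - 2 * σ + ε / 2 / A') := by gcongr; linarith
        _ ≤ _ := by
          rw [Real.rpow_add (by linarith), mul_comm (T ^ _)]
          gcongr
  have hY : (N : ℝ) + 1 ≤ 2 ^ (Nat.log 2 N + 1) * (N : ℝ) ^ σ := by
    have : N + 1 ≤ 2 ^ (Nat.log 2 N + 1) := Nat.lt_pow_succ_log_self one_lt_two N
    exact le_trans (by exact_mod_cast this) (le_mul_of_one_le_right (by positivity) hV)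
  refine (red_LV hT hN (by positivity) hY hZ hb w1 w2 w3).trans ?_
  have h9 := h3 N hN
  have h10 : (0 : ℝ) ≤ Nat.log 2 N := Nat.cast_nonneg _
  calc _ ≤ (12 * (c * (N : ℝ) ^ (ε / 2))) * ((K₁ * 6 ^ 18 + K₂ * 6 ^ a) *
        ((N : ℝ) ^ (ε / 2) * T ^ (2 - 2 * σ))) := by
        gcongr
        push_cast
        linarith
    _ = 12 * c * (K₁ * 6 ^ 18 + K₂ * 6 ^ a) * ((N : ℝ) ^ (ε / 2) * (N : ℝ) ^ (ε / 2)) *
        T ^ (2 - 2 * σ) := by ring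
    _ = _ := by rw [← Real.rpow_add (by linarith), add_halves]

end Pool.Agent.MP_2a1f0e_nt.DH
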