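import Pool.Agent.MP_2a1f0e_nt.DH.Basic

set_option autoImplicit false

open Finset

namespace Pool.Agent.MP_2a1f0e_nt.DH

open Pool.Agent.MP_2a1f0e_nt.GM

lemma EE_sum_Len {s : Finset ℤ} {g : ℤ → ℝ} (hg : ∀ x ∈ s, 0 ≤ g x) (k L : ℕ) (c : ℕ → ℂ)
    (d : ℕ → ℕ → ℂ) (h : ∀ l ∈ Icc 1 L, c l = ∑ j ∈ range k, d j l) :
    EE s g (PP L c) ≤ k * ∑ j ∈ range k, EE s g (PP L (d j)) := by
  have h1 : ∀ u, ‖PP L c u‖ ^ 2 ≤ k * ∑ j ∈ range k, ‖PP L (d j) u‖ ^ 2 := by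
    intro u
    have e : PP L c u = ∑ j ∈ range k, PP L (d j) u := by
      unfold PP
      rw [sum_comm]
      exact sum_congr rfl fun l hl => by rw [h l hl, sum_mul]
    have h2 := sq_sum_le_card_mul_sum_sq (s := range k) (f := fun j => ‖PP L (d j) u‖)
    rw [card_range] at h2
    rw [e]
    exact (pow_le_pow_left₀ (norm_nonneg _) (norm_sum_le _ _) 2).trans h2
  unfold EE
  rw [sum_comm (s := range k), mul_sum]
  refine sum_le_sum fun x hx => ?_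
  rw [sum_comm (s := range k), mul_sum]
  refine sum_le_sum fun y hy => ?_
  rw [← mul_sum, mul_left_comm]
  exact mul_le_mul_of_nonneg_left (h1 _) (mul_nonneg (hg x hx) (hg y hy))

lemma blk_Len (hI : IdStmt) {L : ℕ} {B : Finset ℕ} (hB : B ⊆ Icc 1 L) (a : ℕ → ℝ)
    (s : Finset ℤ) (g : ℤ → ℝ) :
    EE s g (PP L fun l => ((if l ∈ B then a l else 0 : ℝ) : ℂ)) =
      ∑ l ∈ B, ∑ l' ∈ B, a l * a l' * ‖FT s g ((l : ℝ) / l')‖ ^ 2 := by
  rw [hI]
  symm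
  refine (sum_congr rfl fun l hl => ?_).trans (sum_subset hB fun l _ hl => by simp [hl])
  refine (sum_congr rfl fun l' hl' => ?_).trans (sum_subset hB fun l' _ hl' => by simp [hl'])
  rw [if_pos hl, if_pos hl']

lemma inj_Len {B N : Finset ℕ} {p : ℕ} (hp : 1 ≤ p) (h : ∀ l ∈ B, p * l ∈ N) (G : ℕ → ℝ)
    (hG : ∀ n, 0 ≤ G n) : ∑ l ∈ B, G (p * l) ≤ ∑ n ∈ N, G n := by
  rw [← sum_image (s := B) (g := fun l => p * l) (f := G)
    fun a _ b _ e => Nat.eq_of_mul_eq_mul_left hp e]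
  refine sum_le_sum_of_subset_of_nonneg (fun n hn => ?_) fun n _ _ => hG n
  obtain ⟨l, hl, rfl⟩ := mem_image.1 hn
  exact h l hl

lemma cnt_Len (B P N : Finset ℕ) (F : ℝ → ℝ) (Δ : ℝ) (hF : ∀ v, 0 ≤ F v) (hP : ∀ p ∈ P, 1 ≤ p)
    (h : ∀ p ∈ P, ∀ l ∈ B, p * l ∈ N) (hN : ∀ n ∈ N, n ≠ 0 ∧ (n.divisors.card : ℝ) ≤ Δ) :
    P.card * ∑ l ∈ B, ∑ l' ∈ B, F ((l : ℝ) / l') ≤
      Δ * ∑ n ∈ N, ∑ n' ∈ N, F ((n : ℝ) / n') := by
  have h0 : ∀ n : ℕ, 0 ≤ ∑ n' ∈ N, F ((n : ℝ) / (n' : ℕ)) := fun n => sum_nonneg fun _ _ => hF _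
  have h1 : ∀ p ∈ P, ∑ l ∈ B, ∑ l' ∈ B, F ((l : ℝ) / l') ≤
      ∑ n ∈ N, if p ∣ n then ∑ n' ∈ N, F ((n : ℝ) / n') else 0 := by
    intro p hp
    have hp0 : (p : ℝ) ≠ 0 := by exact_mod_cast (Nat.one_le_iff_ne_zero.1 (hP p hp))
    refine le_trans (sum_le_sum fun l _ => ?_) (inj_Len (hP p hp) (h p hp)
      (fun n => if p ∣ n then ∑ n' ∈ N, F ((n : ℝ) / n') else 0) fun n => ?_)
    · rw [if_pos (dvd_mul_right _ _)]
      refine le_trans (le_of_eq (sum_congr rfl fun l' _ => ?_)) (inj_Len (hP p hp) (h p hp)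
        (fun n' => F (((p * l : ℕ) : ℝ) / n')) fun n => hF _)
      push_cast
      rw [mul_div_mul_left _ _ hp0]
    · split_ifs
      · exact h0 n
      · exact le_rfl
  have h2 := sum_le_sum h1
  rw [sum_const, nsmul_eq_mul, sum_comm (s := P)] at h2
  refine h2.trans ?_
  rw [mul_sum]
  refine sum_le_sum fun n hn => ?_
  rw [← sum_filter, sum_const, nsmul_eq_mul]
  refine mul_le_mul_of_nonneg_right (le_trans ?_ (hN n hn).2) (h0 n)
  exact_mod_cast card_le_card fun p hp =>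
    Nat.mem_divisors.2 ⟨(mem_filter.1 hp).2, (hN n hn).1⟩

lemma big_Len (hI : IdStmt) (hP : PosStmt) {L : ℕ} (hL : 1 ≤ L) {s : Finset ℤ} {g : ℤ → ℝ}
    (hg : ∀ x ∈ s, 0 ≤ g x) :
    ∑ n ∈ Ico L (8 * L), ∑ n' ∈ Ico L (8 * L), ‖FT s g ((n : ℝ) / n')‖ ^ 2 ≤
      3 * ∑ i ∈ range 3, EE s g (KK (2 ^ i * L)) := by
  have h1 := blk_Len hI (L := 8 * L) (B := Ico L (8 * L))
    (fun n hn => by rw [mem_Ico] at hn; rw [mem_Icc]; omega) (fun _ => 1) s g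
  simp only [one_mul] at h1
  rw [← h1]
  have h2 := EE_sum_Len hg 3 (8 * L) (fun l => ((if l ∈ Ico L (8 * L) then 1 else 0 : ℝ) : ℂ))
    (fun i l => ((if l ∈ Ico (2 ^ i * L) (2 * (2 ^ i * L)) then 1 else 0 : ℝ) : ℂ))
    (fun l _ => by
      simp only [sum_range_succ, range_zero, sum_empty, mem_Ico, zero_add, pow_zero, pow_one]
      split_ifs <;> first | omega | simp)
  refine h2.trans ?_
  push_cast
  refine mul_le_mul_of_nonneg_left (sum_le_sum fun i hi => ?_) (by norm_num)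
  have h3 : 2 ^ i ≤ 4 := by
    have := mem_range.1 hi
    interval_cases i <;> norm_num
  have h4 : 1 ≤ 2 ^ i * L := Nat.mul_pos (by positivity) hL
  have h5 : 2 ^ i * L ≤ 4 * L := Nat.mul_le_mul_right _ h3
  generalize 2 ^ i * L = M at h4 h5
  rw [blk_Len hI (L := 8 * L) (B := Ico M (2 * M))
    (fun n hn => by rw [mem_Ico] at hn; rw [mem_Icc]; omega) (fun _ => 1) s g,
    ← blk_Len hI (L := 3 * M) (B := Ico M (2 * M))
    (fun n hn => by rw [mem_Ico] at hn; rw [mem_Icc]; omega) (fun _ => 1) s g, KK_eq_PP]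
  refine hP _ _ _ (fun n => Wt ((n : ℝ) / M)) s g le_rfl (fun l _ => ?_) fun l _ => Wt_nonneg _
  have hM : (0 : ℝ) < M := by exact_mod_cast h4
  split_ifs with h
  · rw [mem_Ico] at h
    rw [Wt_eq_one ((le_div_iff₀ hM).2 (by rw [one_mul]; exact_mod_cast h.1))
      ((div_le_iff₀ hM).2 (by exact_mod_cast h.2.le))]
    simp
  · simpa using Wt_nonneg _

lemma dya_Len {L : ℕ} {Δ : ℝ} (hD : DivB (8 * L) Δ) (F : ℝ → ℝ) (hF : ∀ v, 0 ≤ F v) (j : ℕ) :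
    L * ∑ l ∈ (Icc 1 L).filter (fun l => Nat.log 2 l = j),
      ∑ l' ∈ (Icc 1 L).filter (fun l => Nat.log 2 l = j), hf l * hf l' * F ((l : ℝ) / l') ≤
      Δ * ∑ n ∈ Ico L (8 * L), ∑ n' ∈ Ico L (8 * L), F ((n : ℝ) / n') := by
  set B := (Icc 1 L).filter (fun l => Nat.log 2 l = j) with hB
  have hb : ∀ l ∈ B, 2 ^ j ≤ l ∧ l < 2 * 2 ^ j ∧ l ≤ L := by
    intro l hl
    rw [hB, mem_filter, mem_Icc] at hl
    obtain ⟨⟨a1, a2⟩, rfl⟩ := hl
    refine ⟨Nat.pow_log_le_self 2 (by omega), ?_, a2⟩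
    rw [← pow_succ']
    exact Nat.lt_pow_succ_log_self (by norm_num) l
  have hq : 0 < 2 ^ j := by positivity
  have e1 : L < 2 ^ j * (L / 2 ^ j + 1) := Nat.lt_mul_div_succ L hq
  have e2 : 2 ^ j * (L / 2 ^ j) ≤ L := Nat.mul_div_le L _
  generalize 2 ^ j = q at hb hq e1 e2
  set P := L / q + 1 with hP
  have e3 : q * P ≤ L + q := by rw [hP, mul_add, mul_one]; omega
  have h1 := cnt_Len B (Ico P (2 * P)) (Ico L (8 * L)) F Δ hF
    (fun p hp => le_trans (Nat.le_add_left 1 _) (mem_Ico.1 hp).1)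
    (fun p hp l hl => by
      obtain ⟨a1, a2, a3⟩ := hb l hl
      obtain ⟨a4, a5⟩ := mem_Ico.1 hp
      have a6 : P * q ≤ p * l := Nat.mul_le_mul a4 a1
      have a7 : p * l < 2 * P * (2 * q) := Nat.mul_lt_mul'' a5 a2
      rw [mem_Ico]
      constructor <;> nlinarith)
    (fun n hn => by
      obtain ⟨a1, a2⟩ := mem_Ico.1 hn
      exact ⟨by omega, hD.2 n a2.le⟩)
  rw [Nat.card_Ico, show 2 * P - P = P by omega] at h1
  refine le_trans ?_ h1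
  have hq' : (0 : ℝ) < q := by exact_mod_cast hq
  have h2 : ∑ l ∈ B, ∑ l' ∈ B, hf l * hf l' * F ((l : ℝ) / l') ≤
      1 / q * ∑ l ∈ B, ∑ l' ∈ B, F ((l : ℝ) / l') := by
    rw [mul_sum]
    refine sum_le_sum fun l hl => ?_
    rw [mul_sum]
    refine sum_le_sum fun l' hl' => mul_le_mul_of_nonneg_right ?_ (hF _)
    rw [← hf_sq hq'.le, sq]
    exact mul_le_mul (hf_anti hq' (by exact_mod_cast (hb l hl).1))
      (hf_anti hq' (by exact_mod_cast (hb l' hl').1)) (hf_nonneg _) (hf_nonneg _)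
  refine (mul_le_mul_of_nonneg_left h2 (Nat.cast_nonneg _)).trans ?_
  rw [← mul_assoc]
  refine mul_le_mul_of_nonneg_right ?_ (sum_nonneg fun _ _ => sum_nonneg fun _ _ => hF _)
  rw [mul_one_div, div_le_iff₀ hq', mul_comm]
  exact_mod_cast e1.le

theorem len_stmt (hI : IdStmt) (hP : PosStmt) : LenStmt := by
  intro L Δ s g hL hD hg
  have hL' : (0 : ℝ) < L := by exact_mod_cast hL
  have hΔ : 0 ≤ Δ := zero_le_one.trans hD.1
  have h1 := EE_sum_Len hg (Nat.log 2 L + 1) L (fun l => (hf (l : ℝ) : ℂ))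
    (fun j l => ((if l ∈ (Icc 1 L).filter (fun l => Nat.log 2 l = j) then hf l else 0 : ℝ) : ℂ))
    (fun l hl => by
      rw [sum_eq_single (Nat.log 2 l)]
      · rw [if_pos (by exact mem_filter.2 ⟨hl, rfl⟩)]
      · intro j _ hj
        rw [if_neg fun h => hj (mem_filter.1 h).2.symm, Complex.ofReal_zero]
      · intro h
        exact absurd (mem_range.2 (Nat.lt_succ_of_le (Nat.log_mono_right (mem_Icc.1 hl).2))) h)
  have h2 : ∀ j ∈ range (Nat.log 2 L + 1), EE s g (PP L fun l =>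
      ((if l ∈ (Icc 1 L).filter (fun l => Nat.log 2 l = j) then hf l else 0 : ℝ) : ℂ)) ≤
      Δ * (3 * ∑ i ∈ range 3, EE s g (KK (2 ^ i * L))) / L := by
    intro j _
    rw [blk_Len hI (filter_subset _ _) (fun l => hf l) s g, le_div_iff₀ hL', mul_comm]
    exact (dya_Len hD (fun v => ‖FT s g v‖ ^ 2) (fun _ => sq_nonneg _) j).trans
      (mul_le_mul_of_nonneg_left (big_Len hI hP hL hg) hΔ)
  have h3 := sum_le_card_nsmul _ _ _ h2
  rw [card_range, nsmul_eq_mul] at h3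
  refine h1.trans ((mul_le_mul_of_nonneg_left h3 (Nat.cast_nonneg _)).trans (le_of_eq ?_))
  push_cast
  ring

end Pool.Agent.MP_2a1f0e_nt.DH
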