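import Pool.Agent.MP_2a1f0e_nt.DH.Basic

set_option autoImplicit false

open Finset

namespace Pool.Agent.MP_2a1f0e_nt.DH

open Pool.Agent.MP_2a1f0e_nt.GM

lemma inj_Lev (H : ℕ) (W : Finset ℤ) (P : Finset (ℤ × ℤ))
    (hP : ∀ p ∈ P, p.1 ∈ W ∧ p.2 ∈ W ∧ |p.1 - p.2| ≤ (H : ℤ)) (k : ℤ → ℤ → ℝ)
    (hk : ∀ t d, 0 ≤ k t d) :
    ∑ p ∈ P, k p.1 (p.1 - p.2) ≤ ∑ t ∈ W, ∑ d ∈ Icc (-(H : ℤ)) H, k t d := by
  rw [← Finset.sum_product']
  have hinj : Set.InjOn (fun p : ℤ × ℤ => (p.1, p.1 - p.2)) (P : Set (ℤ × ℤ)) := by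
    intro p _ q _ h
    simp only [Prod.mk.injEq] at h
    apply Prod.ext h.1
    omega
  have h1 : ∑ p ∈ P, k p.1 (p.1 - p.2) =
      ∑ q ∈ P.image (fun p : ℤ × ℤ => (p.1, p.1 - p.2)), k q.1 q.2 := by
    rw [Finset.sum_image hinj]
  rw [h1]
  apply Finset.sum_le_sum_of_subset_of_nonneg
  · intro q hq
    obtain ⟨p, hp, rfl⟩ := Finset.mem_image.1 hq
    obtain ⟨h1, _, h3⟩ := hP p hp
    rw [abs_le] at h3
    simp only [Finset.mem_product, Finset.mem_Icc]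
    exact ⟨h1, h3.1, h3.2⟩
  · intro q _ _
    exact hk _ _

lemma pow7_Lev (x Z : ℝ) (hZ : 0 < Z) (h : Z ≤ x) : x ≤ x ^ 8 / Z ^ 7 := by
  rw [le_div_iff₀ (by positivity)]
  have h0 : 0 ≤ x := le_trans hZ.le h
  have : Z ^ 7 ≤ x ^ 7 := pow_le_pow_left₀ hZ.le h 7
  calc x * Z ^ 7 ≤ x * x ^ 7 := mul_le_mul_of_nonneg_left this h0
    _ = x ^ 8 := by ring

lemma pow6_Lev (x Z : ℝ) (hZ : 0 < Z) (h : Z ≤ x) : x ^ 2 ≤ x ^ 8 / Z ^ 6 := by
  rw [le_div_iff₀ (by positivity)]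
  have : Z ^ 6 ≤ x ^ 6 := pow_le_pow_left₀ hZ.le h 6
  calc x ^ 2 * Z ^ 6 ≤ x ^ 2 * x ^ 6 := mul_le_mul_of_nonneg_left this (by positivity)
    _ = x ^ 8 := by ring

theorem lev_stmt : LevStmt := by
  classical
  intro H z D W P V Z₁ Z₂ Y hz hV hZ₁ hZ₂ hY hP hD
  set g : ℤ → ℝ := fun d => if Z₁ ≤ z d ∧ z d < Z₂ then z d else 0 with hg
  set h : ℤ → ℝ := fun d => if Z₂ ≤ z d then z d else 0 with hh
  have hg0 : ∀ d, 0 ≤ g d := by
    intro d
    simp only [hg]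
    split_ifs
    · exact hz d
    · exact le_rfl
  have hh0 : ∀ d, 0 ≤ h d := by
    intro d
    simp only [hh]
    split_ifs
    · exact hz d
    · exact le_rfl
  have hz8 : ∀ d, 0 ≤ z d ^ 8 := fun d => pow_nonneg (hz d) 8
  refine ⟨g, ?_, ?_, ?_, ?_⟩
  · intro d
    refine ⟨hg0 d, ?_⟩
    simp only [hg]
    split_ifs with c
    · exact c.2.le
    · exact hZ₂.le
  · calc ∑ d ∈ Icc (-(H : ℤ)) H, g d ≤ ∑ d ∈ Icc (-(H : ℤ)) H, z d ^ 8 / Z₁ ^ 7 := by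
          apply Finset.sum_le_sum
          intro d _
          simp only [hg]
          split_ifs with c
          · exact pow7_Lev _ _ hZ₁ c.1
          · exact div_nonneg (hz8 d) (by positivity)
      _ = (∑ d ∈ Icc (-(H : ℤ)) H, z d ^ 8) / Z₁ ^ 7 := by rw [Finset.sum_div]
      _ ≤ Y / Z₁ ^ 7 := div_le_div_of_nonneg_right hY (by positivity)
  · calc ∑ d ∈ Icc (-(H : ℤ)) H, g d ^ 2 ≤ ∑ d ∈ Icc (-(H : ℤ)) H, z d ^ 8 / Z₁ ^ 6 := by
          apply Finset.sum_le_sum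
          intro d _
          simp only [hg]
          split_ifs with c
          · exact pow6_Lev _ _ hZ₁ c.1
          · have := div_nonneg (hz8 d) (show (0 : ℝ) ≤ Z₁ ^ 6 by positivity)
            simpa using this
      _ = (∑ d ∈ Icc (-(H : ℤ)) H, z d ^ 8) / Z₁ ^ 6 := by rw [Finset.sum_div]
      _ ≤ Y / Z₁ ^ 6 := div_le_div_of_nonneg_right hY (by positivity)
  · have hsplit : ∀ d, z d ≤ Z₁ + h d + g d := by
      intro d
      have a1 := hg0 d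
      have a2 := hh0 d
      by_cases c2 : Z₂ ≤ z d
      · have : h d = z d := by simp only [hh, if_pos c2]
        linarith
      · by_cases c1 : Z₁ ≤ z d
        · have : g d = z d := by simp only [hg, if_pos (And.intro c1 (not_le.1 c2))]
          linarith
        · linarith [not_le.1 c1]
    have hH : ∑ d ∈ Icc (-(H : ℤ)) H, h d ≤ Y / Z₂ ^ 7 := by
      calc ∑ d ∈ Icc (-(H : ℤ)) H, h d ≤ ∑ d ∈ Icc (-(H : ℤ)) H, z d ^ 8 / Z₂ ^ 7 := by
            apply Finset.sum_le_sum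
            intro d _
            simp only [hh]
            split_ifs with c
            · exact pow7_Lev _ _ hZ₂ c
            · exact div_nonneg (hz8 d) (by positivity)
        _ = (∑ d ∈ Icc (-(H : ℤ)) H, z d ^ 8) / Z₂ ^ 7 := by rw [Finset.sum_div]
        _ ≤ Y / Z₂ ^ 7 := div_le_div_of_nonneg_right hY (by positivity)
    have e1 : ∑ p ∈ P, h (p.1 - p.2) ≤ W.card * Y / Z₂ ^ 7 := by
      calc ∑ p ∈ P, h (p.1 - p.2) ≤ ∑ t ∈ W, ∑ d ∈ Icc (-(H : ℤ)) H, h d :=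
            inj_Lev H W P hP (fun _ d => h d) (fun _ d => hh0 d)
        _ ≤ ∑ t ∈ W, Y / Z₂ ^ 7 := Finset.sum_le_sum fun _ _ => hH
        _ = W.card * Y / Z₂ ^ 7 := by
            rw [Finset.sum_const, nsmul_eq_mul, mul_div_assoc]
    have e2 : ∑ p ∈ P, g (p.1 - p.2) ≤
        (∑ t ∈ W, ∑ d ∈ Icc (-(H : ℤ)) H, g d * D (t - d) ^ 2) / V ^ 2 := by
      rw [le_div_iff₀ (by positivity), Finset.sum_mul]
      calc ∑ p ∈ P, g (p.1 - p.2) * V ^ 2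
          ≤ ∑ p ∈ P, g (p.1 - p.2) * D (p.1 - (p.1 - p.2)) ^ 2 := by
            apply Finset.sum_le_sum
            intro p hp
            apply mul_le_mul_of_nonneg_left _ (hg0 _)
            rw [sub_sub_cancel]
            exact pow_le_pow_left₀ hV.le (hD _ (hP p hp).2.1) 2
        _ ≤ ∑ t ∈ W, ∑ d ∈ Icc (-(H : ℤ)) H, g d * D (t - d) ^ 2 :=
            inj_Lev H W P hP (fun t d => g d * D (t - d) ^ 2)
              (fun t d => mul_nonneg (hg0 d) (sq_nonneg _))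
    calc ∑ p ∈ P, z (p.1 - p.2) ≤ ∑ p ∈ P, (Z₁ + h (p.1 - p.2) + g (p.1 - p.2)) :=
          Finset.sum_le_sum fun p _ => hsplit _
      _ = P.card * Z₁ + ∑ p ∈ P, h (p.1 - p.2) + ∑ p ∈ P, g (p.1 - p.2) := by
          rw [Finset.sum_add_distrib, Finset.sum_add_distrib, Finset.sum_const, nsmul_eq_mul]
      _ ≤ _ := by linarith

end Pool.Agent.MP_2a1f0e_nt.DH
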