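import Pool.Agent.MP_2a1f0e_nt.DH.Basic
import Pool.Agent.MP_2a1f0e_nt.Power

set_option autoImplicit false

open Finset

namespace Pool.Agent.MP_2a1f0e_nt.DH

open Pool.Agent.MP_2a1f0e_nt.GM

/-- truncation to `[1, L]` -/
noncomputable def cut_Mol (L : ℕ) (a : ℕ → ℂ) : ArithmeticFunction ℂ :=
  ⟨fun n => if n ∈ Icc 1 L then a n else 0, by simp⟩

lemma cut_apply_Mol (L : ℕ) (a : ℕ → ℂ) (n : ℕ) :
    cut_Mol L a n = if n ∈ Icc 1 L then a n else 0 := rfl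

lemma cut_norm_Mol {L : ℕ} {a : ℕ → ℂ} (h : ∀ n, ‖a n‖ ≤ 1) (n : ℕ) : ‖cut_Mol L a n‖ ≤ 1 := by
  rw [cut_apply_Mol]
  split_ifs
  · exact h n
  · simp

lemma cut_sum_Mol (L : ℕ) (a χ : ℕ → ℂ) :
    ∑ n ∈ Icc 1 L, cut_Mol L a n * χ n = ∑ n ∈ Icc 1 L, a n * χ n :=
  sum_congr rfl fun n hn => by rw [cut_apply_Mol, if_pos hn]

lemma dya_Mol (X I : ℕ) (f : ℕ → ℂ) : ∑ k ∈ Ioc 0 (2 ^ I * X), f k =
    ∑ k ∈ Ioc 0 X, f k + ∑ i ∈ range I, ∑ k ∈ Ioc (2 ^ i * X) (2 * (2 ^ i * X)), f k := by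
  induction I with
  | zero => simp
  | succ I ih =>
    rw [sum_range_succ, ← add_assoc, ← ih, sum_Ioc_consecutive _ (Nat.zero_le _) (by omega),
      pow_succ', mul_assoc]

theorem mol_stmt : MolStmt := by
  intro X I y hX hy hI
  have y1 : (1 : ℝ) ≤ y := le_trans (by exact_mod_cast hX) hy
  have hXy : X ≤ ⌊y⌋₊ := Nat.le_floor hy
  have hY : 3 * ⌊y⌋₊ ≤ 2 ^ I := by
    have := Nat.floor_le (by linarith : 0 ≤ y)
    exact_mod_cast (by linarith : 3 * (⌊y⌋₊ : ℝ) ≤ 2 ^ I)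
  have m1 : ∀ n, ‖((ArithmeticFunction.moebius n : ℤ) : ℂ)‖ ≤ 1 := fun n => by
    rw [Complex.norm_intCast]
    exact_mod_cast ArithmeticFunction.abs_moebius_le_one
  have m2 : ∀ n : ℕ, ‖(psi ((n : ℝ) / y) : ℂ)‖ ≤ 1 := fun n => by
    rw [Complex.norm_real, Real.norm_of_nonneg (psi_nonneg _)]
    exact psi_le_one _
  refine ⟨(cut_Mol X (fun n => ((ArithmeticFunction.moebius n : ℤ) : ℂ)) *
    cut_Mol (3 * ⌊y⌋₊) (fun n => (psi ((n : ℝ) / y) : ℂ)) : ArithmeticFunction ℂ), fun k => ?_,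
    fun ρ hρ => ⟨∑ d ∈ Icc 1 X, ((ArithmeticFunction.moebius d : ℤ) : ℂ) * (d : ℂ) ^ (-ρ),
      ?_, ?_⟩⟩
  · rw [ArithmeticFunction.mul_apply, Nat.sum_divisorsAntidiagonal (fun a b => cut_Mol X _ a *
      cut_Mol (3 * ⌊y⌋₊) _ b)]
    refine (norm_sum_le _ _).trans ((sum_le_card_nsmul _ _ 1 fun d _ => ?_).trans (by simp))
    rw [norm_mul]
    exact mul_le_one₀ (cut_norm_Mol m1 _) (norm_nonneg _) (cut_norm_Mol m2 _)
  · refine (norm_sum_le _ _).trans ((sum_le_card_nsmul _ _ 1 fun d hd => ?_).trans (by simp))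
    have d1 := (mem_Icc.1 hd).1
    rw [norm_mul, Complex.norm_natCast_cpow_of_pos d1]
    refine mul_le_one₀ (m1 d) (by positivity) ?_
    exact Real.rpow_le_one_of_one_le_of_nonpos (by exact_mod_cast d1) (by simpa using hρ)
  have key := conv_sum (cut_Mol X fun n => ((ArithmeticFunction.moebius n : ℤ) : ℂ))
    (cut_Mol (3 * ⌊y⌋₊) fun n => (psi ((n : ℝ) / y) : ℂ)) (Icc 1 X) (Icc 1 (3 * ⌊y⌋₊))
    (Ioc 0 (2 ^ I * X)) (fun n hn => if_neg hn) (fun n hn => if_neg hn)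
    (fun x hx => by
      have := (mem_Icc.1 hx).1
      omega)
    (fun x hx => by
      have := (mem_Icc.1 hx).1
      omega)
    (fun a ha b hb => by
      rw [mem_Icc] at ha hb
      refine mem_Ioc.2 ⟨Nat.mul_pos ha.1 hb.1, ?_⟩
      rw [mul_comm]
      exact Nat.mul_le_mul (hb.2.trans hY) ha.2)
    (fun k => (k : ℂ) ^ (-ρ)) fun a b _ _ => by
      rw [Nat.cast_mul, Complex.natCast_mul_natCast_cpow]
  rw [dya_Mol, cut_sum_Mol, cut_sum_Mol] at key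
  rw [Ps, ← key, add_left_inj]
  have e : ∀ k ∈ Ioc 0 X, (cut_Mol X (fun n => ((ArithmeticFunction.moebius n : ℤ) : ℂ)) *
      cut_Mol (3 * ⌊y⌋₊) (fun n => (psi ((n : ℝ) / y) : ℂ))) k = (1 : ArithmeticFunction ℂ) k := by
    intro k hk
    rw [← ArithmeticFunction.coe_moebius_mul_coe_zeta, ArithmeticFunction.mul_apply,
      ArithmeticFunction.mul_apply]
    refine sum_congr rfl fun p hp => ?_
    obtain ⟨k1, k2⟩ := mem_Ioc.1 hk
    have a1 := Nat.fst_mem_divisors_of_mem_antidiagonal hp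
    have a2 := Nat.snd_mem_divisors_of_mem_antidiagonal hp
    have b1 := Nat.pos_of_mem_divisors a1
    have b2 := Nat.pos_of_mem_divisors a2
    have c1 := Nat.divisor_le a1
    have c2 := Nat.divisor_le a2
    have c3 : (p.2 : ℝ) / y ≤ 1 := by
      rw [div_le_one (by linarith)]
      exact le_trans (by exact_mod_cast c2.trans k2) hy
    rw [cut_apply_Mol, cut_apply_Mol, if_pos (mem_Icc.2 ⟨b1, by omega⟩),
      if_pos (mem_Icc.2 ⟨b2, by omega⟩), psi_eq_one c3]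
    simp [ArithmeticFunction.zeta_apply_ne b2.ne']
  rw [sum_congr rfl fun (k : ℕ) hk => congrArg (· * (k : ℂ) ^ (-ρ)) (e k hk),
    sum_eq_single_of_mem 1 (mem_Ioc.2 ⟨one_pos, hX⟩) fun k _ hk => by
      simp [ArithmeticFunction.one_apply_ne hk]]
  simp

end Pool.Agent.MP_2a1f0e_nt.DH
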