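import Pool.Agent.MP_2a1f0e_nt.DH.Basic
import Pool.Agent.MP_2a1f0e_nt.GM.KOne

set_option autoImplicit false

open Finset

namespace Pool.Agent.MP_2a1f0e_nt.DH

open Pool.Agent.MP_2a1f0e_nt.GM

theorem pk_stmt (hD : DecayStmt) (hZ : ZeroStmt) (hP : PoisStmt) : PkStmt := by
  intro δ hδ
  obtain ⟨i, hi⟩ := exists_nat_ge (4 / δ)
  rw [div_le_iff₀ hδ] at hi
  obtain ⟨C, hC, hd⟩ := hD (i + 2)
  obtain ⟨C0, hC0, hz⟩ := hZ
  refine ⟨C0 + 768 * C, by positivity, fun N M L hN hL hLN hM u hu1 => ?_⟩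
  have hN1 : (1 : ℝ) ≤ N := by exact_mod_cast hN
  have hL1 : (1 : ℝ) ≤ L := by exact_mod_cast hL
  have hLN' : (L : ℝ) ≤ 4 * (N : ℝ) ^ 2 := by exact_mod_cast hLN
  have hN0 : (0 : ℝ) < N := by linarith
  have hp : 0 < (N : ℝ) ^ δ := Real.rpow_pos_of_pos hN0 δ
  have hM0 : (0 : ℝ) < M := (mul_pos_iff_of_pos_left hN0).1 (lt_of_lt_of_le (by positivity) hM)
  set q : ℝ := 2 * L / (N * M) with hq
  have hq0 : 0 ≤ q := by positivity
  have hq1 : q ^ i * (N : ℝ) ^ 4 ≤ 1 := by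
    have h1 : q * (N : ℝ) ^ δ ≤ 1 := by
      rw [hq, div_mul_eq_mul_div, div_le_one (by positivity)]
      exact hM
    have h2 : (N : ℝ) ^ 4 ≤ ((N : ℝ) ^ δ) ^ i := by
      rw [← Real.rpow_natCast, ← Real.rpow_mul_natCast hN0.le]
      exact Real.rpow_le_rpow_of_exponent_le hN1 (by push_cast; linarith)
    calc q ^ i * (N : ℝ) ^ 4 ≤ q ^ i * ((N : ℝ) ^ δ) ^ i := by gcongr
      _ = (q * (N : ℝ) ^ δ) ^ i := (mul_pow _ _ _).symm
      _ ≤ 1 := pow_le_one₀ (by positivity) h1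
  have hn : ∀ u ξ : ℝ, ‖(N : ℂ) * pw (N : ℝ) u * HH u ξ‖ = N * ‖HH u ξ‖ := fun u ξ => by
    rw [norm_mul, norm_mul, norm_pw, mul_one, Complex.norm_natCast]
  have key : ‖KK N u - Kb N M u‖ ≤
      N * (C0 * kp u) + 6 * (N * (C * (q ^ i * (128 * (N : ℝ) ^ 2)))) := by
    rw [Kb, mul_sum]
    refine tail_KOne (hP N hN u) (Ms M) (by have := kp_pos u; positivity) (by positivity)
      ?_ fun m hm0 hm => ?_
    · rw [hn, Int.cast_zero, zero_mul]
      exact mul_le_mul_of_nonneg_left (hz _) hN0.le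
    · have hm1 : (M : ℝ) ≤ |(m : ℝ)| := by
        have h1 : (M : ℤ) ≤ |m| := by
          rw [mem_Ms] at hm
          rw [le_abs]
          omega
        exact_mod_cast h1
      rw [hn, mul_assoc, mul_assoc]
      refine mul_le_mul_of_nonneg_left ((hd _ _ (mul_ne_zero (Int.cast_ne_zero.2 hm0)
        hN0.ne')).trans (mul_le_mul_of_nonneg_left ?_ hC.le)) hN0.le
      exact pt_KOne hN1 hM0 hLN' (by positivity) (by linarith) hm0 hm1 i
  have h3 : q ^ i * (N : ℝ) ^ 3 ≤ 1 :=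
    (mul_le_mul_of_nonneg_left (pow_le_pow_right₀ hN1 (by norm_num)) (by positivity)).trans hq1
  have h4 : 0 ≤ (N : ℝ) * kp u := mul_nonneg hN0.le (kp_pos u).le
  have h5 := mul_le_mul_of_nonneg_left h3 hC.le
  have h6 := mul_nonneg hC.le h4
  refine key.trans ?_
  nlinarith

end Pool.Agent.MP_2a1f0e_nt.DH
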