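import Pool.Agent.MP_2a1f0e_nt.DH.Basic
set_option autoImplicit false
open Finset
namespace Pool.Agent.MP_2a1f0e_nt.DH
open Pool.Agent.MP_2a1f0e_nt.GM

lemma cp_Sm {x : ℝ} (hx : 0 < x) (c : ℂ) :
    (x : ℂ) ^ c = Complex.exp ((Real.log x : ℂ) * c) := by
  rw [Complex.cpow_def_of_ne_zero (by exact_mod_cast hx.ne'), Complex.ofReal_log hx.le]

lemma split_Sm {x y : ℝ} (hx : 0 < x) (hy : 0 < y) (m : ℝ) (ρ : ℂ) :
    (x : ℂ) ^ (-ρ) = ((x / y : ℝ) : ℂ) ^ (-(ρ - Complex.I * m)) *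
      ((y : ℂ) ^ (-(ρ - Complex.I * m)) * pw x (-m)) := by
  rw [cp_Sm hx, cp_Sm hy, cp_Sm (div_pos hx hy), pw, ← Complex.exp_add, ← Complex.exp_add,
    Real.log_div hx.ne' hy.ne']
  congr 1
  push_cast
  ring

lemma wt_Sm {y : ℝ} (hy : 5 ≤ y) (n : ℕ) :
    om ((n : ℝ) / y) = om ((n : ℝ) / y) * Wt ((n : ℝ) / (⌊y⌋₊ : ℕ)) := by
  by_cases h : (n : ℝ) / y ≤ 1 ∨ 5 / 3 ≤ (n : ℝ) / y
  · rw [om_eq_zero h, zero_mul]
  · rw [not_or, not_le, not_le, lt_div_iff₀ (by linarith), div_lt_iff₀ (by linarith)] at h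
    have h1 := Nat.floor_le (by linarith : 0 ≤ y)
    have h2 := Nat.lt_floor_add_one y
    have h3 : (5 : ℝ) ≤ (⌊y⌋₊ : ℕ) := by exact_mod_cast Nat.le_floor (by exact_mod_cast hy)
    rw [Wt_eq_one, mul_one]
    · rw [le_div_iff₀ (by linarith)]
      linarith [h.1]
    · rw [div_le_iff₀ (by linarith)]
      linarith [h.2]

theorem sm_stmt (hM : MelStmt) : SmStmt := by
  obtain ⟨C, hC, h⟩ := hM om 1 (5 / 3) one_pos contDiff_om fun x hx => om_eq_zero hx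
  refine ⟨C, hC, fun y m ρ hy h0 h1 h2 h3 => ?_⟩
  have hy0 : 0 < y := by linarith
  obtain ⟨φ, hφ, hb, he⟩ := h (-(ρ - Complex.I * m)) (by
    refine (Complex.norm_le_abs_re_add_abs_im _).trans ?_
    have e1 : (-(ρ - Complex.I * m)).re = -ρ.re := by simp
    have e2 : (-(ρ - Complex.I * m)).im = -(ρ.im - m) := by simp
    rw [e1, e2, abs_neg, abs_neg, abs_of_nonneg h0, abs_of_nonneg (by linarith)]
    linarith)
  have hi : ∀ (F : ℝ → ℂ) (B : ℝ), Continuous F → (∀ ξ, ‖F ξ‖ ≤ B) →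
      MeasureTheory.Integrable fun ξ => φ ξ * F ξ := fun F B hF hB =>
    ((integrable_kp.const_mul C).mul_const B).mono' (hφ.mul hF).aestronglyMeasurable
      (Filter.Eventually.of_forall fun ξ => by
        rw [norm_mul]
        exact mul_le_mul (hb ξ) (hB ξ) (norm_nonneg _) (mul_nonneg hC.le (kp_pos ξ).le))
  have hc : ∀ n : ℕ, Continuous fun ξ : ℝ =>
      pw y (-ξ) * ((Wt ((n : ℝ) / (⌊y⌋₊ : ℕ)) : ℂ) * pw (n : ℝ) (ξ - m)) := fun n =>
    ((continuous_pw y).comp continuous_neg).mul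
      (continuous_const.mul ((continuous_pw _).comp (continuous_id.sub continuous_const)))
  have key : Sm y ρ = (y : ℂ) ^ (-(ρ - Complex.I * m)) *
      ∫ ξ : ℝ, φ ξ * (pw y (-ξ) * KK ⌊y⌋₊ (ξ - m)) := by
    unfold Sm KK
    simp only [mul_sum]
    rw [MeasureTheory.integral_finsetSum _ fun n _ => hi _ 1 (hc n) fun ξ => by
      rw [norm_mul, norm_mul, norm_pw, norm_pw, one_mul, mul_one, Complex.norm_real,
        Real.norm_of_nonneg (Wt_nonneg _)]
      exact Wt_le_one _, mul_sum]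
    refine sum_congr rfl fun n hn => ?_
    have hn0 : (0 : ℝ) < n := by exact_mod_cast (mem_Icc.1 hn).1
    have e : ∀ ξ : ℝ, φ ξ * (pw y (-ξ) * ((Wt ((n : ℝ) / (⌊y⌋₊ : ℕ)) : ℂ) * pw (n : ℝ) (ξ - m))) =
        φ ξ * pw ((n : ℝ) / y) ξ * ((Wt ((n : ℝ) / (⌊y⌋₊ : ℕ)) : ℂ) * pw (n : ℝ) (-m)) := by
      intro ξ
      rw [pw_div hn0.ne' hy0.ne', sub_eq_add_neg, pw_add]
      ring
    simp only [e]
    rw [MeasureTheory.integral_mul_const, ← he _ (div_pos hn0 hy0), ← Complex.ofReal_natCast n,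
      split_Sm hn0 hy0 m ρ]
    conv_lhs => rw [wt_Sm hy n, Complex.ofReal_mul]
    ring
  have e1 : (-(ρ - Complex.I * m)).re = -ρ.re := by simp
  rw [key, norm_mul, Complex.norm_cpow_eq_rpow_re_of_pos hy0, e1, mul_comm C, mul_assoc,
    ← MeasureTheory.integral_const_mul C]
  refine mul_le_mul_of_nonneg_left ?_ (by positivity)
  refine MeasureTheory.norm_integral_le_of_norm_le ?_ (Filter.Eventually.of_forall fun ξ => ?_)
  · refine MeasureTheory.Integrable.const_mul ?_ C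
    have hK : Continuous fun ξ : ℝ => ‖KK ⌊y⌋₊ (ξ - m)‖ :=
      ((continuous_KK _).comp (continuous_id.sub continuous_const)).norm
    exact (integrable_kp.mul_const (3 * (⌊y⌋₊ : ℕ) : ℝ)).mono'
      (continuous_kp.mul hK).aestronglyMeasurable (Filter.Eventually.of_forall fun ξ => by
        rw [Real.norm_of_nonneg (mul_nonneg (kp_pos ξ).le (norm_nonneg _))]
        exact mul_le_mul_of_nonneg_left (norm_KK_le _ _) (kp_pos ξ).le)
  · rw [norm_mul, norm_mul, norm_pw, one_mul, ← mul_assoc]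
    exact mul_le_mul_of_nonneg_right (hb ξ) (norm_nonneg _)

end Pool.Agent.MP_2a1f0e_nt.DH
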