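import Pool.Agent.MP_2a1f0e_nt.DH.Basic

set_option autoImplicit false

open Finset

namespace Pool.Agent.MP_2a1f0e_nt.DH

open Pool.Agent.MP_2a1f0e_nt.GM

open Complex Filter Topology

lemma deriv_Za {f f' : ℝ → ℂ} {b C : ℝ} {k : ℕ} (h0 : f 0 = 0)
    (hf : ∀ u ∈ Set.Icc 0 b, HasDerivAt f (f' u) u)
    (hb : ∀ u ∈ Set.Icc 0 b, ‖f' u‖ ≤ C * u ^ k) :
    ∀ u ∈ Set.Icc 0 b, ‖f u‖ ≤ C / (k + 1) * u ^ (k + 1) := by
  intro u hu
  refine image_norm_le_of_norm_deriv_right_le_deriv_boundary (f := f) (f' := f') (a := 0) (b := b)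
    (fun x hx => (hf x hx).continuousAt.continuousWithinAt)
    (fun x hx => (hf x (Set.Ico_subset_Icc_self hx)).hasDerivWithinAt)
    (B := fun u => C / (k + 1) * u ^ (k + 1)) (B' := fun u => C * u ^ k) (by simp [h0])
    (fun x => ?_) (fun x hx => hb x (Set.Ico_subset_Icc_self hx)) hu
  refine ((hasDerivAt_pow (k + 1) x).const_mul (C / (k + 1))).congr_deriv ?_
  push_cast; field_simp

lemma cp_Za (a : ℂ) {n u : ℝ} (h : 0 < n + u) :
    HasDerivAt (fun u : ℝ => ((n + u : ℝ) : ℂ) ^ a) (a * ((n + u : ℝ) : ℂ) ^ (a - 1)) u := by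
  have h1 : HasDerivAt (fun z : ℂ => ((n : ℂ) + z) ^ a)
      (a * ((n : ℂ) + u) ^ (a - 1) * 1) (u : ℂ) := by
    have h2 : HasDerivAt (fun z : ℂ => (n : ℂ) + z) 1 (u : ℂ) :=
      (hasDerivAt_id (u : ℂ)).const_add (n : ℂ)
    exact h2.cpow_const (by
      have : (n : ℂ) + u = ((n + u : ℝ) : ℂ) := by push_cast; ring
      rw [this]; exact ofReal_mem_slitPlane.mpr h)
  have h3 := h1.comp_ofReal
  push_cast
  exact h3.congr_deriv (by ring)

/-- The error of the left endpoint rule, times `s - 1`. -/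
noncomputable def U_Za (n : ℝ) (s : ℂ) : ℂ :=
  (n : ℂ) ^ (1 - s) - ((n + 1 : ℝ) : ℂ) ^ (1 - s) - (s - 1) * (n : ℂ) ^ (-s)

lemma mid_Za {s : ℂ} (hs : -1 ≤ s.re) {n : ℝ} (hn : 0 < n) :
    ‖U_Za n s‖ ≤ ‖s - 1‖ * (‖s‖ * n ^ (-s.re - 1)) := by
  set M : ℝ := ‖s‖ * n ^ (-s.re - 1) with hM
  have hM0 : 0 ≤ M := by positivity
  have hp : ∀ u ∈ Set.Icc (0 : ℝ) 1, 0 < n + u := fun u hu => by linarith [hu.1]
  have hb : ∀ y : ℝ, n ≤ y → ‖-s * (y : ℂ) ^ (-s - 1)‖ ≤ M := by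
    intro y hy
    rw [norm_mul, norm_neg, norm_cpow_eq_rpow_re_of_pos (by linarith), hM]
    have e : (-s - 1).re = -s.re - 1 := by simp
    rw [e]
    exact mul_le_mul_of_nonneg_left
      (Real.rpow_le_rpow_of_nonpos hn hy (by linarith)) (by positivity)
  have h2 := deriv_Za (k := 0) (C := M) (b := 1)
    (f := fun u => ((n + u : ℝ) : ℂ) ^ (-s) - (n : ℂ) ^ (-s))
    (f' := fun u => -s * ((n + u : ℝ) : ℂ) ^ (-s - 1)) (by simp)
    (fun u hu => (cp_Za (-s) (hp u hu)).sub_const _)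
    (fun u hu => by simpa using hb (n + u) (by linarith [hu.1]))
  have h1 := deriv_Za (k := 1) (b := 1) (C := ‖s - 1‖ * M)
    (f := fun u => (n : ℂ) ^ (1 - s) - ((n + u : ℝ) : ℂ) ^ (1 - s) - (s - 1) * (n : ℂ) ^ (-s) * u)
    (f' := fun u => (s - 1) * (((n + u : ℝ) : ℂ) ^ (-s) - (n : ℂ) ^ (-s)))
    (by simp)
    (fun u hu => (((cp_Za (1 - s) (hp u hu)).const_sub _).sub
        (((hasDerivAt_id u).ofReal_comp).const_mul ((s - 1) * (n : ℂ) ^ (-s)))).congr_deriv (by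
          rw [show 1 - s - 1 = -s by ring]; push_cast; ring))
    (fun u hu => by
      rw [norm_mul, mul_assoc]
      refine mul_le_mul_of_nonneg_left ((h2 u hu).trans (le_of_eq ?_)) (norm_nonneg _)
      push_cast; ring)
    1 (by norm_num)
  simp only [ofReal_one, mul_one, one_pow] at h1
  refine h1.trans ?_
  have : 0 ≤ ‖s - 1‖ * M := by positivity
  push_cast
  linarith

lemma step_Za {a y : ℝ} (ha : 0 < a) (hy : 0 < y) :
    (y + 1) ^ (-a - 1) ≤ (y ^ (-a) - (y + 1) ^ (-a)) / a := by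
  have hd : ∀ x ∈ Set.Icc y (y + 1), HasDerivAt (fun x : ℝ => x ^ (-a)) (-a * x ^ (-a - 1)) x :=
    fun x hx => Real.hasDerivAt_rpow_const (Or.inl (hy.trans_le hx.1).ne')
  obtain ⟨c, hc, e⟩ := exists_hasDerivAt_eq_slope (fun x : ℝ => x ^ (-a))
    (fun x => -a * x ^ (-a - 1)) (by linarith : y < y + 1)
    (fun x hx => (hd x hx).continuousAt.continuousWithinAt)
    fun x hx => hd x (Set.Ioo_subset_Icc_self hx)
  have h1 : (y + 1) ^ (-a - 1) ≤ c ^ (-a - 1) :=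
    Real.rpow_le_rpow_of_nonpos (hy.trans hc.1) hc.2.le (by linarith)
  rw [add_sub_cancel_left, div_one] at e
  rw [le_div_iff₀ ha]
  nlinarith

lemma tel_Za {a y : ℝ} (ha : 0 < a) (hy : 0 < y) :
    HasSum (fun m : ℕ => ((y + m) ^ (-a) - (y + m + 1) ^ (-a)) / a) (y ^ (-a) / a) := by
  have h0 : ∀ m : ℕ, 0 < y + m := fun m => by positivity
  rw [hasSum_iff_tendsto_nat_of_nonneg fun m =>
    (Real.rpow_nonneg (by linarith [h0 m]) _).trans (step_Za ha (h0 m))]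
  have h1 : Tendsto (fun m : ℕ => (y + m) ^ (-a)) atTop (𝓝 0) :=
    (tendsto_rpow_neg_atTop ha).comp
      (tendsto_atTop_add_const_left _ _ tendsto_natCast_atTop_atTop)
  have h2 := (h1.const_sub (y ^ (-a))).div_const a
  rw [sub_zero] at h2
  refine h2.congr fun m => ?_
  have h3 := sum_range_sub' (fun m : ℕ => (y + m) ^ (-a)) m
  simp only [Nat.cast_add, Nat.cast_one, Nat.cast_zero, add_zero, ← add_assoc] at h3
  rw [← sum_div, h3]

lemma bd_Za {s : ℂ} (hs : 0 < s.re) {N : ℕ} (hN : 1 ≤ N) (m : ℕ) :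
    ‖U_Za (N + m + 1) s‖ ≤ ‖s - 1‖ * (‖s‖ *
      ((((N : ℝ) + m) ^ (-s.re) - ((N : ℝ) + m + 1) ^ (-s.re)) / s.re)) := by
  have hN' : (1 : ℝ) ≤ N := by exact_mod_cast hN
  have hm : (0 : ℝ) ≤ m := m.cast_nonneg
  refine (mid_Za (by linarith) (by linarith)).trans ?_
  have h := step_Za (a := s.re) (y := (N : ℝ) + m) hs (by linarith)
  gcongr

lemma gt_Za {s : ℂ} (hs : 1 < s.re) {N : ℕ} (hN : 1 ≤ N) :
    ∑' m : ℕ, U_Za (N + m + 1) s = ((N + 1 : ℝ) : ℂ) ^ (1 - s) -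
      (s - 1) * (riemannZeta s - ∑ n ∈ Icc 1 N, (n : ℂ) ^ (-s)) := by
  have hN' : (1 : ℝ) ≤ N := by exact_mod_cast hN
  have hsum : Summable fun m : ℕ => U_Za (N + m + 1) s :=
    Summable.of_norm_bounded (((tel_Za (a := s.re) (y := (N : ℝ)) (by linarith)
      (by linarith)).summable.mul_left _).mul_left _) (bd_Za (by linarith) hN)
  have key : ∀ M : ℕ, ∑ m ∈ range M, U_Za (N + m + 1) s = ((N + 1 : ℝ) : ℂ) ^ (1 - s) -
      ((N + M + 1 : ℝ) : ℂ) ^ (1 - s) - (s - 1) *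
        (∑ n ∈ Icc 1 (N + M), (n : ℂ) ^ (-s) - ∑ n ∈ Icc 1 N, (n : ℂ) ^ (-s)) := by
    intro M
    induction M with
    | zero => simp
    | succ M ih =>
      rw [sum_range_succ, ih, ← add_assoc N, sum_Icc_succ_top (by omega), U_Za,
        show (N : ℝ) + (M + 1 : ℕ) + 1 = N + M + 1 + 1 by push_cast; ring]
      push_cast
      ring
  have hz : Tendsto (fun M : ℕ => ∑ n ∈ Icc 1 (N + M), (n : ℂ) ^ (-s)) atTop
      (𝓝 (riemannZeta s)) := by
    have h := (summable_riemannZetaSummand hs).of_norm.hasSum.tendsto_sum_nat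
    rw [tsum_riemannZetaSummand hs] at h
    refine (h.comp (tendsto_add_atTop_nat (N + 1))).congr fun M => ?_
    simp only [Function.comp]
    rw [range_eq_Ico, sum_eq_sum_Ico_succ_bot (by omega), map_zero, zero_add,
      show M + (N + 1) = N + M + 1 by ring]
    rfl
  have hA : Tendsto (fun M : ℕ => ((N + M + 1 : ℝ) : ℂ) ^ (1 - s)) atTop (𝓝 0) := by
    rw [tendsto_zero_iff_norm_tendsto_zero]
    have h1 : Tendsto (fun M : ℕ => (N : ℝ) + M + 1) atTop atTop :=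
      tendsto_atTop_add_const_right _ _
        (tendsto_atTop_add_const_left _ _ tendsto_natCast_atTop_atTop)
    refine ((tendsto_rpow_neg_atTop (y := s.re - 1) (by linarith)).comp h1).congr fun M => ?_
    simp only [Function.comp]
    rw [norm_cpow_eq_rpow_re_of_pos (by positivity)]
    simp
  have h := (hA.const_sub (((N + 1 : ℝ) : ℂ) ^ (1 - s))).sub
    ((hz.sub_const (∑ n ∈ Icc 1 N, (n : ℂ) ^ (-s))).const_mul (s - 1))
  rw [sub_zero] at h
  exact tendsto_nhds_unique hsum.hasSum.tendsto_sum_nat (h.congr fun M => (key M).symm)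

lemma pow_Za {x : ℂ} (hx : x ≠ 0) {f : ℂ → ℂ} (hf : Differentiable ℂ f) :
    Differentiable ℂ fun z => x ^ f z := hf.const_cpow (Or.inl hx)

lemma eq_Za {s : ℂ} (hs : 1 / 2 ≤ s.re) {N : ℕ} (hN : 1 ≤ N) :
    ∑' m : ℕ, U_Za (N + m + 1) s = ((N + 1 : ℝ) : ℂ) ^ (1 - s) -
      (riemannZeta₁ s - (s - 1) * ∑ n ∈ Icc 1 N, (n : ℂ) ^ (-s)) := by
  have hN' : (1 : ℝ) ≤ N := by exact_mod_cast hN
  set B := ‖s‖ + 3 with hB
  have hB0 : 3 ≤ B := by linarith [norm_nonneg s]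
  set D : Set ℂ := {z | 1 / 4 < z.re} ∩ Metric.ball 0 B with hD
  have ho : IsOpen D := (isOpen_lt continuous_const continuous_re).inter Metric.isOpen_ball
  have hc : Convex ℝ D := (convex_halfSpace_re_gt _).inter (convex_ball _ _)
  have h1 : DifferentiableOn ℂ (fun z => ∑' m : ℕ, U_Za (N + m + 1) z) D := by
    refine differentiableOn_tsum_of_summable_norm
      (((tel_Za (a := 1 / 4) (y := (N : ℝ)) (by norm_num)
        (by linarith)).summable.mul_left B).mul_left (B + 1))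
      (fun m => Differentiable.differentiableOn ?_) ho fun m z hz => ?_
    · have hm : (0 : ℝ) ≤ m := m.cast_nonneg
      exact ((pow_Za (ofReal_ne_zero.2 (by linarith)) (by fun_prop)).sub
        (pow_Za (ofReal_ne_zero.2 (by linarith)) (by fun_prop))).sub
        (Differentiable.mul (by fun_prop) (pow_Za (ofReal_ne_zero.2 (by linarith)) (by fun_prop)))
    · have hm : (0 : ℝ) ≤ m := m.cast_nonneg
      have hz1 : 1 / 4 < z.re := hz.1
      have hz2 : ‖z‖ ≤ B := (mem_ball_zero_iff.1 hz.2).le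
      refine (mid_Za (by linarith) (by linarith)).trans ?_
      have a1 : ‖z - 1‖ ≤ B + 1 := (norm_sub_le _ _).trans (by rw [norm_one]; linarith)
      have a3 := step_Za (a := 1 / 4) (y := (N : ℝ) + m) (by norm_num) (by linarith)
      have a4 : ((N : ℝ) + m + 1) ^ (-z.re - 1) ≤ ((N : ℝ) + m + 1) ^ (-(1 / 4) - 1 : ℝ) :=
        Real.rpow_le_rpow_of_exponent_le (by linarith) (by linarith)
      have a5 : 0 ≤ ((N : ℝ) + m + 1) ^ (-z.re - 1) := Real.rpow_nonneg (by linarith) _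
      gcongr
      exact a4.trans a3
  have h2 : Differentiable ℂ fun z => ((N + 1 : ℝ) : ℂ) ^ (1 - z) -
      (riemannZeta₁ z - (z - 1) * ∑ n ∈ Icc 1 N, (n : ℂ) ^ (-z)) := by
    refine (pow_Za (ofReal_ne_zero.2 (by linarith)) (by fun_prop)).sub
      (differentiable_riemannZeta₁.sub (Differentiable.mul (by fun_prop) ?_))
    refine Differentiable.fun_sum fun n hn => pow_Za ?_ (by fun_prop)
    have := (mem_Icc.1 hn).1
    exact_mod_cast (by omega : n ≠ 0)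
  have h2D : (2 : ℂ) ∈ D := ⟨by norm_num, by rw [mem_ball_zero_iff]; norm_num; linarith⟩
  refine (h1.analyticOnNhd ho).eqOn_of_preconnected_of_eventuallyEq
    (h2.differentiableOn.analyticOnNhd ho) hc.isPreconnected h2D ?_
    ⟨by show 1 / 4 < s.re; linarith, by rw [mem_ball_zero_iff]; linarith⟩
  filter_upwards [(isOpen_lt continuous_const continuous_re).mem_nhds
    (show (2 : ℂ) ∈ {z : ℂ | 1 < z.re} by norm_num)] with z hz
  have hz1 : z ≠ 1 := fun h => by simp [h] at hz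
  rw [gt_Za hz hN, riemannZeta_eq_inv_sub_mul hz1]
  field_simp [sub_ne_zero.2 hz1]

theorem za_stmt : ZaStmt := by
  intro s h0 hs him N hN
  have hN' : (1 : ℝ) ≤ N := by exact_mod_cast hN
  have hs1 : s ≠ 1 := fun h => by rw [h] at him; norm_num at him
  have hs' : s - 1 ≠ 0 := sub_ne_zero.2 hs1
  have hlt : s.re < 1 := lt_of_not_ge fun h => riemannZeta_ne_zero_of_one_le_re h h0
  have h1 := tsum_of_norm_bounded (((tel_Za (a := s.re) (y := (N : ℝ)) (by linarith)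
    (by linarith)).mul_left ‖s‖).mul_left ‖s - 1‖) (bd_Za (by linarith) hN)
  have hz : riemannZeta₁ s = 0 := by
    rw [riemannZeta_eq_inv_sub_mul hs1] at h0
    exact (mul_eq_zero.1 h0).resolve_left (inv_ne_zero hs')
  have e : ∑ n ∈ Icc 1 N, (n : ℂ) ^ (-s) =
      (∑' m : ℕ, U_Za (N + m + 1) s) / (s - 1) - ((N + 1 : ℝ) : ℂ) ^ (1 - s) / (s - 1) := by
    rw [eq_Za hs hN, hz]
    field_simp
    ring
  have hn : 0 < ‖s - 1‖ := norm_pos_iff.2 hs'
  have him' : s.im ≤ ‖s - 1‖ := by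
    have := abs_im_le_norm (s - 1)
    simp only [sub_im, one_im, sub_zero] at this
    exact (le_abs_self _).trans this
  have a1 : ‖(∑' m : ℕ, U_Za (N + m + 1) s) / (s - 1)‖ ≤ 2 * (‖s‖ * (N : ℝ) ^ (-s.re)) := by
    rw [norm_div, div_le_iff₀ hn]
    refine h1.trans ?_
    have : (N : ℝ) ^ (-s.re) / s.re ≤ 2 * (N : ℝ) ^ (-s.re) := by
      rw [div_le_iff₀ (by linarith)]
      have : 0 ≤ (N : ℝ) ^ (-s.re) := by positivity
      nlinarith
    calc ‖s - 1‖ * (‖s‖ * ((N : ℝ) ^ (-s.re) / s.re))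
        ≤ ‖s - 1‖ * (‖s‖ * (2 * (N : ℝ) ^ (-s.re))) := by gcongr
      _ = _ := by ring
  have a2 : ‖((N + 1 : ℝ) : ℂ) ^ (1 - s) / (s - 1)‖ ≤ 2 * ((N : ℝ) ^ (1 - s.re) / s.im) := by
    rw [norm_div, norm_cpow_eq_rpow_re_of_pos (by linarith), sub_re, one_re]
    have b1 : ((N : ℝ) + 1) ^ (1 - s.re) ≤ 2 * (N : ℝ) ^ (1 - s.re) := by
      calc ((N : ℝ) + 1) ^ (1 - s.re) ≤ (2 * (N : ℝ)) ^ (1 - s.re) :=
            Real.rpow_le_rpow (by linarith) (by linarith) (by linarith)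
        _ = 2 ^ (1 - s.re) * (N : ℝ) ^ (1 - s.re) := Real.mul_rpow (by norm_num) (by linarith)
        _ ≤ 2 ^ (1 : ℝ) * (N : ℝ) ^ (1 - s.re) := by
            gcongr
            · norm_num
            · linarith
        _ = _ := by rw [Real.rpow_one]
    rw [← mul_div_assoc]
    gcongr
  have a3 : 0 ≤ ‖s‖ * (N : ℝ) ^ (-s.re) := by positivity
  have a4 : 0 ≤ (N : ℝ) ^ (1 - s.re) / s.im := div_nonneg (by positivity) (by linarith)
  rw [e]
  refine (norm_sub_le _ _).trans ?_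
  linarith

end Pool.Agent.MP_2a1f0e_nt.DH
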