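import Pool.Agent.MP_2a1f0e_nt.DH.Basic
set_option autoImplicit false
open Finset
namespace Pool.Agent.MP_2a1f0e_nt.DH
open Pool.Agent.MP_2a1f0e_nt.GM

theorem abel_Zb (p : ℕ → ℝ) (a : ℕ → ℂ) (X : ℕ) :
    ∑ n ∈ Icc 1 X, (p n : ℂ) * a n =
      ∑ n ∈ Icc 1 X, ((p n - p (n + 1) : ℝ) : ℂ) * ∑ k ∈ Icc 1 n, a k +
        p (X + 1) * ∑ k ∈ Icc 1 X, a k := by
  induction X with
  | zero => simp
  | succ X ih =>
    rw [sum_Icc_succ_top (Nat.le_add_left 1 X), sum_Icc_succ_top (Nat.le_add_left 1 X), ih,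
      sum_Icc_succ_top (Nat.le_add_left 1 X)]
    push_cast
    ring

theorem tele_Zb (p : ℕ → ℝ) (X : ℕ) : ∑ n ∈ Icc 1 X, (p n - p (n + 1)) = p 1 - p (X + 1) := by
  induction X with
  | zero => simp
  | succ X ih => rw [sum_Icc_succ_top (Nat.le_add_left 1 X), ih]; ring

theorem far_Zb {y : ℝ} (hy : 1 ≤ y) {n : ℕ} (hn : 3 * ⌊y⌋₊ < n) : 5 / 3 ≤ (n : ℝ) / y := by
  have h1 := Nat.lt_floor_add_one y
  have h2 : (1 : ℝ) ≤ ⌊y⌋₊ := by exact_mod_cast Nat.le_floor (by exact_mod_cast hy)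
  have h3 : (3 * ⌊y⌋₊ + 1 : ℝ) ≤ n := by exact_mod_cast hn
  rw [le_div_iff₀ (by linarith)]
  linarith

theorem rpow_Zb {T β x : ℝ} (hT : 1 ≤ T) (h0 : 0 ≤ β) (h1 : β ≤ 1) (hx : T ^ 2 / 2 ≤ x) :
    x ^ (-β) ≤ 2 * T ^ (1 - 2 * β) / T := by
  have hT0 : 0 < T := by linarith
  refine (Real.rpow_le_rpow_of_nonpos (by positivity) hx (by linarith)).trans ?_
  have e : (T ^ 2) ^ (-β) = T ^ (1 - 2 * β) / T := by
    rw [← Real.rpow_two, ← Real.rpow_mul hT0.le, ← Real.rpow_sub_one hT0.ne']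
    congr 1
    ring
  have h2 : (2 : ℝ) ^ β ≤ 2 := by
    simpa using Real.rpow_le_rpow_of_exponent_le one_le_two h1
  rw [Real.div_rpow (by positivity) zero_le_two, e, Real.rpow_neg zero_le_two, div_inv_eq_mul,
    mul_div_assoc, mul_comm]
  gcongr

theorem zb_stmt (hZ : ZaStmt) : ZbStmt := by
  intro ρ T y hρ h1 h2 hT h3 h4 h5 h6
  have hT0 : 0 < T := by linarith
  have hy : 1 ≤ y := by nlinarith
  have hy0 : 0 < y := by linarith
  have hu : 0 < T ^ (1 - 2 * ρ.re) := Real.rpow_pos_of_pos hT0 _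
  have hz : psi (((3 * ⌊y⌋₊ + 1 : ℕ) : ℝ) / y) = 0 :=
    psi_eq_zero (le_trans (by norm_num) (far_Zb hy (Nat.lt_succ_self _)))
  have hfl : y / 2 ≤ ⌊y⌋₊ := by
    have h1 := Nat.lt_floor_add_one y
    have h2 : (1 : ℝ) ≤ ⌊y⌋₊ := by exact_mod_cast Nat.le_floor (by exact_mod_cast hy)
    linarith
  have hρn : ‖ρ‖ ≤ 4 * T := by
    have := Complex.norm_le_abs_re_add_abs_im ρ
    rw [abs_of_nonneg (by linarith), abs_of_nonneg (by linarith)] at this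
    linarith
  rw [Ps, abel_Zb (fun n => psi ((n : ℝ) / y)), hz, Complex.ofReal_zero, zero_mul, add_zero]
  refine (norm_sum_le_of_le _ (n := fun n : ℕ => (psi ((n : ℝ) / y) - psi (((n + 1 : ℕ) : ℝ) / y)) *
    (100 * T ^ (1 - 2 * ρ.re))) fun n hn => ?_).trans ?_
  · have hw : 0 ≤ psi ((n : ℝ) / y) - psi (((n + 1 : ℕ) : ℝ) / y) :=
      sub_nonneg.2 (psi_anti (by gcongr; omega))
    rw [norm_mul, Complex.norm_real, Real.norm_of_nonneg hw]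
    by_cases hc : n < ⌊y⌋₊
    · have : ((n + 1 : ℕ) : ℝ) ≤ y := (Nat.cast_le.2 hc).trans (Nat.floor_le hy0.le)
      rw [psi_eq_one ((div_le_one hy0).2 this), psi_eq_one ((div_le_one hy0).2
        ((Nat.cast_le.2 n.le_succ).trans this)), sub_self, zero_mul, zero_mul]
    refine mul_le_mul_of_nonneg_left ((hZ ρ hρ h1 (hT.trans h3) n (mem_Icc.1 hn).1).trans ?_) hw
    have hn0 : (0 : ℝ) < n := by exact_mod_cast (mem_Icc.1 hn).1
    have hn1 : (⌊y⌋₊ : ℝ) ≤ n := by exact_mod_cast not_lt.1 hc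
    have hn2 : (n : ℝ) ≤ 6 * T ^ 2 := by
      have : (n : ℝ) ≤ 3 * ⌊y⌋₊ := by exact_mod_cast (mem_Icc.1 hn).2
      linarith [Nat.floor_le hy0.le]
    have hb := rpow_Zb (x := n) hT (by linarith : 0 ≤ ρ.re) h2 (by linarith)
    have e : (n : ℝ) ^ (1 - ρ.re) = n * (n : ℝ) ^ (-ρ.re) := by
      rw [sub_eq_add_neg, Real.rpow_add hn0, Real.rpow_one]
    rw [e]
    calc 4 * (n * (n : ℝ) ^ (-ρ.re) / ρ.im + ‖ρ‖ * (n : ℝ) ^ (-ρ.re))
        ≤ 4 * (6 * T ^ 2 * (2 * T ^ (1 - 2 * ρ.re) / T) / T +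
          4 * T * (2 * T ^ (1 - 2 * ρ.re) / T)) := by gcongr
      _ = 80 * T ^ (1 - 2 * ρ.re) := by field_simp; ring
      _ ≤ _ := by linarith
  · rw [← sum_mul, tele_Zb (fun n => psi ((n : ℝ) / y)), hz, sub_zero]
    exact mul_le_of_le_one_left (by positivity) (psi_le_one _)

theorem step_Zb (ρ : ℂ) {y : ℝ} (hy : 1 ≤ y) : Ps (y * (4 / 3)) ρ = Ps y ρ + Sm y ρ := by
  have hs : Icc 1 (3 * ⌊y⌋₊) ⊆ Icc 1 (3 * ⌊y * (4 / 3)⌋₊) :=
    Icc_subset_Icc_right (Nat.mul_le_mul_left 3 (Nat.floor_mono (by linarith)))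
  have hf : ∀ n ∈ Icc 1 (3 * ⌊y * (4 / 3)⌋₊), n ∉ Icc 1 (3 * ⌊y⌋₊) → 5 / 3 ≤ (n : ℝ) / y :=
    fun n h1 h2 => far_Zb hy (not_le.1 fun h => h2 (mem_Icc.2 ⟨(mem_Icc.1 h1).1, h⟩))
  rw [Ps, Ps, Sm, sum_subset hs fun n h1 h2 => by
      rw [psi_eq_zero (le_trans (by norm_num) (hf n h1 h2)), Complex.ofReal_zero, zero_mul],
    sum_subset hs fun n h1 h2 => by
      rw [om_eq_zero (Or.inr (hf n h1 h2)), Complex.ofReal_zero, zero_mul], ← sum_add_distrib]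
  refine sum_congr rfl fun n _ => ?_
  rw [om, show (n : ℝ) / (y * (4 / 3)) = 3 / 4 * (n / y) by field_simp]
  push_cast
  ring

theorem tel_stmt : TelStmt := by
  intro ρ y J hy
  induction J with
  | zero => simp
  | succ J ih =>
    rw [sum_range_succ, ← add_assoc, ← ih, pow_succ, ← mul_assoc]
    exact step_Zb ρ (one_le_mul_of_one_le_of_one_le hy (one_le_pow₀ (by norm_num)))

end Pool.Agent.MP_2a1f0e_nt.DH
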