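import Pool.Agent.MP_2a1f0e_nt.DH.MainLV
import Pool.Agent.MP_2a1f0e_nt.DH.Pk
import Pool.Agent.MP_2a1f0e_nt.DH.Za
import Pool.Agent.MP_2a1f0e_nt.DH.Zb
import Pool.Agent.MP_2a1f0e_nt.DH.Mol
import Pool.Agent.MP_2a1f0e_nt.DH.Sm
import Pool.Agent.MP_2a1f0e_nt.DH.Ks
import Pool.Agent.MP_2a1f0e_nt.DH.Ca
import Pool.Agent.MP_2a1f0e_nt.DH.Cb
import Pool.Agent.MP_2a1f0e_nt.DH.Core
import Pool.Agent.MP_2a1f0e_nt.DH.Det
import Pool.Agent.MP_2a1f0e_nt.DH.Dya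
import Pool.Agent.MP_2a1f0e_nt.DH.Mul

set_option autoImplicit false

namespace Pool.Agent.MP_2a1f0e_nt.DH

open Pool.Agent.MP_2a1f0e_nt.GM

theorem det_all : DetStmt :=
  det_stmt (core_stmt (zb_stmt za_stmt) tel_stmt mol_stmt
    (ca_stmt (sm_stmt mel_stmt)
      (ks_stmt (pk_stmt decay_stmt zero_stmt (pois_stmt decay_stmt)) avg_all mom_all))
    (cb_stmt ty_stmt))

theorem mul_all : MulStmt := mul_stmt

theorem dh_all : ZdP (7 / 9) fun σ => 2 * (1 - σ) :=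
  mul_stmt _ _ (by norm_num) (fun σ _ h => by linarith) (dya_stmt det_all pow_all)

end Pool.Agent.MP_2a1f0e_nt.DH
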