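import Pool.Agent.MP_2a1f0e_nt.DH.Basic

set_option autoImplicit false

open Finset

namespace Pool.Agent.MP_2a1f0e_nt.DH

open Pool.Agent.MP_2a1f0e_nt.GM

lemma off_Master {G₁ G₂ h Z c : ℝ} (h1 : 0 ≤ G₁) (hh : 0 < h) (hZ : 0 < Z) (hc : 1 ≤ c)
    (e1 : G₁ ≤ c * (h ^ 12 / Z ^ 7)) (e2 : G₂ ≤ c * (h ^ 12 / Z ^ 6)) :
    G₁ * √(h ^ 8 * G₂ + G₁ ^ 2) ≤ (c * (h ^ 12 / Z ^ 7 + h ^ 11 / Z ^ 5)) ^ 2 := by
  have hr : 0 ≤ c * (h ^ 10 / Z ^ 3) := by positivity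
  have h2 : h ^ 8 * G₂ ≤ (c * (h ^ 10 / Z ^ 3)) ^ 2 := by
    calc h ^ 8 * G₂ ≤ h ^ 8 * (c * (h ^ 12 / Z ^ 6)) := by gcongr
      _ = c * (h ^ 10 / Z ^ 3) ^ 2 := by field_simp
      _ ≤ c ^ 2 * (h ^ 10 / Z ^ 3) ^ 2 := by
          gcongr
          nlinarith
      _ = _ := by ring
  have h3 : √(h ^ 8 * G₂ + G₁ ^ 2) ≤ c * (h ^ 10 / Z ^ 3) + G₁ := by
    refine Real.sqrt_le_iff.2 ⟨by positivity, ?_⟩
    nlinarith [mul_nonneg hr h1]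
  have hp : 0 ≤ c * (h ^ 12 / Z ^ 7) := by positivity
  have hq : 0 ≤ c * (h ^ 11 / Z ^ 5) := by positivity
  calc G₁ * √(h ^ 8 * G₂ + G₁ ^ 2)
      ≤ c * (h ^ 12 / Z ^ 7) * (c * (h ^ 10 / Z ^ 3) + c * (h ^ 12 / Z ^ 7)) :=
        mul_le_mul e1 (h3.trans (by linarith)) (Real.sqrt_nonneg _) hp
    _ = (c * (h ^ 11 / Z ^ 5)) ^ 2 + (c * (h ^ 12 / Z ^ 7)) ^ 2 := by field_simp
    _ ≤ _ := by nlinarith [mul_nonneg hp hq]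

lemma pairs_Master {H : ℕ} {W : Finset ℤ} {P : Finset (ℤ × ℤ)}
    (hP : ∀ p ∈ P, p.1 ∈ W ∧ p.2 ∈ W ∧ |p.1 - p.2| ≤ (H : ℤ)) (k : ℤ → ℝ) (hk : ∀ d, 0 ≤ k d) :
    ∑ p ∈ P, k (p.1 - p.2) ≤
      W.card * ∑ u ∈ Icc (-((2 * H : ℕ) : ℤ)) ((2 * H : ℕ) : ℤ), k u := by
  have inj : Set.InjOn (fun p : ℤ × ℤ => (p.1, p.1 - p.2)) P := fun p _ q _ h => by
    simp only [Prod.mk.injEq] at h
    exact Prod.ext h.1 (by omega)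
  have e := sum_image (s := P) (g := fun p : ℤ × ℤ => (p.1, p.1 - p.2)) (f := fun q => k q.2) inj
  rw [← e]
  calc _ ≤ ∑ q ∈ W ×ˢ Icc (-((2 * H : ℕ) : ℤ)) ((2 * H : ℕ) : ℤ), k q.2 := by
        refine sum_le_sum_of_subset_of_nonneg (fun q hq => ?_) fun q _ _ => hk _
        obtain ⟨p, hp, rfl⟩ := mem_image.1 hq
        obtain ⟨a1, -, a3⟩ := hP p hp
        rw [abs_le] at a3
        refine mem_product.2 ⟨a1, mem_Icc.2 ⟨?_, ?_⟩⟩ <;> push_cast <;> omega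
    _ = _ := by
        rw [sum_product]
        simp only [sum_const, nsmul_eq_mul]

theorem master_stmt (hA : SetAStmt) (hB : SetBStmt) (hV : AvgStmt) (hQ : BilStmt)
    (hP : PrStmt) (hL : LevStmt) : MasterStmt := by
  intro ε hε
  obtain ⟨CA, hCA, hA⟩ := hA (ε / 3) (by positivity)
  obtain ⟨CB, hCB, hB⟩ := hB (ε / 3) (by positivity)
  obtain ⟨CV, hCV, hV⟩ := hV
  obtain ⟨κ, hκ⟩ : ∃ κ : ℝ, κ = 4 * CV + 1 := ⟨_, rfl⟩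
  have hκ1 : 1 ≤ κ := by linarith
  have hκ7 : 1 ≤ κ ^ 7 := one_le_pow₀ hκ1
  refine ⟨(4 + 8 * CV) * (CA ^ 2 * CB * κ ^ 7), one_le_mul_of_one_le_of_one_le (by linarith)
    (one_le_mul_of_one_le_of_one_le (one_le_mul_of_one_le_of_one_le (one_le_pow₀ hCA) hCB) hκ7),
    fun N H T hN hNH hH hT b hb V Z hV0 hZ W hW hlow => ?_⟩
  have hN1 : (1 : ℝ) ≤ N := by exact_mod_cast hN
  have hN0 : (0 : ℝ) < N := by linarith
  have hH1 : 1 ≤ H := hN.trans hNH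
  have hH0 : (0 : ℝ) < H := by exact_mod_cast hH1
  obtain ⟨M, k1, k2, k3⟩ := hA N H hN hNH hH
  have k4 := hB N T hN hT W hW
  obtain ⟨P, p1, p2, p3⟩ := hP N T H b V W hN hH1 hb hV0.le hW hlow
  obtain ⟨y, hy⟩ : ∃ y : ℝ, y = (N : ℝ) ^ (ε / 3) := ⟨_, rfl⟩
  have hy1 : 1 ≤ y := hy ▸ Real.one_le_rpow hN1 (by positivity)
  have hy3 : (N : ℝ) ^ ε = y ^ 3 := by
    rw [hy, ← Real.rpow_mul_natCast hN0.le]
    congr 1
    push_cast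
    ring
  rw [← hy] at k2 k3 k4
  obtain ⟨n, hn⟩ : ∃ n : ℝ, n = √N := ⟨_, rfl⟩
  have hn0 : 0 < n := hn ▸ Real.sqrt_pos.2 hN0
  have hn2 : (N : ℝ) = n ^ 2 := by rw [hn, Real.sq_sqrt hN0.le]
  have hnk : ∀ (k : ℕ) (r : ℝ), r = k / 2 → (N : ℝ) ^ r = n ^ k := fun k r hr => by
    rw [hn, Real.sqrt_eq_rpow, ← Real.rpow_mul_natCast hN0.le, hr]
    congr 1
    ring
  obtain ⟨h, hh⟩ : ∃ h : ℝ, h = (H : ℝ) ^ (1 / 12 : ℝ) := ⟨_, rfl⟩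
  have hh0 : 0 < h := hh ▸ Real.rpow_pos_of_pos hH0 _
  have hhk : ∀ (k : ℕ) (r : ℝ), r = k / 12 → (H : ℝ) ^ r = h ^ k := fun k r hr => by
    rw [hh, ← Real.rpow_mul_natCast hH0.le, hr]
    congr 1
    ring
  have h12 : (H : ℝ) = h ^ 12 := by rw [← hhk 12 1 (by norm_num), Real.rpow_one]
  rw [hhk 8 (2 / 3) (by norm_num)] at k3
  unfold RHS
  rw [hnk 7 (7 / 2) (by norm_num), hnk 3 (3 / 2) (by norm_num), hnk 5 (5 / 2) (by norm_num),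
    hhk 11 (11 / 12) (by norm_num), hy3]
  obtain ⟨Z₀, hZ₀⟩ : ∃ Z₀ : ℝ, Z₀ = V ^ 2 / n ^ 3 := ⟨_, rfl⟩
  have hZ₀0 : 0 < Z₀ := by rw [hZ₀]; positivity
  rw [← hZ₀]
  obtain ⟨R, hR⟩ : ∃ R : ℝ, R = W.card := ⟨_, rfl⟩
  have hR0 : 0 ≤ R := hR ▸ Nat.cast_nonneg _
  obtain ⟨Pc, hPc⟩ : ∃ Pc : ℝ, Pc = P.card := ⟨_, rfl⟩
  have hPc0 : 0 ≤ Pc := hPc ▸ Nat.cast_nonneg _
  obtain ⟨a, ha⟩ : ∃ a : ℝ, a = CA * y := ⟨_, rfl⟩
  have ha1 : 1 ≤ a := ha ▸ one_le_mul_of_one_le_of_one_le hCA hy1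
  have haC : CA ≤ a := ha ▸ le_mul_of_one_le_right (by linarith) hy1
  obtain ⟨β, hβ⟩ : ∃ β : ℝ, β = CB * y := ⟨_, rfl⟩
  have hβ1 : 1 ≤ β := hβ ▸ one_le_mul_of_one_le_of_one_le hCB hy1
  obtain ⟨c, hc⟩ : ∃ c : ℝ, c = a * κ ^ 7 := ⟨_, rfl⟩
  have hc1 : 1 ≤ c := hc ▸ one_le_mul_of_one_le_of_one_le ha1 hκ7
  obtain ⟨Y, hY⟩ : ∃ Y : ℝ, Y = h ^ 12 / Z₀ ^ 7 + h ^ 11 / Z₀ ^ 5 := ⟨_, rfl⟩
  have hY0 : 0 ≤ Y := by rw [hY]; positivity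
  rw [← ha] at k2 k3
  rw [← hβ, ← hR] at k4
  rw [← hR, ← hPc] at p2
  rw [← hPc] at p3
  rw [← hR]
  have q1 : √(EE W (fun _ => 1) (KK N)) ≤ β * (n ^ 2 * √R + R * n) := by
    refine Real.sqrt_le_iff.2 ⟨by positivity, k4.trans ?_⟩
    have e : (β * (n ^ 2 * √R + R * n)) ^ 2 =
        β ^ 2 * (R * (n ^ 2) ^ 2 + R ^ 2 * n ^ 2 + 2 * n ^ 3 * R * √R) := by
      have := Real.sq_sqrt hR0
      linear_combination β ^ 2 * n ^ 4 * this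
    rw [e, hn2]
    have : 0 ≤ 2 * n ^ 3 * R * √R := by positivity
    exact mul_le_mul (by nlinarith) (by linarith) (by positivity) (by positivity)
  have q2 : ∀ ξ : ℝ, ∑ p ∈ P, (1 : ℝ) * ‖ZZ M ((p.1 : ℝ) - p.2 + ξ)‖ ≤
      Pc * (Z₀ / κ) + R * (a * H) / Z ^ 7 +
        (2 * (a * N) * Z * N * R + a * n * (c * Y) * (β * (n ^ 2 * √R + R * n))) / V ^ 2 := by
    intro ξ
    obtain ⟨g, g1, g2, g3, g4⟩ := hL H (fun d => ‖ZZ M ((d : ℝ) + ξ)‖) (fun t => ‖DP N b t‖) W P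
      V (Z₀ / κ) Z (a * H) (fun _ => norm_nonneg _) hV0 (by positivity) hZ (k2 ξ) p1 hlow
    have g5 := hQ N M H (a * N) Z b W g hN hb g1 (k1.trans (by gcongr))
    rw [← hR, ← hPc] at g4
    rw [← hR] at g5
    have g6 := off_Master (G₁ := ∑ d ∈ Icc (-(H : ℤ)) H, g d)
      (G₂ := ∑ d ∈ Icc (-(H : ℤ)) H, g d ^ 2) (sum_nonneg fun d _ => (g1 d).1) hh0 hZ₀0 hc1
      (g2.trans (le_of_eq (by rw [hc, h12]; field_simp)))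
      (g3.trans (by
        have e : a * H / (Z₀ / κ) ^ 6 = a * κ ^ 6 * (h ^ 12 / Z₀ ^ 6) := by
          rw [h12]
          field_simp
        rw [e, hc]
        gcongr
        norm_num))
    rw [← hY] at g6
    have g7 : √(EE (Icc (-(H : ℤ)) H) g (Kb N M)) ≤ a * n * (c * Y) := by
      refine Real.sqrt_le_iff.2 ⟨by positivity, (k3 g fun d => (g1 d).1).trans ?_⟩
      rw [mul_assoc (a * N), mul_pow, mul_pow a n, hn2]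
      exact mul_le_mul (mul_le_mul_of_nonneg_right (by nlinarith) (by positivity)) g6
        (mul_nonneg (sum_nonneg fun d _ => (g1 d).1) (Real.sqrt_nonneg _)) (by positivity)
    have g8 := mul_le_mul g7 q1 (Real.sqrt_nonneg _) (by positivity)
    simp only [one_mul]
    simp only [Int.cast_sub] at g4 g5
    refine g4.trans ?_
    gcongr
    linarith
  have q3 := hV N M hN (ℤ × ℤ) P (fun _ => 1) (fun p => (p.1 : ℝ) - p.2) _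
    (fun _ _ => zero_le_one) q2
  simp only [one_mul] at q3
  rw [← hn] at q3
  have q4 := pairs_Master p1 (fun u => ‖KK N (u : ℝ) - Kb N M (u : ℝ)‖) fun _ => norm_nonneg _
  simp only [Int.cast_sub] at q4
  rw [← hR] at q4
  have q5 : ∑ p ∈ P, ‖KK N ((p.1 : ℝ) - p.2)‖ ≤
      ∑ p ∈ P, ‖KK N ((p.1 : ℝ) - p.2) - Kb N M ((p.1 : ℝ) - p.2)‖ +
        ∑ p ∈ P, ‖Kb N M ((p.1 : ℝ) - p.2)‖ := by
    rw [← sum_add_distrib]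
    exact sum_le_sum fun p _ => norm_le_norm_sub_add _ _
  have q6 : R * ∑ u ∈ Icc (-((2 * H : ℕ) : ℤ)) ((2 * H : ℕ) : ℤ),
      ‖KK N (u : ℝ) - Kb N M (u : ℝ)‖ ≤ R * (a * N) :=
    mul_le_mul_of_nonneg_left (k1.trans (by gcongr)) hR0
  have q7 := p3.trans (mul_le_mul_of_nonneg_left (q5.trans (add_le_add (q4.trans q6) q3))
    (by positivity))
  have q8 : 2 * N * (CV * n * (Pc * (Z₀ / κ))) ≤ Pc * V ^ 2 / 2 := by
    have e : 2 * N * (CV * n * (Pc * (Z₀ / κ))) = Pc * V ^ 2 * (2 * CV / κ) := by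
      rw [hn2, hZ₀]
      field_simp
    rw [e, div_eq_mul_one_div (Pc * V ^ 2)]
    refine mul_le_mul_of_nonneg_left ?_ (by positivity)
    rw [div_le_div_iff₀ (by positivity) (by norm_num)]
    linarith
  obtain ⟨t1, ht1⟩ : ∃ t : ℝ, t = (N : ℝ) ^ 2 * R := ⟨_, rfl⟩
  obtain ⟨t2, ht2⟩ : ∃ t : ℝ, t = n ^ 7 * R * Z / V ^ 2 := ⟨_, rfl⟩
  obtain ⟨t3, ht3⟩ : ∃ t : ℝ, t = n ^ 3 * R * H / Z ^ 7 := ⟨_, rfl⟩
  obtain ⟨t4, ht4⟩ : ∃ t : ℝ, t = ((N : ℝ) ^ 3 * √R + n ^ 5 * R) / V ^ 2 *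
    (H / Z₀ ^ 7 + h ^ 11 / Z₀ ^ 5) := ⟨_, rfl⟩
  have s1 : 0 ≤ t1 := by rw [ht1]; positivity
  have s2 : 0 ≤ t2 := by rw [ht2]; positivity
  have s3 : 0 ≤ t3 := by rw [ht3]; positivity
  have s4 : 0 ≤ t4 := by rw [ht4]; positivity
  rw [← ht1, ← ht2, ← ht3, ← ht4]
  have q9 : Pc * V ^ 2 ≤ 4 * a * t1 + 8 * CV * a * t2 + 4 * CV * a * t3 +
      4 * CV * (a * c * β) * t4 := by
    have e : 2 * N * (R * (a * N) + CV * n * (Pc * (Z₀ / κ) + R * (a * H) / Z ^ 7 +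
        (2 * (a * N) * Z * N * R + a * n * (c * Y) * (β * (n ^ 2 * √R + R * n))) / V ^ 2)) =
        2 * N * (CV * n * (Pc * (Z₀ / κ))) + (2 * a * t1 + 4 * CV * a * t2 + 2 * CV * a * t3 +
          2 * CV * (a * c * β) * t4) := by
      rw [ht1, ht2, ht3, ht4, hY, ← h12, hn2]
      ring
    rw [e] at q7
    linarith
  obtain ⟨D, hD⟩ : ∃ D : ℝ, D = a * c * β := ⟨_, rfl⟩
  have haD : a ≤ D := by
    rw [hD, mul_assoc]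
    exact le_mul_of_one_le_right (by linarith) (one_le_mul_of_one_le_of_one_le hc1 hβ1)
  have eD : (4 + 8 * CV) * (CA ^ 2 * CB * κ ^ 7) * y ^ 3 = (4 + 8 * CV) * D := by
    rw [hD, hc, hβ, ha]
    ring
  rw [eD]
  rw [← hD] at q9
  have q10 : Pc * V ^ 2 ≤ (4 + 8 * CV) * D * (t1 + t2 + t3 + t4) := by
    have hD0 : 0 ≤ D := by linarith
    have u1 := mul_le_mul_of_nonneg_right haD s1
    have u2 := mul_le_mul_of_nonneg_left (mul_le_mul_of_nonneg_right haD s2) hCV.le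
    have u3 := mul_le_mul_of_nonneg_left (mul_le_mul_of_nonneg_right haD s3) hCV.le
    have v1 := mul_nonneg hCV.le (mul_nonneg hD0 s1)
    have v2 := mul_nonneg hD0 s2
    have v3 := mul_nonneg hD0 s3
    have v4 := mul_nonneg hD0 s4
    have v5 := mul_nonneg hCV.le v3
    have v6 := mul_nonneg hCV.le v4
    linarith
  calc R ^ 2 * V ^ 2 ≤ ((T : ℝ) / H + 1) * Pc * V ^ 2 := by gcongr
    _ = ((T : ℝ) / H + 1) * (Pc * V ^ 2) := by ring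
    _ ≤ ((T : ℝ) / H + 1) * ((4 + 8 * CV) * D * (t1 + t2 + t3 + t4)) := by gcongr
    _ = _ := by ring

end Pool.Agent.MP_2a1f0e_nt.DH
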