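import Pool.Agent.MP_2a1f0e_nt.DH.Basic

set_option autoImplicit false

open Finset

namespace Pool.Agent.MP_2a1f0e_nt.DH

open Pool.Agent.MP_2a1f0e_nt.GM

open MeasureTheory FourierTransform

lemma decay_Mel {g₀ g₁ g₂ : ℝ → ℂ} (h₀ : ∀ y, HasDerivAt g₀ (g₁ y) y)
    (h₁ : ∀ y, HasDerivAt g₁ (g₂ y) y) (i₀ : Integrable g₀) (i₁ : Integrable g₁)
    (i₂ : Integrable g₂) (w : ℝ) :
    ‖𝓕 g₀ w‖ ≤ ((∫ y, ‖g₀ y‖) + ∫ y, ‖g₂ y‖) * kp (2 * Real.pi * w) := by
  have e₀ : deriv g₀ = g₁ := funext fun y => (h₀ y).deriv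
  have e₁ : deriv g₁ = g₂ := funext fun y => (h₁ y).deriv
  have f₀ := Real.fourier_deriv i₀ (fun y => (h₀ y).differentiableAt) (e₀ ▸ i₁)
  have f₁ := Real.fourier_deriv i₁ (fun y => (h₁ y).differentiableAt) (e₁ ▸ i₂)
  rw [e₀] at f₀
  rw [e₁, f₀] at f₁
  have n₀ : ‖𝓕 g₀ w‖ ≤ ∫ y, ‖g₀ y‖ :=
    VectorFourier.norm_fourierIntegral_le_integral_norm _ _ _ _ _
  have n₂ : ‖𝓕 g₂ w‖ ≤ ∫ y, ‖g₂ y‖ :=
    VectorFourier.norm_fourierIntegral_le_integral_norm _ _ _ _ _
  have e : ‖(2 * Real.pi * Complex.I * w : ℂ)‖ = |2 * Real.pi * w| := by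
    rw [show (2 * Real.pi * Complex.I * w : ℂ) = ((2 * Real.pi * w : ℝ) : ℂ) * Complex.I by
      push_cast; ring, norm_mul, Complex.norm_I, mul_one, Complex.norm_real, Real.norm_eq_abs]
  rw [f₁] at n₂
  simp only [norm_smul, e] at n₂
  rw [← mul_assoc, abs_mul_abs_self] at n₂
  rw [kp, mul_one_div, le_div_iff₀ (by positivity)]
  nlinarith

lemma inv_Mel {g : ℝ → ℂ} {A : ℝ} (hc : Continuous g) (hi : Integrable g)
    (hb : ∀ w, ‖𝓕 g w‖ ≤ A * kp (2 * Real.pi * w)) :
    ∃ φ : ℝ → ℂ, Continuous φ ∧ (∀ ξ, ‖φ ξ‖ ≤ A * kp ξ) ∧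
      ∀ x : ℝ, g (Real.log x) = ∫ ξ : ℝ, φ ξ * pw x ξ := by
  have hpi : (0 : ℝ) < 2 * Real.pi := Real.two_pi_pos
  have c1 : Continuous (𝓕 g) := VectorFourier.fourierIntegral_continuous
    Real.continuous_fourierChar (by exact continuous_inner) hi
  have i1 : Integrable (𝓕 g) :=
    ((integrable_kp.comp_mul_left' hpi.ne').const_mul A).mono' c1.aestronglyMeasurable
      (Filter.Eventually.of_forall hb)
  refine ⟨fun ξ => (((2 * Real.pi)⁻¹ : ℝ) : ℂ) * 𝓕 g (ξ / (2 * Real.pi)), by fun_prop,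
    fun ξ => ?_, fun x => ?_⟩
  · have h := hb (ξ / (2 * Real.pi))
    rw [mul_div_cancel₀ _ hpi.ne'] at h
    rw [norm_mul, Complex.norm_real, Real.norm_of_nonneg (by positivity)]
    refine (mul_le_of_le_one_left (norm_nonneg _) (inv_le_one_of_one_le₀ ?_)).trans h
    linarith [Real.pi_gt_three]
  · have h := Measure.integral_comp_div
      (fun w : ℝ => (((2 * Real.pi)⁻¹ : ℝ) : ℂ) * 𝓕 g w * pw x (2 * Real.pi * w)) (2 * Real.pi)
    simp only [mul_div_cancel₀ _ hpi.ne'] at h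
    rw [h, ← congrFun (hc.fourierInv_fourier_eq hi i1) (Real.log x), Real.fourierInv_eq',
      ← integral_smul, abs_of_pos hpi]
    refine integral_congr_ae (Filter.Eventually.of_forall fun w => ?_)
    have e : ((2 * Real.pi : ℝ) : ℂ) * (((2 * Real.pi)⁻¹ : ℝ) : ℂ) = 1 := by
      rw [← Complex.ofReal_mul, mul_inv_cancel₀ hpi.ne', Complex.ofReal_one]
    simp only [smul_eq_mul, Complex.real_smul, pw]
    rw [← mul_assoc, ← mul_assoc, e, one_mul, mul_comm]
    congr 2
    simp only [RCLike.inner_apply, conj_trivial]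
    push_cast
    ring

lemma main_Mel {F : ℝ → ℂ} (hF : ContDiff ℝ (⊤ : ℕ∞) F) (hs : HasCompactSupport F) :
    ∃ C : ℝ, 0 < C ∧ ∀ c : ℂ, ‖c‖ ≤ 2 → ∃ φ : ℝ → ℂ, Continuous φ ∧ (∀ ξ, ‖φ ξ‖ ≤ C * kp ξ) ∧
      ∀ x : ℝ, F (Real.log x) * Complex.exp (c * Real.log x) = ∫ ξ : ℝ, φ ξ * pw x ξ := by
  obtain ⟨R, hR⟩ := hs.isCompact.isBounded.exists_norm_le
  have hF1 : ContDiff ℝ (⊤ : ℕ∞) (deriv F) := (contDiff_infty_iff_deriv.1 hF).2
  have hF2 : ContDiff ℝ (⊤ : ℕ∞) (deriv (deriv F)) := (contDiff_infty_iff_deriv.1 hF1).2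
  have d0 : ∀ y, HasDerivAt F (deriv F y) y := fun y =>
    ((contDiff_infty_iff_deriv.1 hF).1 y).hasDerivAt
  have d1 : ∀ y, HasDerivAt (deriv F) (deriv (deriv F) y) y := fun y =>
    ((contDiff_infty_iff_deriv.1 hF1).1 y).hasDerivAt
  have c0 := hF.continuous
  have c1 := hF1.continuous
  have c2 := hF2.continuous
  have i0 : Integrable F := c0.integrable_of_hasCompactSupport hs
  have i1 : Integrable (deriv F) := c1.integrable_of_hasCompactSupport hs.deriv
  have i2 : Integrable (deriv (deriv F)) := c2.integrable_of_hasCompactSupport hs.deriv.deriv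
  have z : ∀ y ∉ tsupport F, F y = 0 ∧ deriv F y = 0 ∧ deriv (deriv F) y = 0 := fun y hy =>
    ⟨image_eq_zero_of_notMem_tsupport hy,
      Function.notMem_support.1 fun h => hy (support_deriv_subset h),
      Function.notMem_support.1 fun h => hy (tsupport_deriv_subset (support_deriv_subset h))⟩
  set B := Real.exp (2 * R) with hB
  set A₀ := ∫ y, B * ‖F y‖ with hA₀
  set A₂ := ∫ y, B * (‖deriv (deriv F) y‖ + 4 * ‖deriv F y‖ + 4 * ‖F y‖) with hA₂
  have p0 : 0 ≤ A₀ := integral_nonneg fun y => by positivity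
  have p2 : 0 ≤ A₂ := integral_nonneg fun y => by positivity
  refine ⟨A₀ + A₂ + 1, by positivity, fun c hc => ?_⟩
  have de : ∀ y : ℝ, HasDerivAt (fun y : ℝ => Complex.exp (c * y)) (Complex.exp (c * y) * c) y :=
    fun y => by
      simpa using (((hasDerivAt_id y).ofReal_comp).const_mul c).cexp
  have ce : Continuous fun y : ℝ => Complex.exp (c * y) := by fun_prop
  have be : ∀ y ∈ tsupport F, ‖Complex.exp (c * y)‖ ≤ B := fun y hy => by
    refine (Complex.norm_exp_le_exp_norm _).trans (Real.exp_le_exp.2 ?_)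
    rw [norm_mul, Complex.norm_real]
    exact mul_le_mul hc (hR y hy) (norm_nonneg _) (by norm_num)
  have ie : ∀ G : ℝ → ℂ, Continuous G → (∀ y ∉ tsupport F, G y = 0) →
      Integrable fun y => G y * Complex.exp (c * y) := fun G hG h =>
    (hG.mul ce).integrable_of_hasCompactSupport
      (HasCompactSupport.intro hs.isCompact fun y hy => by simp [h y hy])
  have ne : ∀ (G : ℝ → ℂ) (H : ℝ → ℝ), (∀ y ∉ tsupport F, G y = 0) → (∀ y, ‖G y‖ ≤ H y) →
      Integrable H → ∫ y, ‖G y * Complex.exp (c * y)‖ ≤ ∫ y, B * H y := fun G H h hH hi => by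
    refine integral_mono_of_nonneg (Filter.Eventually.of_forall fun y => norm_nonneg _)
      (hi.const_mul B) (Filter.Eventually.of_forall fun y => ?_)
    by_cases hy : y ∈ tsupport F
    · simp only [norm_mul]
      rw [mul_comm]
      exact mul_le_mul (be y hy) (hH y) (norm_nonneg _) (by positivity)
    · simp only [h y hy, zero_mul, norm_zero]
      exact mul_nonneg (by positivity) ((norm_nonneg _).trans (hH y))
  have z1 : ∀ y ∉ tsupport F, deriv F y + c * F y = 0 := fun y hy => by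
    simp [(z y hy).1, (z y hy).2.1]
  have z2 : ∀ y ∉ tsupport F, deriv (deriv F) y + 2 * c * deriv F y + c * c * F y = 0 :=
    fun y hy => by simp [(z y hy).1, (z y hy).2.1, (z y hy).2.2]
  have j0 := ie F c0 fun y hy => (z y hy).1
  have key := decay_Mel (g₀ := fun y => F y * Complex.exp (c * y))
    (g₁ := fun y => (deriv F y + c * F y) * Complex.exp (c * y))
    (g₂ := fun y => (deriv (deriv F) y + 2 * c * deriv F y + c * c * F y) * Complex.exp (c * y))
    (fun y => ((d0 y).mul (de y)).congr_deriv (by ring))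
    (fun y => (((d1 y).add ((d0 y).const_mul c)).mul (de y)).congr_deriv (by
      simp only [Pi.add_apply]
      ring))
    j0 (ie _ (by fun_prop) z1) (ie _ (by fun_prop) z2)
  have b0 := ne F (fun y => ‖F y‖) (fun y hy => (z y hy).1) (fun y => le_rfl) i0.norm
  have b2 := ne _ (fun y => ‖deriv (deriv F) y‖ + 4 * ‖deriv F y‖ + 4 * ‖F y‖) z2 (fun y => by
    refine norm_add₃_le.trans (add_le_add (add_le_add le_rfl ?_) ?_)
    · rw [norm_mul, norm_mul, Complex.norm_two]
      exact mul_le_mul_of_nonneg_right (by linarith) (norm_nonneg _)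
    · rw [norm_mul, norm_mul]
      exact mul_le_mul_of_nonneg_right (by nlinarith [norm_nonneg c]) (norm_nonneg _))
    ((i2.norm.add (i1.norm.const_mul 4)).add (i0.norm.const_mul 4))
  exact inv_Mel (c0.mul ce) j0 fun w =>
    (key w).trans (mul_le_mul_of_nonneg_right (by linarith) (kp_pos _).le)

theorem mel_stmt : MelStmt := by
  intro f a b ha hf h0
  have hm : 0 < max a b := lt_max_of_lt_left ha
  obtain ⟨C, hC, h⟩ := main_Mel (F := fun y => (f (Real.exp y) : ℂ))
    (Complex.ofRealCLM.contDiff.comp (hf.comp Real.contDiff_exp))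
    (HasCompactSupport.intro (isCompact_Icc (a := Real.log a) (b := Real.log (max a b)))
      fun y hy => by
        rw [Set.mem_Icc, not_and_or, not_le, not_le] at hy
        rw [h0, Complex.ofReal_zero]
        rcases hy with hy | hy
        · exact Or.inl ((Real.lt_log_iff_exp_lt ha).1 hy).le
        · exact Or.inr ((le_max_right a b).trans ((Real.log_lt_iff_lt_exp hm).1 hy).le))
  refine ⟨C, hC, fun c hc => ?_⟩
  obtain ⟨φ, h1, h2, h3⟩ := h c hc
  refine ⟨φ, h1, h2, fun x hx => ?_⟩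
  rw [← h3 x, Real.exp_log hx, Complex.cpow_def_of_ne_zero (Complex.ofReal_ne_zero.2 hx.ne'),
    Complex.ofReal_log hx.le, mul_comm c]

end Pool.Agent.MP_2a1f0e_nt.DH
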