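import Pool.Agent.MP_2a1f0e_nt.DH.Basic

set_option autoImplicit false

open Finset

namespace Pool.Agent.MP_2a1f0e_nt.DH

open Pool.Agent.MP_2a1f0e_nt.GM

lemma pair_Mom (H : ℕ) (F : ℝ → ℂ) :
    ((H : ℝ) + 1) * ∑ d ∈ Icc (-(H : ℤ)) H, ‖F d‖ ^ 2 ≤ EE (Icc 0 (3 * H : ℤ)) (fun _ => 1) F := by
  unfold EE
  simp only [one_mul]
  rw [sum_comm]
  calc _ = ∑ _y ∈ Icc (H : ℤ) (2 * H), ∑ d ∈ Icc (-(H : ℤ)) H, ‖F d‖ ^ 2 := by
        rw [sum_const, nsmul_eq_mul, Int.card_Icc, show (2 * H + 1 - H : ℤ).toNat = H + 1 by omega,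
          Nat.cast_succ]
    _ ≤ ∑ y ∈ Icc (H : ℤ) (2 * H), ∑ x ∈ Icc 0 (3 * H : ℤ), ‖F ((x : ℝ) - y)‖ ^ 2 := by
        refine sum_le_sum fun y hy => ?_
        calc _ = ∑ x ∈ (Icc (-(H : ℤ)) H).map (addRightEmbedding y), ‖F ((x : ℝ) - y)‖ ^ 2 := by
              rw [sum_map]
              simp
          _ ≤ _ := by
              refine sum_le_sum_of_subset_of_nonneg (fun x hx => ?_) fun _ _ _ => by positivity
              rw [map_add_right_Icc, mem_Icc] at hx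
              rw [mem_Icc] at hy ⊢
              omega
    _ ≤ _ := sum_le_sum_of_subset_of_nonneg (Icc_subset_Icc (by omega) (by omega)) fun _ _ _ =>
        sum_nonneg fun _ _ => by positivity

lemma mean_Mom (hJ : JutStmt) (hP : PosStmt) {ε : ℝ} (hε : 0 < ε) : ∃ C : ℝ, 0 < C ∧
    ∀ (L H : ℕ) (α : ℝ) (c : ℕ → ℂ), 1 ≤ L → 3 * H ≤ L → 0 ≤ α →
      (∀ l ∈ Icc 1 L, ‖c l‖ ≤ α * hf l) →
      ∑ d ∈ Icc (-(H : ℤ)) H, ‖PP L c d‖ ^ 2 ≤ C * (L : ℝ) ^ ε * α ^ 2 * L := by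
  obtain ⟨C, hC, h⟩ := hJ ε hε
  refine ⟨9 * C, by positivity, fun L H α c hL hH hα hc => ?_⟩
  have h1 := h L (3 * H) (Icc 0 (3 * H : ℤ)) (fun _ => 1) hL
    ((Nat.pow_le_pow_left hH 2).trans (Nat.pow_le_pow_right hL (by norm_num)))
    (fun x hx y hy => by
      rw [mem_Icc] at hx hy
      rw [abs_le]
      omega) fun _ _ => zero_le_one
  have h2 : ((Icc 0 (3 * H : ℤ)).card : ℝ) = 3 * H + 1 := by
    rw [Int.card_Icc, show (3 * H + 1 - 0 : ℤ).toNat = 3 * H + 1 by omega]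
    push_cast
    rfl
  simp only [one_pow, sum_const, nsmul_eq_mul, mul_one, h2] at h1
  have hL' : (1 : ℝ) ≤ L := by exact_mod_cast hL
  have hH' : (3 * H : ℝ) ≤ L := by exact_mod_cast hH
  have hH0 : (0 : ℝ) ≤ H := by positivity
  have h3 : (L : ℝ) * (3 * H + 1) + (3 * H + 1) ^ 2 ≤ (H + 1) * (9 * L) := by nlinarith
  refine le_of_mul_le_mul_left (a := (H : ℝ) + 1) ?_ (by positivity)
  calc _ ≤ _ := pair_Mom H _
    _ ≤ _ := EE_le_ZZ hP hα le_rfl hc _ _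
    _ ≤ α ^ 2 * (C * (L : ℝ) ^ ε * ((H + 1) * (9 * L))) := by
        gcongr
        exact h1.trans (by gcongr)
    _ = _ := by ring

theorem mom_stmt (hJ : JutStmt) (hZ : PowZStmt) (hP : PosStmt) : MomStmt := by
  intro ε hε
  have hε' : 0 < ε / 7 := by positivity
  obtain ⟨C, hC, h⟩ := mean_Mom hJ hP hε'
  obtain ⟨c, hc, hD⟩ := exists_DivB hε'
  refine ⟨C * c ^ 6, by positivity, fun M L H ξ hL hH => ?_⟩
  obtain ⟨h2, h4⟩ := hZ M L _ ξ (hD L hL)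
  have h1 := (hD L hL).1
  have e : C * (L : ℝ) ^ (ε / 7) * ((c * (L : ℝ) ^ (ε / 7)) ^ 3) ^ 2 * L =
      C * c ^ 6 * (L : ℝ) ^ ε * L := by
    have : (L : ℝ) ^ ε = ((L : ℝ) ^ (ε / 7)) ^ 7 := by
      rw [← Real.rpow_natCast, ← Real.rpow_mul (Nat.cast_nonneg L)]
      congr 1
      push_cast
      ring
    rw [this]
    ring
  refine ⟨fun hM => ?_, fun hM => ?_⟩
  · obtain ⟨d, d1, d2⟩ := h2 hM
    refine le_trans (le_of_eq (sum_congr rfl fun x _ => ?_)) ((h L H _ d hL hH (by positivity)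
      fun l hl => (d1 l hl).trans (mul_le_mul_of_nonneg_right
        (le_self_pow₀ h1 three_ne_zero) (hf_nonneg _))).trans_eq e)
    rw [← d2, norm_pow, ← pow_mul]
  · obtain ⟨d, d1, d2⟩ := h4 hM
    refine le_trans (le_of_eq (sum_congr rfl fun x _ => ?_))
      ((h L H _ d hL hH (by positivity) d1).trans_eq e)
    rw [← d2, norm_pow, ← pow_mul]

end Pool.Agent.MP_2a1f0e_nt.DH
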