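import Pool.Agent.MP_2a1f0e_nt.DH.Basic

set_option autoImplicit false

open Finset

namespace Pool.Agent.MP_2a1f0e_nt.DH

open Pool.Agent.MP_2a1f0e_nt.GM

open Real in
lemma rhs_Nu (n t h v r : ℝ) :
    exp t / exp h * RHS (exp n) (exp h) (exp v) (exp r) (exp ((h + 2 * v - 2 * n) / 8)) =
      exp r * exp v ^ 2 * (exp (t - h + 2 * n - 2 * v) +
        2 * exp (t - 7 / 8 * h + 13 / 4 * n - 15 / 4 * v) + exp (t + 27 / 2 * n - 18 * v - r / 2) +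
        exp (t - h / 12 + 21 / 2 * n - 14 * v - r / 2) + exp (t + 13 * n - 18 * v) +
        exp (t - h / 12 + 10 * n - 14 * v)) := by
  unfold RHS
  simp only [two_mul (exp _), ← exp_mul, ← exp_nat_mul, ← exp_half, mul_add, add_mul, add_div,
    ← exp_add, ← exp_sub]
  push_cast
  ring_nf

lemma lin_Nu {n t h v l r c σ u : ℝ} (h1 : n * (6 / 5) ≤ t) (h2 : t ≤ n * (3 / 2))
    (h3 : t ≤ h ∨ n * (4 / 3) ≤ c + h) (h4 : 7 / 9 ≤ σ) (h5 : σ ≤ 5 / 6) (hl : 0 ≤ l) (hc : 0 ≤ c)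
    (hv : n * σ ≤ l + v) (hu : u = 18 * l + t * (2 - 2 * σ)) (hr : u ≤ r) :
    t - h + 2 * n - 2 * v ≤ c + u ∧ t - 7 / 8 * h + 13 / 4 * n - 15 / 4 * v ≤ c + u ∧
      t + 27 / 2 * n - 18 * v - r / 2 ≤ c + u ∧
      t - h / 12 + 21 / 2 * n - 14 * v - r / 2 ≤ c + u ∧ t + 13 * n - 18 * v ≤ c + u ∧
      t - h / 12 + 10 * n - 14 * v ≤ c + u := by
  have a1 := mul_nonneg (sub_nonneg.2 h4) (sub_nonneg.2 h1)
  have a2 := mul_nonneg (sub_nonneg.2 h4) (sub_nonneg.2 h2)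
  have a3 := mul_nonneg (sub_nonneg.2 h5) (sub_nonneg.2 h1)
  have a4 := mul_nonneg (sub_nonneg.2 h5) (sub_nonneg.2 h2)
  rcases h3 with h3 | h3 <;> refine ⟨?_, ?_, ?_, ?_, ?_, ?_⟩ <;> linarith

open Real in
theorem nu_stmt : NuStmt := by
  intro N T H V R K lam σ hN h1 h2 hH hHT h3 h4 h5 hl hV hv hK hR hZ
  have hT : 0 < T := hH.trans_le hHT
  by_contra hc
  push Not at hc
  have hU : 0 < lam ^ 18 * T ^ (2 - 2 * σ) := by positivity
  have hRU : lam ^ 18 * T ^ (2 - 2 * σ) ≤ R := by nlinarith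
  obtain ⟨n, rfl⟩ : ∃ n, N = exp n := ⟨_, (exp_log (by linarith)).symm⟩
  obtain ⟨t, rfl⟩ : ∃ t, T = exp t := ⟨_, (exp_log hT).symm⟩
  obtain ⟨h, rfl⟩ : ∃ h, H = exp h := ⟨_, (exp_log hH).symm⟩
  obtain ⟨v, rfl⟩ : ∃ v, V = exp v := ⟨_, (exp_log hV).symm⟩
  obtain ⟨l, rfl⟩ : ∃ l, lam = exp l := ⟨_, (exp_log (by linarith)).symm⟩
  obtain ⟨r, rfl⟩ : ∃ r, R = exp r := ⟨_, (exp_log (hU.trans_le hRU)).symm⟩
  have e2 : exp (log 2) = 2 := exp_log two_pos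
  have eU : exp l ^ 18 * exp t ^ (2 - 2 * σ) = exp (18 * l + t * (2 - 2 * σ)) := by
    rw [← exp_mul, ← exp_nat_mul, ← exp_add]; norm_num
  rw [mul_assoc, eU] at hc
  rw [eU, exp_le_exp] at hRU
  rw [← exp_mul, exp_le_exp] at h1 h2
  rw [← exp_mul, ← exp_add, exp_le_exp] at hv
  rw [← e2, ← exp_mul, ← exp_add, exp_le_exp, exp_le_exp] at h3
  obtain ⟨b1, b2, b3, b4, b5, b6⟩ := lin_Nu h1 h2 h3 h4 h5 (one_le_exp_iff.1 hl)
    (log_nonneg one_le_two) hv rfl hRU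
  generalize 18 * l + t * (2 - 2 * σ) = u at *
  rw [← exp_le_exp, exp_add (log 2), e2] at b1 b2 b3 b4 b5 b6
  have hz := hZ _ (exp_pos ((h + 2 * v - 2 * n) / 8))
  have e := rhs_Nu n t h v r
  have h6 : 1 ≤ exp t / exp h := (one_le_div hH).2 hHT
  have h7 : 0 ≤ RHS (exp n) (exp h) (exp v) (exp r) (exp ((h + 2 * v - 2 * n) / 8)) := by
    unfold RHS
    positivity
  generalize RHS (exp n) (exp h) (exp v) (exp r) (exp ((h + 2 * v - 2 * n) / 8)) = X at hz e h7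
  have hp : 0 < exp r * exp v ^ 2 := by positivity
  have h8 : exp t / exp h * X ≤ exp r * exp v ^ 2 * (14 * exp u) := by
    rw [e]
    exact mul_le_mul_of_nonneg_left (by linarith) hp.le
  have h9 : exp r * exp v ^ 2 * exp r ≤ exp r * exp v ^ 2 * (K * (28 * exp u)) := by
    have h10 : (exp t / exp h + 1) * X ≤ 2 * (exp r * exp v ^ 2 * (14 * exp u)) := by
      nlinarith [mul_le_mul_of_nonneg_right h6 h7]
    nlinarith [mul_le_mul_of_nonneg_left h10 (show 0 ≤ K by linarith)]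
  have h11 := le_of_mul_le_mul_left h9 hp
  nlinarith [mul_pos (show 0 < K by linarith) (exp_pos u)]

end Pool.Agent.MP_2a1f0e_nt.DH
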