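import Pool.Agent.MP_2a1f0e_nt.DH.Basic

set_option autoImplicit false

open Finset

namespace Pool.Agent.MP_2a1f0e_nt.DH

open Pool.Agent.MP_2a1f0e_nt.GM

lemma swap4_Pos (s : Finset ℤ) (t : Finset ℕ) (f : ℤ → ℤ → ℕ → ℕ → ℂ) :
    ∑ x ∈ s, ∑ y ∈ s, ∑ l ∈ t, ∑ l' ∈ t, f x y l l' =
      ∑ l ∈ t, ∑ l' ∈ t, ∑ x ∈ s, ∑ y ∈ s, f x y l l' := by
  calc _ = ∑ x ∈ s, ∑ l ∈ t, ∑ y ∈ s, ∑ l' ∈ t, f x y l l' :=
        sum_congr rfl fun x _ => sum_comm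
    _ = ∑ l ∈ t, ∑ x ∈ s, ∑ y ∈ s, ∑ l' ∈ t, f x y l l' := sum_comm
    _ = ∑ l ∈ t, ∑ x ∈ s, ∑ l' ∈ t, ∑ y ∈ s, f x y l l' :=
        sum_congr rfl fun l _ => sum_congr rfl fun x _ => sum_comm
    _ = _ := sum_congr rfl fun l _ => sum_comm

lemma cid_Pos (L : ℕ) (c : ℕ → ℂ) (s : Finset ℤ) (g : ℤ → ℝ) :
    ((EE s g (PP L c) : ℝ) : ℂ) = ∑ l ∈ Icc 1 L, ∑ l' ∈ Icc 1 L,
      c l * (starRingEnd ℂ) (c l') * ((‖FT s g ((l : ℝ) / l')‖ ^ 2 : ℝ) : ℂ) := by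
  have h1 : ∀ x y : ℤ, ((g x * g y * ‖PP L c ((x : ℝ) - y)‖ ^ 2 : ℝ) : ℂ) =
      ∑ l ∈ Icc 1 L, ∑ l' ∈ Icc 1 L, c l * (starRingEnd ℂ) (c l') *
        ((g x : ℂ) * pw ((l : ℝ) / l') x * (starRingEnd ℂ) ((g y : ℂ) * pw ((l : ℝ) / l') y)) := by
    intro x y
    rw [Complex.ofReal_mul, Complex.ofReal_pow, ← Complex.mul_conj', PP, map_sum, sum_mul_sum,
      mul_sum]
    refine sum_congr rfl fun l hl => ?_
    rw [mul_sum]
    refine sum_congr rfl fun l' hl' => ?_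
    have a1 : (l : ℝ) ≠ 0 := by
      have := (mem_Icc.1 hl).1
      positivity
    have a2 : (l' : ℝ) ≠ 0 := by
      have := (mem_Icc.1 hl').1
      positivity
    simp only [map_mul, conj_pw, Complex.conj_ofReal, pw_div a1 a2, neg_neg,
      Complex.ofReal_mul, sub_eq_add_neg, pw_add]
    ring
  have h2 : ∀ l l' : ℕ,
      c l * (starRingEnd ℂ) (c l') * ((‖FT s g ((l : ℝ) / l')‖ ^ 2 : ℝ) : ℂ) =
      ∑ x ∈ s, ∑ y ∈ s, c l * (starRingEnd ℂ) (c l') *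
        ((g x : ℂ) * pw ((l : ℝ) / l') x * (starRingEnd ℂ) ((g y : ℂ) * pw ((l : ℝ) / l') y)) := by
    intro l l'
    rw [Complex.ofReal_pow, ← Complex.mul_conj', FT, map_sum, sum_mul_sum, mul_sum]
    refine sum_congr rfl fun x _ => ?_
    rw [mul_sum]
  unfold EE
  simp only [Complex.ofReal_sum, h1, h2]
  exact swap4_Pos _ _ _

theorem id_stmt : IdStmt := by
  intro L a s g
  apply Complex.ofReal_injective
  rw [cid_Pos]
  simp only [Complex.ofReal_sum, Complex.ofReal_mul, Complex.conj_ofReal]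

theorem pos_stmt : PosStmt := by
  intro L L' c a s g hL hc ha
  have hsub : Icc 1 L ⊆ Icc 1 L' := Icc_subset_Icc_right hL
  rw [id_stmt]
  calc EE s g (PP L c) ≤ ‖((EE s g (PP L c) : ℝ) : ℂ)‖ := by
        rw [Complex.norm_real]
        exact le_abs_self _
    _ ≤ ∑ l ∈ Icc 1 L, ∑ l' ∈ Icc 1 L, a l * a l' * ‖FT s g ((l : ℝ) / l')‖ ^ 2 := by
        rw [cid_Pos]
        refine (norm_sum_le _ _).trans (sum_le_sum fun l hl => ?_)
        refine (norm_sum_le _ _).trans (sum_le_sum fun l' hl' => ?_)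
        rw [norm_mul, norm_mul, Complex.norm_conj, Complex.norm_real,
          Real.norm_of_nonneg (by positivity)]
        exact mul_le_mul_of_nonneg_right
          (mul_le_mul (hc l hl) (hc l' hl') (norm_nonneg _) (ha l (hsub hl))) (by positivity)
    _ ≤ ∑ l ∈ Icc 1 L, ∑ l' ∈ Icc 1 L', a l * a l' * ‖FT s g ((l : ℝ) / l')‖ ^ 2 :=
        sum_le_sum fun l hl => sum_le_sum_of_subset_of_nonneg hsub fun l' hl' _ =>
          mul_nonneg (mul_nonneg (ha l (hsub hl)) (ha l' hl')) (by positivity)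
    _ ≤ _ := sum_le_sum_of_subset_of_nonneg hsub fun l hl _ => sum_nonneg fun l' hl' =>
          mul_nonneg (mul_nonneg (ha l hl) (ha l' hl')) (by positivity)

end Pool.Agent.MP_2a1f0e_nt.DH
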