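import Pool.Agent.MP_2a1f0e_nt.DH.Basic
import Pool.Agent.MP_2a1f0e_nt.Power

set_option autoImplicit false

open Finset

namespace Pool.Agent.MP_2a1f0e_nt.DH

open Pool.Agent.MP_2a1f0e_nt.GM

lemma dy_Pow (f : ℕ → ℂ) (M J : ℕ) :
    ∑ j ∈ range J, ∑ n ∈ Ico (2 ^ j * M) (2 * (2 ^ j * M)), f n = ∑ n ∈ Ico M (2 ^ J * M), f n := by
  induction J with
  | zero => simp
  | succ J ih =>
    rw [sum_range_succ, ih, pow_succ', mul_assoc]
    exact sum_Ico_consecutive f (Nat.le_mul_of_pos_left M (by positivity)) (by omega)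

lemma split_Pow {N : ℕ} (hN : 1 ≤ N) (b : ℕ → ℂ) (k : ℕ) {D V : ℝ} (hD : 0 < D) (hV : 0 < V)
    (hc : ∀ n, ‖(tr N b ^ k) n‖ ≤ D) : ∃ c : ℕ → ℕ → ℂ, (∀ j n, ‖c j n‖ ≤ 1) ∧ ∀ T,
      cnt N b T V ≤ ∑ j ∈ range (k + 1), cnt (2 ^ j * N ^ k) (c j) T (V ^ k / ((k + 1) * D)) := by
  refine ⟨fun j n => if n < 2 * (2 ^ j * N ^ k) then (tr N b ^ k) n / D else 0, fun j n => ?_,
    fun T => ?_⟩
  · dsimp only
    split_ifs
    · rw [norm_div, Complex.norm_real, Real.norm_of_nonneg hD.le]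
      exact div_le_one_of_le₀ (hc n) hD.le
    · simp
  refine le_trans (card_le_card fun t ht => ?_) card_biUnion_le
  obtain ⟨ht, hVt⟩ := mem_filter.1 ht
  have h1 : ∀ j, DP (2 ^ j * N ^ k)
      (fun n => if n < 2 * (2 ^ j * N ^ k) then (tr N b ^ k) n / D else 0) t =
      ∑ n ∈ Ico (2 ^ j * N ^ k) (2 * (2 ^ j * N ^ k)), (tr N b ^ k) n * pw n t / D := fun j => by
    rw [DP, ← sum_subset Ico_subset_Icc_self fun n h1 h2 => by
      rw [mem_Icc] at h1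
      rw [mem_Ico] at h2
      rw [if_neg (by omega), zero_mul]]
    exact sum_congr rfl fun n hn => by rw [if_pos (mem_Ico.1 hn).2, div_mul_eq_mul_div]
  have hp : 0 < 2 ^ k * N ^ k := by positivity
  have h2 : ∑ j ∈ range (k + 1), DP (2 ^ j * N ^ k)
      (fun n => if n < 2 * (2 ^ j * N ^ k) then (tr N b ^ k) n / D else 0) t = DP N b t ^ k / D := by
    simp only [h1]
    rw [dy_Pow, ← sum_div, DP, ← tr_pow_sum hN b (fun n => pw n t) (fun x y hx hy => by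
      rw [Nat.cast_mul, pw_mul (by exact_mod_cast hx) (by exact_mod_cast hy)])
      (by rw [Nat.cast_one, pw_one]) k]
    congr 1
    refine (sum_subset (fun n hn => ?_) fun n _ hn => by rw [tr_pow_supp N b k n hn, zero_mul]).symm
    rw [mem_Icc, mul_pow] at hn
    rw [mem_Ico, pow_succ', mul_assoc]
    omega
  have h3 : ∑ _j ∈ range (k + 1), V ^ k / ((k + 1) * D) ≤ ∑ j ∈ range (k + 1), ‖DP (2 ^ j * N ^ k)
      (fun n => if n < 2 * (2 ^ j * N ^ k) then (tr N b ^ k) n / D else 0) t‖ := by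
    refine le_trans ?_ (norm_sum_le _ _)
    rw [h2, norm_div, norm_pow, Complex.norm_real, Real.norm_of_nonneg hD.le, sum_const,
      card_range, nsmul_eq_mul, Nat.cast_succ, ← mul_div_assoc,
      mul_div_mul_left _ _ (by positivity)]
    gcongr
  obtain ⟨j, hj, h4⟩ := exists_le_of_sum_le nonempty_range_add_one h3
  exact mem_biUnion.2 ⟨j, hj, mem_filter.2 ⟨ht, h4⟩⟩

theorem pow_stmt (hI : IvStmt) : PowStmt := by
  intro A
  obtain ⟨k0, hk0⟩ := exists_nat_ge A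
  refine ⟨18 * k0, fun ε hε => ?_⟩
  obtain ⟨δ, hδ, hδε⟩ : ∃ δ : ℝ, 0 < δ ∧ δ + δ * k0 * 18 = ε :=
    ⟨ε / (1 + k0 * 18), by positivity, by field_simp⟩
  obtain ⟨K, hK, hI⟩ := hI δ hδ
  obtain ⟨c0, hc0, hdiv⟩ := exists_DivB hδ
  refine ⟨(k0 + 1) * (K * (2 ^ k0 * (k0 + 1) * c0 ^ k0) ^ 18 * (2 ^ k0) ^ (2 + ε)) + 2,
    by positivity, ?_⟩
  intro N T hN hNT hTA σ lam V hσ hσ1 hlam hV hNV b hb
  have hT1 : 1 ≤ T := (Nat.one_le_pow _ _ hN).trans hNT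
  have hl1 : 1 ≤ lam ^ (18 * k0) := one_le_pow₀ hlam
  have hT0 : (0 : ℝ) < T := by exact_mod_cast hT1
  have hp : 0 ≤ (k0 + 1) * (K * (2 ^ k0 * (k0 + 1) * c0 ^ k0) ^ 18 * (2 ^ k0) ^ (2 + ε)) := by
    positivity
  rcases hN.eq_or_lt with rfl | hN2
  · rw [Nat.cast_one, Real.one_rpow] at hTA
    obtain rfl : T = 1 := le_antisymm (by exact_mod_cast hTA) hT1
    have h1 : (cnt 1 b 1 V : ℝ) ≤ 2 := by exact_mod_cast cnt_le 1 b 1 V
    rw [Nat.cast_one, Real.one_rpow, mul_one]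
    nlinarith
  obtain ⟨k, hk⟩ : ∃ k, k = Nat.log N T := ⟨_, rfl⟩
  have k1 : N ^ k ≤ T := hk ▸ Nat.pow_log_le_self N (by omega)
  have k2 : T < N ^ (k + 1) := hk ▸ Nat.lt_pow_succ_log_self hN2 T
  have k3 : 2 ≤ k := by
    have := (Nat.pow_lt_pow_iff_right hN2).1 (hNT.trans_lt k2)
    omega
  have hN1 : (1 : ℝ) ≤ N := by exact_mod_cast hN
  have k4 : k ≤ k0 := by
    have h1 : (T : ℝ) ≤ (N : ℝ) ^ k0 := by
      rw [← Real.rpow_natCast]
      exact hTA.trans (Real.rpow_le_rpow_of_exponent_le hN1 hk0)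
    exact (Nat.pow_le_pow_iff_right hN2).1 (k1.trans (by exact_mod_cast h1))
  obtain ⟨Y, hY⟩ : ∃ Y : ℕ, Y = 2 ^ k0 * T := ⟨_, rfl⟩
  have hTY : T ≤ Y := hY ▸ Nat.le_mul_of_pos_left T (by positivity)
  have hjY : ∀ j ≤ k, 2 ^ j * N ^ k ≤ Y := fun j hj =>
    hY ▸ Nat.mul_le_mul (Nat.pow_le_pow_right two_pos (hj.trans k4)) k1
  obtain ⟨d1, d2⟩ := hdiv Y (hT1.trans hTY)
  have hY0 : (0 : ℝ) < Y := by exact_mod_cast hT1.trans hTY
  obtain ⟨D, hD⟩ : ∃ D : ℝ, D = (c0 * (Y : ℝ) ^ δ) ^ k0 := ⟨_, rfl⟩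
  have hD1 : 1 ≤ D := hD ▸ one_le_pow₀ d1
  obtain ⟨c, hc, hcnt⟩ := split_Pow hN b k (D := D) (by linarith) hV fun n => by
    by_cases hn : n ≤ Y
    · exact (tr_pow_norm N b k n).trans ((tr_pow_le N b hb d1 d2 k n hn).trans
        (hD ▸ pow_le_pow_right₀ d1 k4))
    · rw [tr_pow_supp N b k n fun h => hn ((mem_Icc.1 h).2.trans (mul_pow 2 N k ▸ hjY k le_rfl)),
        norm_zero]
      linarith
  have hlam' : 1 ≤ 2 ^ k0 * (k0 + 1) * D * lam ^ k0 :=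
    one_le_mul_of_one_le_of_one_le (one_le_mul_of_one_le_of_one_le
      (one_le_mul_of_one_le_of_one_le (one_le_pow₀ one_le_two)
        (le_add_of_nonneg_left (Nat.cast_nonneg k0))) hD1) (one_le_pow₀ hlam)
  have key : ∀ j ∈ range (k + 1), (cnt (2 ^ j * N ^ k) (c j) T (V ^ k / ((k + 1) * D)) : ℝ) ≤
      K * (Y : ℝ) ^ δ * (2 ^ k0 * (k0 + 1) * D * lam ^ k0) ^ 18 * (Y : ℝ) ^ (2 - 2 * σ) := by
    intro j hj
    have hjk : j ≤ k := Nat.lt_succ_iff.1 (mem_range.1 hj)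
    have hM : 1 ≤ 2 ^ j * N ^ k := Nat.succ_le_of_lt (by positivity)
    have h1 : max T (2 ^ j * N ^ k) ^ 2 ≤ (2 ^ j * N ^ k) ^ 3 := by
      rcases le_total T (2 ^ j * N ^ k) with h | h
      · rw [max_eq_right h]
        exact Nat.pow_le_pow_right hM (by norm_num)
      · rw [max_eq_left h]
        refine (Nat.pow_le_pow_left k2.le 2).trans (le_trans ?_
          (Nat.pow_le_pow_left (Nat.le_mul_of_pos_left (N ^ k) (by positivity)) 3))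
        rw [← pow_mul, ← pow_mul]
        exact Nat.pow_le_pow_right hN (by omega)
    have h2 : ((2 ^ j * N ^ k : ℕ) : ℝ) ^ σ ≤
        2 ^ k0 * (k0 + 1) * D * lam ^ k0 * (V ^ k / ((k + 1) * D)) := by
      have a1 : ((2 : ℝ) ^ j) ^ σ ≤ 2 ^ k0 := by
        refine (Real.rpow_le_rpow_of_exponent_le (one_le_pow₀ one_le_two) hσ1).trans ?_
        rw [Real.rpow_one]
        exact pow_le_pow_right₀ one_le_two (hjk.trans k4)
      have a2 : ((N : ℝ) ^ k) ^ σ ≤ lam ^ k0 * V ^ k := by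
        rw [← Real.rpow_pow_comm (by linarith)]
        refine (pow_le_pow_left₀ (by positivity) hNV k).trans ?_
        rw [mul_pow]
        exact mul_le_mul_of_nonneg_right (pow_le_pow_right₀ hlam k4) (by positivity)
      have a3 : (1 : ℝ) ≤ (k0 + 1) / (k + 1) :=
        (one_le_div (by positivity)).2 (by exact_mod_cast Nat.succ_le_succ k4)
      push_cast
      rw [Real.mul_rpow (by positivity) (by positivity)]
      refine (mul_le_mul a1 a2 (by positivity) (by positivity)).trans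
        ((le_mul_of_one_le_left (by positivity) a3).trans_eq ?_)
      field_simp
    refine le_trans (Nat.cast_le.2 (cnt_mono _ _ (le_max_left T _) le_rfl))
      ((hI _ _ hM (le_max_right _ _) h1 σ _ _ hσ hσ1 hlam' (by positivity) h2 _ (hc j)).trans ?_)
    have h3 : ((2 ^ j * N ^ k : ℕ) : ℝ) ≤ Y := Nat.cast_le.2 (hjY j hjk)
    have h4 : ((max T (2 ^ j * N ^ k) : ℕ) : ℝ) ≤ Y := Nat.cast_le.2 (max_le hTY (hjY j hjk))
    have h5 : 0 ≤ 2 - 2 * σ := by linarith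
    gcongr
  have e1 : K * (Y : ℝ) ^ δ * (2 ^ k0 * (k0 + 1) * D * lam ^ k0) ^ 18 * (Y : ℝ) ^ (2 - 2 * σ) =
      K * (2 ^ k0 * (k0 + 1) * c0 ^ k0) ^ 18 * lam ^ (18 * k0) * (Y : ℝ) ^ (2 - 2 * σ + ε) := by
    have h1 : (Y : ℝ) ^ (δ * k0 * 18) = (((Y : ℝ) ^ δ) ^ k0) ^ 18 := by
      rw [← Real.rpow_mul_natCast hY0.le, ← Real.rpow_mul_natCast hY0.le, Nat.cast_ofNat]
    rw [hD, ← hδε, Real.rpow_add hY0, Real.rpow_add hY0, h1]
    ring
  have e2 : (Y : ℝ) ^ (2 - 2 * σ + ε) ≤ (2 ^ k0) ^ (2 + ε) * (T : ℝ) ^ (2 - 2 * σ + ε) := by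
    rw [hY]
    push_cast
    rw [Real.mul_rpow (by positivity) hT0.le]
    exact mul_le_mul_of_nonneg_right (Real.rpow_le_rpow_of_exponent_le (one_le_pow₀ one_le_two)
      (by linarith)) (by positivity)
  have h6 : (cnt N b T V : ℝ) ≤ (k + 1) * (K * (2 ^ k0 * (k0 + 1) * c0 ^ k0) ^ 18 *
      lam ^ (18 * k0) * (Y : ℝ) ^ (2 - 2 * σ + ε)) := by
    refine le_trans (Nat.cast_le.2 (hcnt T)) ?_
    rw [Nat.cast_sum, ← e1]
    refine (sum_le_card_nsmul _ _ _ key).trans_eq ?_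
    rw [card_range, nsmul_eq_mul, Nat.cast_succ]
  have h7 : (k : ℝ) ≤ k0 := Nat.cast_le.2 k4
  calc _ ≤ _ := h6
    _ ≤ (k0 + 1) * (K * (2 ^ k0 * (k0 + 1) * c0 ^ k0) ^ 18 *
        lam ^ (18 * k0) * ((2 ^ k0) ^ (2 + ε) * (T : ℝ) ^ (2 - 2 * σ + ε))) := by gcongr
    _ = (k0 + 1) * (K * (2 ^ k0 * (k0 + 1) * c0 ^ k0) ^ 18 * (2 ^ k0) ^ (2 + ε)) *
        lam ^ (18 * k0) * (T : ℝ) ^ (2 - 2 * σ + ε) := by ring
    _ ≤ _ := by
      gcongr
      linarith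

end Pool.Agent.MP_2a1f0e_nt.DH
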