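import Pool.Agent.MP_2a1f0e_nt.DH.Basic
import Pool.Agent.MP_2a1f0e_nt.Power
set_option autoImplicit false
open Finset
namespace Pool.Agent.MP_2a1f0e_nt.DH
open Pool.Agent.MP_2a1f0e_nt.GM

/-- truncation of a sequence -/
def tc_PowZ (A : ℕ) (c : ℕ → ℂ) : ArithmeticFunction ℂ :=
  ⟨fun n => if n ∈ Icc 1 A then c n else 0, by simp⟩

lemma tc_apply_PowZ (A : ℕ) (c : ℕ → ℂ) (n : ℕ) :
    tc_PowZ A c n = if n ∈ Icc 1 A then c n else 0 := rfl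

lemma tc_le_PowZ {A : ℕ} {c : ℕ → ℂ} {α : ℝ} (hα : 0 ≤ α)
    (hc : ∀ l ∈ Icc 1 A, ‖c l‖ ≤ α * hf l) (n : ℕ) : ‖tc_PowZ A c n‖ ≤ α * hf n := by
  rw [tc_apply_PowZ]
  split_ifs with h
  · exact hc n h
  · rw [norm_zero]
    exact mul_nonneg hα (hf_nonneg _)

lemma prod_PowZ {A B L : ℕ} {Δ α β : ℝ} {c c' : ℕ → ℂ} (hL : A * B ≤ L) (hD : DivB L Δ)
    (hα : 0 ≤ α) (hβ : 0 ≤ β) (hc : ∀ l ∈ Icc 1 A, ‖c l‖ ≤ α * hf l)
    (hc' : ∀ l ∈ Icc 1 B, ‖c' l‖ ≤ β * hf l) :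
    ∃ d : ℕ → ℂ, (∀ l ∈ Icc 1 L, ‖d l‖ ≤ α * β * Δ * hf l) ∧
      ∀ u : ℝ, PP A c u * PP B c' u = PP L d u := by
  refine ⟨fun l => (tc_PowZ A c * tc_PowZ B c') l, fun l hl => ?_, fun u => ?_⟩
  · have hl' := Finset.mem_Icc.1 hl
    have h1 : ∀ x ∈ l.divisorsAntidiagonal,
        ‖tc_PowZ A c x.1 * tc_PowZ B c' x.2‖ ≤ α * β * hf l := fun x hx => by
      have e : (l : ℝ) = x.1 * x.2 := by
        rw [← (Nat.mem_divisorsAntidiagonal.1 hx).1, Nat.cast_mul]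
      rw [norm_mul, e, hf_mul (Nat.cast_nonneg _)]
      calc _ ≤ α * hf x.1 * (β * hf x.2) :=
            mul_le_mul (tc_le_PowZ hα hc _) (tc_le_PowZ hβ hc' _) (norm_nonneg _)
              (mul_nonneg hα (hf_nonneg _))
        _ = _ := by ring
    have h2 : (l.divisorsAntidiagonal.card : ℝ) ≤ Δ := by
      rw [← Nat.map_div_right_divisors, Finset.card_map]
      exact hD.2 l hl'.2
    simp only [ArithmeticFunction.mul_apply]
    calc _ ≤ ∑ x ∈ l.divisorsAntidiagonal, ‖tc_PowZ A c x.1 * tc_PowZ B c' x.2‖ :=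
          norm_sum_le _ _
      _ ≤ l.divisorsAntidiagonal.card • (α * β * hf l) := Finset.sum_le_card_nsmul _ _ _ h1
      _ ≤ Δ * (α * β * hf l) := by
          rw [nsmul_eq_mul]
          exact mul_le_mul_of_nonneg_right h2 (mul_nonneg (mul_nonneg hα hβ) (hf_nonneg _))
      _ = _ := by ring
  · have h := conv_sum (tc_PowZ A c) (tc_PowZ B c') (Icc 1 A) (Icc 1 B) (Icc 1 L)
      (fun n hn => if_neg hn) (fun n hn => if_neg hn)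
      (fun x hx => by have := (Finset.mem_Icc.1 hx).1; omega)
      (fun x hx => by have := (Finset.mem_Icc.1 hx).1; omega)
      (fun x hx y hy => Finset.mem_Icc.2
        ⟨Nat.mul_pos (Finset.mem_Icc.1 hx).1 (Finset.mem_Icc.1 hy).1,
          (Nat.mul_le_mul (Finset.mem_Icc.1 hx).2 (Finset.mem_Icc.1 hy).2).trans hL⟩)
      (fun n => pw (n : ℝ) u) fun x y hx hy => by
        rw [Nat.cast_mul, pw_mul (Nat.cast_ne_zero.2 hx) (Nat.cast_ne_zero.2 hy)]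
    unfold PP
    rw [h]
    congr 1 <;> exact Finset.sum_congr rfl fun x hx => by rw [tc_apply_PowZ, if_pos hx]

lemma sq_PowZ {M L : ℕ} {Δ : ℝ} (ξ : ℝ) (hD : DivB L Δ) (hL : M ^ 2 ≤ L) :
    ∃ d : ℕ → ℂ, (∀ l ∈ Icc 1 L, ‖d l‖ ≤ Δ * hf l) ∧ ∀ u : ℝ, ZZ M (u + ξ) ^ 2 = PP L d u := by
  have hc : ∀ l ∈ Icc 1 M, ‖(hf (l : ℝ) : ℂ) * pw (l : ℝ) ξ‖ ≤ 1 * hf l := fun l _ => by
    rw [norm_mul, norm_pw, mul_one, one_mul, Complex.norm_real, Real.norm_eq_abs,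
      abs_of_nonneg (hf_nonneg _)]
  obtain ⟨d, h1, h2⟩ := prod_PowZ (A := M) (B := M) (by rwa [← pow_two]) hD zero_le_one
    zero_le_one hc hc
  refine ⟨d, fun l hl => by simpa using h1 l hl, fun u => ?_⟩
  rw [← h2, ZZ, PP_add, pow_two]

theorem powZ_stmt : PowZStmt := by
  intro M L Δ ξ hD
  refine ⟨sq_PowZ ξ hD, fun hL => ?_⟩
  have h24 : M ^ 2 ≤ M ^ 4 := by
    rcases Nat.eq_zero_or_pos M with h | h
    · simp [h]
    · exact Nat.pow_le_pow_right h (by norm_num)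
  have hΔ : 0 ≤ Δ := zero_le_one.trans hD.1
  obtain ⟨c, h1, h2⟩ := sq_PowZ ξ (DivB_mono hD (h24.trans hL)) (le_refl (M ^ 2))
  obtain ⟨d, h3, h4⟩ := prod_PowZ (A := M ^ 2) (B := M ^ 2) (by rwa [← pow_add]) hD hΔ hΔ h1 h1
  refine ⟨d, fun l hl => (h3 l hl).trans_eq (by ring), fun u => ?_⟩
  rw [← h4, ← h2]
  ring

end Pool.Agent.MP_2a1f0e_nt.DH
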