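import Pool.Agent.MP_2a1f0e_nt.DH.Basic
import Pool.Agent.MP_2a1f0e_nt.GM.Hux
set_option autoImplicit false
open Finset
namespace Pool.Agent.MP_2a1f0e_nt.DH
open Pool.Agent.MP_2a1f0e_nt.GM

lemma block_Pr {N : ℕ} (hN : 1 ≤ N) {b : ℕ → ℂ} (hb : ∀ n, ‖b n‖ ≤ 1) {V : ℝ} (hV : 0 ≤ V)
    (F : Finset ℤ) (hF : ∀ t ∈ F, V ≤ ‖DP N b t‖) :
    (F.card : ℝ) ^ 2 * V ^ 2 ≤ 2 * N * ∑ s ∈ F, ∑ t ∈ F, ‖KK N ((s : ℝ) - t)‖ := by
  choose ψ hψ1 hψ2 using fun t : ℤ =>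
    Complex.exists_norm_eq_mul_self ((starRingEnd ℂ) (DP N b t))
  obtain ⟨c, hc⟩ : ∃ c : ℕ → ℂ, ∀ n, c n = ∑ t ∈ F, ψ t * (starRingEnd ℂ) (pw (n : ℝ) t) :=
    ⟨_, fun _ => rfl⟩
  have hq := quad_Hux N F ψ
  simp only [← hc] at hq
  have hN' : (1 : ℝ) ≤ N := by exact_mod_cast hN
  have e1 : ((∑ t ∈ F, ‖DP N b t‖ : ℝ) : ℂ) =
      ∑ n ∈ Icc N (2 * N), (starRingEnd ℂ) (b n) * c n := by
    push_cast
    simp only [hc, mul_sum]
    rw [sum_comm]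
    refine sum_congr rfl fun t _ => ?_
    rw [← Complex.norm_conj, hψ2 t, DP, map_sum, mul_sum]
    refine sum_congr rfl fun n _ => ?_
    rw [map_mul]
    ring
  have h0 : 0 ≤ ∑ t ∈ F, ‖DP N b t‖ := sum_nonneg fun _ _ => norm_nonneg _
  have e2 : ∑ t ∈ F, ‖DP N b t‖ ≤ ∑ n ∈ Icc N (2 * N), ‖c n‖ := by
    rw [← abs_of_nonneg h0, ← Real.norm_eq_abs, ← Complex.norm_real, e1]
    refine (norm_sum_le _ _).trans (sum_le_sum fun n _ => ?_)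
    rw [norm_mul, Complex.norm_conj]
    exact mul_le_of_le_one_left (norm_nonneg _) (hb n)
  have e3 : (∑ n ∈ Icc N (2 * N), ‖c n‖) ^ 2 ≤ (N + 1) * ∑ n ∈ Icc N (2 * N), ‖c n‖ ^ 2 := by
    have := sq_sum_le_card_mul_sum_sq (s := Icc N (2 * N)) (f := fun n => ‖c n‖)
    rw [Nat.card_Icc, show 2 * N + 1 - N = N + 1 by omega] at this
    exact_mod_cast this
  have e4 : ∑ n ∈ Icc N (2 * N), ‖c n‖ ^ 2
      ≤ ∑ n ∈ Icc 1 (3 * N), Wt ((n : ℝ) / N) * ‖c n‖ ^ 2 := by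
    refine le_trans (le_of_eq (sum_congr rfl fun n hn => ?_))
      (sum_le_sum_of_subset_of_nonneg (Icc_subset_Icc hN (by omega : 2 * N ≤ 3 * N))
        fun n _ _ => mul_nonneg (Wt_nonneg _) (sq_nonneg _))
    obtain ⟨h1, h2⟩ := mem_Icc.1 hn
    rw [Wt_eq_one, one_mul]
    · rw [le_div_iff₀ (by linarith), one_mul]
      exact_mod_cast h1
    · rw [div_le_iff₀ (by linarith)]
      exact_mod_cast h2
  have e5 : 0 ≤ ∑ n ∈ Icc N (2 * N), ‖c n‖ ^ 2 := sum_nonneg fun _ _ => sq_nonneg _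
  have e6 : ∑ n ∈ Icc 1 (3 * N), Wt ((n : ℝ) / N) * ‖c n‖ ^ 2 ≤
      ∑ s ∈ F, ∑ t ∈ F, ‖KK N ((s : ℝ) - t)‖ := by
    refine (le_abs_self _).trans ?_
    rw [← Real.norm_eq_abs, ← Complex.norm_real, ← hq]
    refine (norm_sum_le _ _).trans (sum_le_sum fun s _ => ?_)
    refine (norm_sum_le _ _).trans (sum_le_sum fun t _ => le_of_eq ?_)
    rw [norm_mul, norm_mul, Complex.norm_conj, hψ1, hψ1, one_mul, mul_one]
  have e7 : (F.card : ℝ) * V ≤ ∑ t ∈ F, ‖DP N b t‖ := by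
    have := card_nsmul_le_sum F (fun t : ℤ => ‖DP N b t‖) V hF
    rwa [nsmul_eq_mul] at this
  calc _ = ((F.card : ℝ) * V) ^ 2 := by ring
    _ ≤ (∑ n ∈ Icc N (2 * N), ‖c n‖) ^ 2 := pow_le_pow_left₀ (by positivity) (e7.trans e2) 2
    _ ≤ (N + 1) * ∑ n ∈ Icc N (2 * N), ‖c n‖ ^ 2 := e3
    _ ≤ _ := mul_le_mul (by linarith) (e4.trans e6) e5 (by linarith)

lemma fib_Pr (W K : Finset ℤ) (q : ℤ → ℤ) (hq : ∀ t ∈ W, q t ∈ K) (f : ℤ × ℤ → ℝ) :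
    ∑ p ∈ (W ×ˢ W).filter (fun p => q p.1 = q p.2), f p =
      ∑ k ∈ K, ∑ s ∈ W.filter (fun t => q t = k), ∑ t ∈ W.filter (fun t => q t = k), f (s, t) := by
  rw [← sum_fiberwise_of_maps_to (s := (W ×ˢ W).filter (fun p => q p.1 = q p.2)) (t := K)
    (g := fun p => q p.1) (fun p hp => hq _ (mem_product.1 (mem_filter.1 hp).1).1)]
  refine sum_congr rfl fun k _ => ?_
  rw [← sum_product']
  refine sum_congr ?_ fun _ _ => rfl
  ext p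
  simp only [mem_filter, mem_product]
  constructor
  · rintro ⟨⟨⟨h1, h2⟩, h3⟩, h4⟩
    exact ⟨⟨h1, h4⟩, h2, h3 ▸ h4⟩
  · rintro ⟨⟨h1, h4⟩, h2, h3⟩
    exact ⟨⟨⟨h1, h2⟩, h4.trans h3.symm⟩, h4⟩

theorem pr_stmt : PrStmt := by
  intro N T H b V W hN hH hb hV hW hWV
  have hH' : (0 : ℤ) < H := by exact_mod_cast hH
  have hq : ∀ t ∈ W, t / (H : ℤ) ∈ Icc (0 : ℤ) ((T : ℤ) / H) := fun t ht => by
    obtain ⟨h1, h2⟩ := mem_Icc.1 (hW ht)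
    exact mem_Icc.2 ⟨Int.ediv_nonneg h1 hH'.le, Int.ediv_le_ediv hH' h2⟩
  have hcard : (((W ×ˢ W).filter (fun p => p.1 / (H : ℤ) = p.2 / (H : ℤ))).card : ℝ) =
      ∑ k ∈ Icc (0 : ℤ) ((T : ℤ) / H), ((W.filter (fun t => t / (H : ℤ) = k)).card : ℝ) ^ 2 := by
    have := fib_Pr W _ (fun t => t / (H : ℤ)) hq fun _ => 1
    simp only [sum_const, nsmul_eq_mul, mul_one] at this
    rw [this]
    exact sum_congr rfl fun k _ => by ring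
  refine ⟨(W ×ˢ W).filter (fun p => p.1 / (H : ℤ) = p.2 / (H : ℤ)), fun p hp => ?_, ?_, ?_⟩
  · obtain ⟨h1, h2⟩ := mem_filter.1 hp
    obtain ⟨h3, h4⟩ := mem_product.1 h1
    refine ⟨h3, h4, ?_⟩
    have a1 := Int.mul_ediv_add_emod p.1 (H : ℤ)
    have a2 := Int.mul_ediv_add_emod p.2 (H : ℤ)
    have a3 := Int.emod_nonneg p.1 hH'.ne'
    have a4 := Int.emod_nonneg p.2 hH'.ne'
    have a5 := Int.emod_lt_of_pos p.1 hH'
    have a6 := Int.emod_lt_of_pos p.2 hH'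
    rw [h2] at a1
    rw [abs_le]
    constructor <;> linarith
  · rw [hcard]
    have h1 : (W.card : ℝ) =
        ∑ k ∈ Icc (0 : ℤ) ((T : ℤ) / H), ((W.filter (fun t => t / (H : ℤ) = k)).card : ℝ) := by
      exact_mod_cast card_eq_sum_card_fiberwise (f := fun t => t / (H : ℤ)) hq
    rw [h1]
    refine (sq_sum_le_card_mul_sum_sq).trans
      (mul_le_mul_of_nonneg_right ?_ (sum_nonneg fun _ _ => sq_nonneg _))
    have h2 : (Icc (0 : ℤ) ((T : ℤ) / H)).card = T / H + 1 := by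
      rw [Int.card_Icc, ← Int.natCast_ediv]
      generalize T / H = m
      omega
    rw [h2]
    push_cast
    have := Nat.cast_div_le (α := ℝ) (m := T) (n := H)
    linarith
  · rw [hcard, fib_Pr W _ (fun t => t / (H : ℤ)) hq fun p => ‖KK N ((p.1 : ℝ) - p.2)‖,
      sum_mul, mul_sum]
    exact sum_le_sum fun k _ => block_Pr hN hb hV _ fun t ht => hWV t (mem_filter.1 ht).1

end Pool.Agent.MP_2a1f0e_nt.DH
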