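import Pool.Agent.MP_2a1f0e_nt.DH.Basic
set_option autoImplicit false
open Finset
namespace Pool.Agent.MP_2a1f0e_nt.DH
open Pool.Agent.MP_2a1f0e_nt.GM

/-- the oscillatory integral with a complex frequency -/
noncomputable def Hz_Refl (u : ℝ) (z : ℂ) : ℂ :=
  ∫ x : ℝ, (Wt x : ℂ) * pw x u * Complex.exp (-(z * x))

lemma int_Wt_Refl : MeasureTheory.Integrable Wt :=
  continuous_Wt.integrable_of_hasCompactSupport hasCompactSupport_Wt

lemma int_Hz_Refl (u : ℝ) (z : ℂ) :
    MeasureTheory.Integrable fun x : ℝ => (Wt x : ℂ) * pw x u * Complex.exp (-(z * x)) := by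
  have h1 : MeasureTheory.Integrable fun x : ℝ => (Wt x : ℂ) * Complex.exp (-(z * x)) := by
    refine Continuous.integrable_of_hasCompactSupport
      ((Complex.continuous_ofReal.comp continuous_Wt).mul (by fun_prop)) ?_
    exact (hasCompactSupport_Wt.comp_left (g := Complex.ofReal) Complex.ofReal_zero).mul_right
  refine (h1.mul_bdd (measurable_pw u).aestronglyMeasurable
    (Filter.Eventually.of_forall fun x => (norm_pw x u).le)).congr
    (Filter.Eventually.of_forall fun x => ?_)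
  dsimp only
  ring

lemma HH_eq_Refl (u ξ : ℝ) : HH u ξ = Hz_Refl u (((2 * Real.pi * ξ : ℝ) : ℂ) * Complex.I) := by
  unfold HH Hz_Refl ex
  congr 1
  funext x
  congr 2
  push_cast
  ring

lemma lim_Refl (u a y : ℝ) (ha : 0 ≤ a) :
    ‖Hz_Refl u ((y : ℂ) * Complex.I) - Hz_Refl u (a + (y : ℂ) * Complex.I)‖ ≤
      a * (9 / 4 * ∫ x, Wt x) := by
  rw [Hz_Refl, Hz_Refl, ← MeasureTheory.integral_sub (int_Hz_Refl _ _) (int_Hz_Refl _ _),
    ← mul_assoc, ← MeasureTheory.integral_const_mul]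
  refine MeasureTheory.norm_integral_le_of_norm_le (int_Wt_Refl.const_mul _)
    (Filter.Eventually.of_forall fun x => ?_)
  by_cases h : Wt x = 0
  · simp [h]
  obtain ⟨h1, h2⟩ := mem_of_Wt_ne_zero h
  have e : Complex.exp (-((y : ℂ) * Complex.I * x)) -
      Complex.exp (-((a + (y : ℂ) * Complex.I) * x)) =
      Complex.exp (((-(y * x) : ℝ) : ℂ) * Complex.I) * ((1 - Real.exp (-(a * x)) : ℝ) : ℂ) := by
    push_cast
    rw [mul_sub, mul_one, ← Complex.exp_add]
    congr 2 <;> ring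
  have h3 : Real.exp (-(a * x)) ≤ 1 := Real.exp_le_one_iff.2 (by nlinarith)
  have h4 := Real.add_one_le_exp (-(a * x))
  rw [← mul_sub, e, norm_mul, norm_mul, norm_mul, norm_pw, Complex.norm_exp_ofReal_mul_I,
    Complex.norm_real, Complex.norm_real, Real.norm_of_nonneg (Wt_nonneg x),
    Real.norm_of_nonneg (sub_nonneg.2 h3), mul_one, one_mul, mul_comm]
  exact mul_le_mul_of_nonneg_right (by nlinarith) (Wt_nonneg x)

lemma int_kpZ_Refl (M : ℕ) (u : ℝ) :
    MeasureTheory.Integrable fun ξ : ℝ => kp ξ * ‖ZZ M (u + ξ)‖ :=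
  integrable_kp.mul_bdd
    ((continuous_ZZ M).comp (continuous_const.add continuous_id)).norm.aestronglyMeasurable
    (Filter.Eventually.of_forall fun _ => (norm_norm _).trans_le (norm_ZZ_le M _))

lemma sum_Ms_Refl (M : ℕ) (f : ℤ → ℂ) :
    ∑ m ∈ Ms M, f m = ∑ m ∈ Icc 1 M, f (m : ℕ) + ∑ m ∈ Icc 1 M, f (-(m : ℕ)) := by
  induction M with
  | zero => simp [Ms]
  | succ M ih =>
    have e : Ms (M + 1) = insert ((M + 1 : ℕ) : ℤ) (insert (-((M + 1 : ℕ) : ℤ)) (Ms M)) := by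
      ext m
      simp only [mem_insert, mem_Ms]
      omega
    rw [e, sum_insert (by simp only [mem_insert, mem_Ms]; omega),
      sum_insert (by simp only [mem_Ms]; omega), ih, sum_Icc_succ_top (by omega),
      sum_Icc_succ_top (by omega)]
    ring

lemma side_Refl (hF : FubStmt) (hG : GamStmt) : ∃ C : ℝ, 0 < C ∧ ∀ N M : ℕ, 1 ≤ N →
    ∀ u σ : ℝ, |σ| = 1 → ‖∑ m ∈ Icc 1 M, HH u (σ * m * N)‖ ≤
      C * hf N * ∫ ξ : ℝ, kp ξ * ‖ZZ M (u + ξ)‖ := by
  obtain ⟨C, hC, φ, hφ, h⟩ := hF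
  refine ⟨C, hC, fun N M hN u σ hσ => ?_⟩
  have hN' : (0 : ℝ) < N := by exact_mod_cast hN
  have key : ∀ r : ℂ, 0 < r.re → 2 * Real.pi ≤ ‖r‖ →
      ‖∑ m ∈ Icc 1 M, Hz_Refl u ((((m : ℝ) * N : ℝ) : ℂ) * r)‖ ≤
        C * hf N * ∫ ξ : ℝ, kp ξ * ‖ZZ M (u + ξ)‖ := by
    intro r h1 h2
    obtain ⟨hi, he⟩ := h u r h1
    have hm : ∀ m ∈ Icc 1 M, (0 : ℝ) < m := fun m hm => by
      exact_mod_cast (mem_Icc.1 hm).1
    have hk : ∀ k : ℝ, MeasureTheory.Integrable fun ξ : ℝ =>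
        φ ξ * GI r (u + ξ) * ((hf k : ℂ) * pw k (-(u + ξ))) := fun k =>
      hi.mul_bdd (c := hf k) (continuous_const.mul ((continuous_pw _).comp
          (continuous_const.add continuous_id).neg)).aestronglyMeasurable
        (Filter.Eventually.of_forall fun ξ => by
          rw [norm_mul, norm_pw, mul_one, Complex.norm_real, Real.norm_of_nonneg (hf_nonneg _)])
    unfold Hz_Refl
    rw [sum_congr rfl fun (m : ℕ) hm' => he _ (mul_pos (hm m hm') hN'),
      ← MeasureTheory.integral_finsetSum _ fun (m : ℕ) _ => hk ((m : ℝ) * N),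
      ← MeasureTheory.integral_const_mul]
    refine MeasureTheory.norm_integral_le_of_norm_le ((int_kpZ_Refl M u).const_mul _)
      (Filter.Eventually.of_forall fun ξ => ?_)
    have e : ∑ m ∈ Icc 1 M, ((hf ((m : ℝ) * N) : ℝ) : ℂ) * pw ((m : ℝ) * N) (-(u + ξ)) =
        (hf N : ℂ) * pw N (-(u + ξ)) * ZZ M (-(u + ξ)) := by
      rw [ZZ, PP, mul_sum]
      refine sum_congr rfl fun m hm' => ?_
      rw [hf_mul (hm m hm').le, pw_mul (hm m hm').ne' hN'.ne']
      push_cast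
      ring
    rw [← mul_sum, e, norm_mul, norm_mul, norm_mul, norm_mul, norm_pw, norm_ZZ_neg,
      Complex.norm_real, Real.norm_of_nonneg (hf_nonneg _), mul_one]
    have h3 : ‖φ ξ‖ * ‖GI r (u + ξ)‖ ≤ C * kp ξ :=
      (mul_le_of_le_one_right (norm_nonneg _) (hG r _ h1 h2)).trans (hφ ξ)
    exact (mul_le_mul_of_nonneg_right h3 (mul_nonneg (hf_nonneg _) (norm_nonneg _))).trans_eq
      (by ring)
  have hW : 0 ≤ 9 / 4 * ∫ x, Wt x :=
    mul_nonneg (by norm_num) (MeasureTheory.integral_nonneg Wt_nonneg)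
  obtain ⟨D, hD, hD0⟩ : ∃ D : ℝ, D = ∑ m ∈ Icc 1 M, (m : ℝ) * N * (9 / 4 * ∫ x, Wt x) ∧ 0 ≤ D :=
    ⟨_, rfl, sum_nonneg fun m _ => by positivity⟩
  refine le_of_forall_pos_le_add fun ε hε => ?_
  have he : 0 < ε / (D + 1) := by positivity
  have h1 := key (((ε / (D + 1) : ℝ) : ℂ) + ((2 * Real.pi * σ : ℝ) : ℂ) * Complex.I)
    (by
      rw [Complex.add_re, Complex.ofReal_re, Complex.re_ofReal_mul, Complex.I_re, mul_zero, add_zero]
      exact he)
    (by
      refine le_trans (le_of_eq ?_) (Complex.abs_im_le_norm _)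
      rw [Complex.add_im, Complex.ofReal_im, Complex.im_ofReal_mul, Complex.I_im, mul_one,
        zero_add, abs_mul, hσ, mul_one, abs_of_pos (by positivity)])
  refine (norm_le_norm_add_norm_sub' _ _).trans (add_le_add h1 ?_)
  rw [← sum_sub_distrib]
  refine (norm_sum_le _ _).trans ((sum_le_sum
    (g := fun m : ℕ => ε / (D + 1) * ((m : ℝ) * N * (9 / 4 * ∫ x, Wt x))) fun m _ => ?_).trans ?_)
  · have h2 := lim_Refl u ((m : ℝ) * N * (ε / (D + 1))) (2 * Real.pi * (σ * m * N)) (by positivity)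
    rw [HH_eq_Refl]
    refine (le_of_eq ?_).trans (h2.trans_eq (by ring))
    congr 3
    push_cast
    ring
  · rw [← mul_sum, ← hD, div_mul_eq_mul_div, div_le_iff₀ (by positivity)]
    nlinarith

theorem refl_stmt (hF : FubStmt) (hG : GamStmt) : ReflStmt := by
  obtain ⟨C, hC, h⟩ := side_Refl hF hG
  refine ⟨2 * C, by positivity, fun N M hN u => ?_⟩
  have hN' : (0 : ℝ) < N := by exact_mod_cast hN
  have h1 := h N M hN u 1 abs_one
  have h2 := h N M hN u (-1) (by rw [abs_neg, abs_one])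
  have h3 : (N : ℝ) * hf N = √N := by
    rw [hf, mul_one_div, Real.div_sqrt]
  rw [Kb, sum_Ms_Refl, norm_mul, norm_mul, norm_pw, mul_one, Complex.norm_natCast, ← h3]
  simp only [one_mul, neg_mul] at h1 h2
  simp only [Int.cast_neg, Int.cast_natCast, neg_mul]
  exact (mul_le_mul_of_nonneg_left ((norm_add_le _ _).trans (add_le_add h1 h2)) hN'.le).trans_eq
    (by ring)

theorem avg_stmt (hR : ReflStmt) : AvgStmt := by
  obtain ⟨C, hC, h⟩ := hR
  refine ⟨C * Real.pi, mul_pos hC Real.pi_pos, fun N M hN ι s w u B hw hB => ?_⟩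
  have h1 : ∑ i ∈ s, w i * ∫ ξ : ℝ, kp ξ * ‖ZZ M (u i + ξ)‖ ≤ Real.pi * B := by
    simp only [← MeasureTheory.integral_const_mul]
    rw [← MeasureTheory.integral_finsetSum _ fun i _ => (int_kpZ_Refl M (u i)).const_mul _,
      ← integral_kp, ← MeasureTheory.integral_mul_const]
    refine MeasureTheory.integral_mono (MeasureTheory.integrable_finsetSum _ fun i _ =>
      (int_kpZ_Refl M (u i)).const_mul _) (integrable_kp.mul_const _) fun ξ => ?_
    refine le_trans (le_of_eq ?_) (mul_le_mul_of_nonneg_left (hB ξ) (kp_pos ξ).le)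
    rw [mul_sum]
    exact sum_congr rfl fun i _ => by ring
  refine (sum_le_sum fun i hi => mul_le_mul_of_nonneg_left (h N M hN (u i)) (hw i hi)).trans ?_
  simp only [mul_left_comm (w _)]
  rw [← mul_sum]
  exact (mul_le_mul_of_nonneg_left h1 (by positivity)).trans_eq (by ring)

end Pool.Agent.MP_2a1f0e_nt.DH
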