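import Pool.Agent.MP_2a1f0e_nt.DH.Basic
set_option autoImplicit false
open Finset
namespace Pool.Agent.MP_2a1f0e_nt.DH
open Pool.Agent.MP_2a1f0e_nt.GM

lemma rpow_SetA {L a n δ : ℝ} (k : ℕ) (hL : 0 ≤ L) (ha : 1 ≤ a) (hn : 0 ≤ n) (h0 : 0 ≤ δ)
    (h1 : δ ≤ 1) (h : L ≤ a * n ^ k) : L ^ δ ≤ a * (n ^ δ) ^ k := by
  refine (Real.rpow_le_rpow hL h h0).trans ?_
  rw [Real.mul_rpow (by linarith) (by positivity), ← Real.rpow_natCast, ← Real.rpow_natCast,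
    ← Real.rpow_mul hn, ← Real.rpow_mul hn, mul_comm δ]
  refine mul_le_mul_of_nonneg_right ?_ (by positivity)
  simpa using Real.rpow_le_rpow_of_exponent_le ha h1

theorem setA_stmt (hK : K1Stmt) (hM : MomStmt) (hB : KbJStmt) (hJ : JutStmt) : SetAStmt := by
  intro ε hε
  set δ := min ε 1 / 10 with hδ
  have hm0 : 0 < min ε 1 := lt_min hε one_pos
  have δ0 : 0 < δ := by positivity
  have δ1 : δ ≤ 1 := by linarith [min_le_right ε 1]
  obtain ⟨E, hE, hK⟩ := hK δ δ0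
  obtain ⟨C₁, hC₁, hM⟩ := hM δ δ0
  obtain ⟨C₂, hC₂, hB⟩ := hB
  obtain ⟨C₃, hC₃, hJ⟩ := hJ δ δ0
  obtain ⟨c, hc, hD⟩ := exists_DivB δ0
  have hs3 := Real.sqrt_nonneg C₃
  have hp1 : 0 ≤ C₁ * 625 ^ 2 := by positivity
  have hp2 : 0 ≤ 625 * C₂ * c * √C₃ := by positivity
  refine ⟨1 + E + C₁ * 625 ^ 2 + 625 * C₂ * c * √C₃, by linarith, fun N H hN hNH hH => ?_⟩
  have n1 : (1 : ℝ) ≤ N := by exact_mod_cast hN
  have nH : (N : ℝ) ≤ H := by exact_mod_cast hNH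
  have H3 : (H : ℝ) ^ 3 ≤ (N : ℝ) ^ 4 := by exact_mod_cast hH
  have n0 : (0 : ℝ) < N := by linarith
  have H0 : (0 : ℝ) < H := by linarith
  set y := (N : ℝ) ^ δ with hy
  have y1 : 1 ≤ y := Real.one_le_rpow n1 δ0.le
  have yN : y ≤ N := by simpa using Real.rpow_le_rpow_of_exponent_le n1 δ1
  have y10 : y ^ 10 ≤ (N : ℝ) ^ ε := by
    rw [hy, ← Real.rpow_natCast, ← Real.rpow_mul n0.le]
    refine Real.rpow_le_rpow_of_exponent_le n1 ?_
    push_cast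
    linarith [min_le_left ε 1]
  have H2 : (H : ℝ) ≤ (N : ℝ) ^ 2 := by
    refine (pow_le_pow_iff_left₀ H0.le (by positivity) three_ne_zero).1 (H3.trans ?_)
    rw [← pow_mul]
    exact pow_le_pow_right₀ n1 (by norm_num)
  set h := (H : ℝ) ^ (2 / 3 : ℝ) with hh
  have h1 : 1 ≤ h := Real.one_le_rpow (by linarith) (by norm_num)
  have h3 : h ^ 3 = (H : ℝ) ^ 2 := by
    rw [hh, ← Real.rpow_natCast, ← Real.rpow_mul H0.le, ← Real.rpow_natCast]
    norm_num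
  have hN' : h ≤ N := by
    refine (pow_le_pow_iff_left₀ (by linarith) n0.le (n := 9) (by norm_num)).1 ?_
    calc h ^ 9 = ((H : ℝ) ^ 3) ^ 2 := by rw [show 9 = 3 * 3 from rfl, pow_mul, h3]; ring
      _ ≤ ((N : ℝ) ^ 4) ^ 2 := pow_le_pow_left₀ (by positivity) H3 2
      _ ≤ (N : ℝ) ^ 9 := by
        rw [← pow_mul]
        exact pow_le_pow_right₀ n1 (by norm_num)
  set q := (H : ℝ) / N with hq
  have q1 : 1 ≤ q := (one_le_div n0).2 nH
  have q4 : q ^ 4 ≤ H := by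
    rw [hq, div_pow, div_le_iff₀ (by positivity), pow_succ', mul_le_mul_iff_right₀ H0]
    exact H3
  have q2 : q ^ 2 ≤ h := by
    rw [hq, div_pow, div_le_iff₀ (by positivity), ← h3, pow_succ', mul_le_mul_iff_right₀ (by linarith)]
    exact pow_le_pow_left₀ (by linarith) hN' 2
  have yq : 1 ≤ y * q := one_le_mul_of_one_le_of_one_le y1 q1
  obtain ⟨M, M1, M2⟩ : ∃ M : ℕ, 4 * (y * q) ≤ M ∧ (M : ℝ) ≤ 5 * (y * q) :=
    ⟨⌈4 * (y * q)⌉₊, Nat.le_ceil _, by linarith [Nat.ceil_lt_add_one (a := 4 * (y * q)) (by linarith)]⟩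
  have Nε : 0 ≤ (N : ℝ) ^ ε := by positivity
  refine ⟨M, ?_, fun ξ => ?_, fun g hg => ?_⟩
  · refine (hK N M (2 * H) hN (by omega) ?_ ?_).trans
      (mul_le_mul_of_nonneg_right (by linarith) n0.le)
    · have : H ≤ N ^ 2 := by exact_mod_cast H2
      omega
    · refine le_trans (le_of_eq ?_) (mul_le_mul_of_nonneg_left M1 n0.le)
      rw [hq]
      push_cast
      field_simp
      ring
  · have y4 : 1 ≤ y ^ 4 := one_le_pow₀ y1
    have hL : ((max (M ^ 4) (3 * H) : ℕ) : ℝ) ≤ 625 * y ^ 4 * H := by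
      push_cast
      refine max_le ?_ (by nlinarith)
      calc (M : ℝ) ^ 4 ≤ (5 * (y * q)) ^ 4 := pow_le_pow_left₀ (by positivity) M2 4
        _ = 625 * y ^ 4 * q ^ 4 := by ring
        _ ≤ _ := by gcongr
    have hL' : ((max (M ^ 4) (3 * H) : ℕ) : ℝ) ^ δ ≤ 625 * y ^ 6 := by
      refine rpow_SetA 6 (by positivity) (by norm_num) n0.le δ0.le δ1 (hL.trans ?_)
      calc 625 * y ^ 4 * H ≤ 625 * (N : ℝ) ^ 4 * (N : ℝ) ^ 2 := by gcongr
        _ = _ := by ring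
    refine ((hM M (max (M ^ 4) (3 * H)) H ξ (by omega) (le_max_right _ _)).2
      (le_max_left _ _)).trans ?_
    calc _ ≤ C₁ * (625 * y ^ 6) * (625 * y ^ 4 * H) := by gcongr
      _ = C₁ * 625 ^ 2 * y ^ 10 * H := by ring
      _ ≤ _ := by gcongr; linarith
  · set L := max (M ^ 2) ⌈2 * h⌉₊ with hLd
    have y2 : 1 ≤ y ^ 2 := one_le_pow₀ y1
    have L0 : 2 * h ≤ L := (Nat.le_ceil _).trans (by exact_mod_cast le_max_right _ _)
    have L1 : 1 ≤ L := by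
      have : (1 : ℝ) ≤ L := by linarith
      exact_mod_cast this
    have hL : (L : ℝ) ≤ 25 * y ^ 2 * h := by
      rw [hLd]
      push_cast
      refine max_le ?_ ?_
      · calc (M : ℝ) ^ 2 ≤ (5 * (y * q)) ^ 2 := pow_le_pow_left₀ (by positivity) M2 2
          _ = 25 * y ^ 2 * q ^ 2 := by ring
          _ ≤ _ := by gcongr
      · nlinarith [Nat.ceil_lt_add_one (a := 2 * h) (by linarith)]
    have hL' : (L : ℝ) ^ δ ≤ 25 * y ^ 3 := by
      refine rpow_SetA 3 (by positivity) (by norm_num) n0.le δ0.le δ1 (hL.trans ?_)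
      calc 25 * y ^ 2 * h ≤ 25 * (N : ℝ) ^ 2 * N := by gcongr
        _ = _ := by ring
    have hD3 : (2 * H) ^ 2 ≤ L ^ 3 := by
      have : (((2 * H) ^ 2 : ℕ) : ℝ) ≤ ((L ^ 3 : ℕ) : ℝ) := by
        push_cast
        refine le_trans ?_ (pow_le_pow_left₀ (by linarith) L0 3)
        rw [mul_pow, mul_pow, h3]
        nlinarith [sq_nonneg (H : ℝ)]
      exact_mod_cast this
    have hd : Diam (Icc (-(H : ℤ)) H) (2 * H) := by
      intro a ha b hb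
      rw [mem_Icc] at ha hb
      rw [abs_le]
      push_cast
      omega
    have e1 := hB N M L _ (Icc (-(H : ℤ)) H) g hN (le_max_left _ _) (hD L L1) fun x _ => hg x
    have e2 := hJ L (2 * H) (Icc (-(H : ℤ)) H) g L1 hD3 hd fun x _ => hg x
    set G₁ := ∑ d ∈ Icc (-(H : ℤ)) H, g d with hG₁
    set G₂ := ∑ d ∈ Icc (-(H : ℤ)) H, g d ^ 2 with hG₂
    have g1 : 0 ≤ G₁ := sum_nonneg fun x _ => hg x
    have g2 : 0 ≤ G₂ := sum_nonneg fun x _ => sq_nonneg _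
    have hX : 0 ≤ h * G₂ + G₁ ^ 2 := by positivity
    have e3 : L * G₂ + G₁ ^ 2 ≤ 25 * y ^ 3 * (h * G₂ + G₁ ^ 2) := by
      have y3 : y ^ 2 ≤ y ^ 3 := pow_le_pow_right₀ y1 (by norm_num)
      have a1 : (L : ℝ) * G₂ ≤ 25 * y ^ 3 * h * G₂ := by
        refine mul_le_mul_of_nonneg_right (hL.trans ?_) g2
        gcongr
      have a2 : 1 * G₁ ^ 2 ≤ 25 * y ^ 3 * G₁ ^ 2 :=
        mul_le_mul_of_nonneg_right (by linarith) (sq_nonneg _)
      linarith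
    have e4 : √(EE (Icc (-(H : ℤ)) H) g (ZZ L)) ≤ 25 * y ^ 3 * (√C₃ * √(h * G₂ + G₁ ^ 2)) := by
      rw [← Real.sqrt_mul hC₃.le, ← Real.sqrt_sq (x := 25 * y ^ 3) (by positivity),
        ← Real.sqrt_mul (by positivity)]
      refine Real.sqrt_le_sqrt (e2.trans ?_)
      calc _ ≤ C₃ * (25 * y ^ 3) * (25 * y ^ 3 * (h * G₂ + G₁ ^ 2)) := by gcongr
        _ = _ := by ring
    have y6 : y ^ 6 ≤ (N : ℝ) ^ ε := (pow_le_pow_right₀ y1 (by norm_num)).trans y10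
    refine e1.trans ?_
    calc _ ≤ C₂ * N * (c * (25 * y ^ 3)) * G₁ * (25 * y ^ 3 * (√C₃ * √(h * G₂ + G₁ ^ 2))) := by
          gcongr
      _ = 625 * C₂ * c * √C₃ * y ^ 6 * N * G₁ * √(h * G₂ + G₁ ^ 2) := by ring
      _ ≤ _ := by gcongr; linarith

end Pool.Agent.MP_2a1f0e_nt.DH
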