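import Pool.Agent.MP_2a1f0e_nt.DH.Basic

set_option autoImplicit false

open Finset

namespace Pool.Agent.MP_2a1f0e_nt.DH

open Pool.Agent.MP_2a1f0e_nt.GM

open scoped ComplexConjugate InnerProductSpace

lemma swap_Spec {α γ : Type} (W : Finset α) (J : Finset γ) (β : γ → α → ℂ) :
    ∑ t ∈ W, ∑ t' ∈ W, ‖∑ j ∈ J, conj (β j t) * β j t'‖ ^ 2 =
      ∑ j ∈ J, ∑ k ∈ J, ‖∑ t ∈ W, conj (β j t) * β k t‖ ^ 2 := by
  apply Complex.ofReal_injective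
  simp only [Complex.ofReal_sum, Complex.ofReal_pow, ← Complex.mul_conj', map_sum, map_mul,
    Complex.conj_conj, sum_mul_sum]
  calc _ = ∑ t ∈ W, ∑ j ∈ J, ∑ k ∈ J, ∑ t' ∈ W,
        conj (β j t) * β j t' * (β k t * conj (β k t')) := by
        refine sum_congr rfl fun t _ => ?_
        rw [sum_comm]
        exact sum_congr rfl fun j _ => sum_comm
    _ = _ := by
        rw [sum_comm]
        refine sum_congr rfl fun j _ => ?_
        rw [sum_comm]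
        exact sum_congr rfl fun k _ => sum_congr rfl fun t _ => sum_congr rfl fun t' _ => by ring

lemma diag_Spec {α : Type} (W : Finset α) (y : α → ℂ) :
    ∑ t ∈ W, conj (y t) * y t = ((∑ t ∈ W, ‖y t‖ ^ 2 : ℝ) : ℂ) := by
  simp only [Complex.conj_mul', Complex.ofReal_sum, Complex.ofReal_pow]

lemma cs_Spec {α : Type} (s : Finset α) (G K : α → α → ℂ) :
    (∑ d ∈ s, ∑ e ∈ s, G d e * K d e).re ≤
      √(∑ d ∈ s, ∑ e ∈ s, ‖G d e‖ ^ 2) * √(∑ d ∈ s, ∑ e ∈ s, ‖K d e‖ ^ 2) := by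
  simp only [← sum_product']
  refine ((Complex.re_le_norm _).trans (norm_sum_le _ _)).trans ?_
  simp only [norm_mul]
  exact Real.sum_mul_le_sqrt_mul_sqrt _ _ _

lemma core_Spec {α J : Type} [Fintype J] [DecidableEq J] (s : Finset α) (x : J → α → ℂ)
    (μ c : J → ℝ) (G : α → α → ℂ) {lam : ℝ} (hl : 0 ≤ lam) (hc : ∀ j, 0 ≤ c j)
    (hμ : ∀ j, 0 ≤ μ j)
    (hO : ∀ j k, ∑ d ∈ s, conj (x j d) * x k d = if j = k then (μ j : ℂ) else 0)
    (hH : ∀ j, μ j ^ 2 - (∑ d ∈ s, ∑ e ∈ s, conj (x j d) * x j e * G d e).re ≤ lam * μ j) :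
    ∑ j, μ j * c j ≤ lam * ∑ j, c j + √(∑ d ∈ s, ∑ e ∈ s, ‖G d e‖ ^ 2) * √(∑ j, c j ^ 2) := by
  have hw : ∀ j, 0 ≤ c j / μ j := fun j => div_nonneg (hc j) (hμ j)
  have h1 : ∀ j, μ j * c j ≤ lam * c j +
      c j / μ j * (∑ d ∈ s, ∑ e ∈ s, conj (x j d) * x j e * G d e).re := fun j => by
    rcases (hμ j).eq_or_lt with h | h
    · rw [← h, div_zero, zero_mul, zero_mul, add_zero]
      exact mul_nonneg hl (hc j)
    · have h2 := mul_le_mul_of_nonneg_left (hH j) (hw j)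
      have e1 : c j / μ j * μ j ^ 2 = μ j * c j := by field_simp
      have e2 : c j / μ j * (lam * μ j) = lam * c j := by field_simp
      rw [mul_sub, e1, e2] at h2
      linarith
  obtain ⟨β, hβ⟩ : ∃ β : J → α → ℂ, ∀ j d, β j d = (√(c j / μ j) : ℝ) * x j d :=
    ⟨_, fun _ _ => rfl⟩
  have e3 : ∀ j d e, conj (β j d) * β j e = (c j / μ j : ℝ) * (conj (x j d) * x j e) :=
    fun j d e => by
      rw [hβ, hβ, map_mul, Complex.conj_ofReal, mul_mul_mul_comm, ← Complex.ofReal_mul,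
        Real.mul_self_sqrt (hw j)]
  have h2 : ∑ j, c j / μ j * (∑ d ∈ s, ∑ e ∈ s, conj (x j d) * x j e * G d e).re =
      (∑ d ∈ s, ∑ e ∈ s, G d e * ∑ j, conj (β j d) * β j e).re := by
    simp only [← Complex.re_ofReal_mul, ← Complex.re_sum, e3, mul_sum]
    congr 1
    rw [sum_comm]
    refine sum_congr rfl fun d _ => ?_
    rw [sum_comm]
    exact sum_congr rfl fun e _ => sum_congr rfl fun j _ => by ring
  have h3 : ∑ d ∈ s, ∑ e ∈ s, ‖∑ j, conj (β j d) * β j e‖ ^ 2 ≤ ∑ j, c j ^ 2 := by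
    rw [swap_Spec]
    refine sum_le_sum fun j _ => ?_
    rw [sum_eq_single j (fun k _ hk => ?_) (fun h => (h (mem_univ j)).elim)]
    · simp only [e3, ← mul_sum, hO, if_true]
      rw [← Complex.ofReal_mul, Complex.norm_real, Real.norm_eq_abs, sq_abs]
      refine pow_le_pow_left₀ (mul_nonneg (hw j) (hμ j)) ?_ 2
      rcases (hμ j).eq_or_lt with h | h
      · rw [← h, mul_zero]
        exact hc j
      · rw [div_mul_cancel₀ _ h.ne']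
    · simp only [hβ, map_mul, mul_mul_mul_comm (conj _) (conj (x j _)), ← mul_sum, hO,
        if_neg hk.symm, mul_zero, norm_zero]
      norm_num
  refine (sum_le_sum fun j _ => h1 j).trans ?_
  rw [sum_add_distrib, ← mul_sum, h2]
  exact add_le_add_right ((cs_Spec s G _).trans
    (mul_le_mul_of_nonneg_left (Real.sqrt_le_sqrt h3) (Real.sqrt_nonneg _))) _

lemma abs_Spec {E α γ : Type} [NormedAddCommGroup E] [InnerProductSpace ℂ E]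
    [FiniteDimensional ℂ E] (s : Finset α) (W : Finset γ) (a : α → E) (b : γ → E)
    (G : α → α → ℂ) {lam : ℝ} (hl : 0 ≤ lam)
    (h : ∀ x : α → ℂ, ‖∑ d ∈ s, ∑ e ∈ s, conj (x d) * x e * (⟪a d, a e⟫_ℂ - G d e)‖ ≤
      lam * ∑ d ∈ s, ‖x d‖ ^ 2) :
    ∑ t ∈ W, ∑ d ∈ s, ‖⟪a d, b t⟫_ℂ‖ ^ 2 ≤ lam * ∑ t ∈ W, ‖b t‖ ^ 2 +
      √(∑ d ∈ s, ∑ e ∈ s, ‖G d e‖ ^ 2) * √(∑ t ∈ W, ∑ t' ∈ W, ‖⟪b t, b t'⟫_ℂ‖ ^ 2) := by
  obtain ⟨M, hM⟩ : ∃ M : E →ₗ[ℂ] E, ∀ v, M v = ∑ d ∈ s, ⟪a d, v⟫_ℂ • a d :=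
    ⟨∑ d ∈ s, (innerSL ℂ (a d)).toLinearMap.smulRight (a d), fun v => by
      simp [LinearMap.sum_apply]⟩
  have hin : ∀ u v, ⟪u, M v⟫_ℂ = ∑ d ∈ s, conj ⟪a d, u⟫_ℂ * ⟪a d, v⟫_ℂ := fun u v => by
    simp only [hM, inner_sum, inner_smul_right, inner_conj_symm, mul_comm]
  have hs : M.IsSymmetric := fun u v => by
    rw [← inner_conj_symm, hin, hin]
    simp only [map_sum, map_mul, Complex.conj_conj, mul_comm]
  obtain ⟨n, e, μ, he⟩ : ∃ (n : ℕ) (e : OrthonormalBasis (Fin n) ℂ E) (μ : Fin n → ℝ),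
      ∀ j, M (e j) = (μ j : ℂ) • e j :=
    ⟨_, hs.eigenvectorBasis rfl, hs.eigenvalues rfl, hs.apply_eigenvectorBasis rfl⟩
  have hO : ∀ j k, ∑ d ∈ s, conj ⟪a d, e j⟫_ℂ * ⟪a d, e k⟫_ℂ =
      if j = k then (μ j : ℂ) else 0 := fun j k => by
    rw [← hin, he, inner_smul_right, orthonormal_iff_ite.1 e.orthonormal]
    split_ifs with hjk
    · rw [hjk, mul_one]
    · rw [mul_zero]
  have hμ : ∀ j, μ j = ∑ d ∈ s, ‖⟪a d, e j⟫_ℂ‖ ^ 2 := fun j => by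
    apply Complex.ofReal_injective
    rw [← diag_Spec, hO, if_pos rfl]
  have hQ : ∀ j, ∑ d ∈ s, ∑ d' ∈ s, conj ⟪a d, e j⟫_ℂ * ⟪a d', e j⟫_ℂ * ⟪a d, a d'⟫_ℂ =
      ((μ j ^ 2 : ℝ) : ℂ) := fun j => by
    have h1 : ⟪M (e j), M (e j)⟫_ℂ = ((μ j ^ 2 : ℝ) : ℂ) := by
      rw [he, inner_smul_left, inner_smul_right, orthonormal_iff_ite.1 e.orthonormal,
        if_pos rfl, Complex.conj_ofReal]
      push_cast
      ring
    rw [← h1, hM, sum_inner]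
    simp only [inner_sum, inner_smul_left, inner_smul_right, mul_assoc, mul_left_comm]
  have hL : ∀ v, ∑ d ∈ s, ‖⟪a d, v⟫_ℂ‖ ^ 2 = ∑ j, μ j * ‖⟪e j, v⟫_ℂ‖ ^ 2 := fun v => by
    apply Complex.ofReal_injective
    rw [← diag_Spec, ← hin, ← e.sum_inner_mul_inner, Complex.ofReal_sum]
    refine sum_congr rfl fun j _ => ?_
    rw [← hs, he, inner_smul_left, Complex.conj_ofReal, ← inner_conj_symm v, mul_left_comm,
      Complex.conj_mul']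
    push_cast
    rfl
  have key := core_Spec s (fun j d => ⟪a d, e j⟫_ℂ) μ (fun j => ∑ t ∈ W, ‖⟪e j, b t⟫_ℂ‖ ^ 2) G hl
    (fun j => sum_nonneg fun _ _ => sq_nonneg _)
    (fun j => (hμ j).symm ▸ sum_nonneg fun _ _ => sq_nonneg _) hO fun j => by
      have h1 := (Complex.re_le_norm _).trans (h fun d => ⟪a d, e j⟫_ℂ)
      simp only [mul_sub, sum_sub_distrib, hQ, Complex.sub_re, Complex.ofReal_re] at h1
      rwa [← hμ] at h1
  have e1 : ∑ t ∈ W, ∑ d ∈ s, ‖⟪a d, b t⟫_ℂ‖ ^ 2 = ∑ j, μ j * ∑ t ∈ W, ‖⟪e j, b t⟫_ℂ‖ ^ 2 := by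
    simp only [hL, mul_sum]
    exact sum_comm
  have e2 : ∑ j, ∑ t ∈ W, ‖⟪e j, b t⟫_ℂ‖ ^ 2 = ∑ t ∈ W, ‖b t‖ ^ 2 := by
    rw [sum_comm]
    simp only [e.sum_sq_norm_inner_right]
  have e3 : ∑ j, (∑ t ∈ W, ‖⟪e j, b t⟫_ℂ‖ ^ 2) ^ 2 ≤ ∑ t ∈ W, ∑ t' ∈ W, ‖⟪b t, b t'⟫_ℂ‖ ^ 2 := by
    have h1 := swap_Spec W univ fun j t => ⟪e j, b t⟫_ℂ
    simp only [inner_conj_symm (b _) (e _), e.sum_inner_mul_inner] at h1
    rw [h1]
    refine sum_le_sum fun j _ => le_trans (le_of_eq ?_)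
      (single_le_sum (fun _ _ => sq_nonneg _) (mem_univ j))
    simp only [← inner_conj_symm (b _) (e _)]
    rw [diag_Spec, Complex.norm_real, Real.norm_eq_abs, sq_abs]
  rw [e1, ← e2]
  exact key.trans (add_le_add_right
    (mul_le_mul_of_nonneg_left (Real.sqrt_le_sqrt e3) (Real.sqrt_nonneg _)) _)

theorem spec_stmt : SpecStmt := by
  intro S s W A B G lam hl h
  obtain ⟨v, hv⟩ : ∃ v : (ℕ → ℤ → ℂ) → ℤ → EuclideanSpace ℂ S, ∀ U d n, v U d n = U n d :=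
    ⟨fun U d => WithLp.toLp 2 fun n => U n d, fun _ _ _ => rfl⟩
  have hi : ∀ U V d e, ⟪v U d, v V e⟫_ℂ = ∑ n ∈ S, conj (U n d) * V n e := fun U V d e => by
    rw [PiLp.inner_apply, ← sum_coe_sort S]
    exact sum_congr rfl fun n _ => by rw [RCLike.inner_apply, mul_comm, hv, hv]
  have hn : ∀ U d, ‖v U d‖ ^ 2 = ∑ n ∈ S, ‖U n d‖ ^ 2 := fun U d => by
    rw [EuclideanSpace.norm_sq_eq, ← sum_coe_sort S]
    simp only [hv]
  simpa only [hi, hn] using abs_Spec s W (v A) (v B) G hl (by simpa only [hi] using h)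

end Pool.Agent.MP_2a1f0e_nt.DH
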