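import Pool.Agent.MP_2a1f0e_nt.DH.Basic

set_option autoImplicit false

open Finset

namespace Pool.Agent.MP_2a1f0e_nt.DH

open Pool.Agent.MP_2a1f0e_nt.GM

theorem sq_stmt : SqStmt := by
  intro N M L E s g hD hg hE
  obtain ⟨K, hK⟩ : ∃ K : ℤ → ℝ, ∀ u, K u = ‖KK N (u : ℝ) - Kb N M (u : ℝ)‖ := ⟨_, fun _ => rfl⟩
  have K0 : ∀ u, 0 ≤ K u := fun u => hK u ▸ norm_nonneg _
  simp only [← hK] at hE
  have mem : ∀ x ∈ s, ∀ y ∈ s, x - y ∈ Icc (-(L : ℤ)) L := fun x hx y hy =>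
    mem_Icc.2 (abs_le.1 (hD x hx y hy))
  have h1 : ∀ x ∈ s, ∀ y ∈ s, K (x - y) ≤ E := fun x hx y hy =>
    (single_le_sum (fun u _ => K0 u) (mem x hx y hy)).trans hE
  have h2 : ∀ x ∈ s, ∑ y ∈ s, K (x - y) ≤ E := fun x hx => by
    rw [← sum_image (s := s) (g := fun y => x - y) (f := K) fun a _ b _ h => sub_right_injective h]
    refine (sum_le_sum_of_subset_of_nonneg (fun u hu => ?_) fun u _ _ => K0 u).trans hE
    obtain ⟨y, hy, rfl⟩ := mem_image.1 hu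
    exact mem x hx y hy
  have h3 := schur s g (fun x y => K (x - y)) (fun _ _ _ _ => K0 _) (fun x _ y _ => by
    simp only [hK, Int.cast_sub]
    exact norm_K1_sub N M _ _) E h2
  have E0 : 0 ≤ E := (sum_nonneg fun u _ => K0 u).trans hE
  have h4 : EE s g (KK N) ≤ 2 * E * ∑ x ∈ s, ∑ y ∈ s, g x * g y * K (x - y) +
      2 * EE s g (Kb N M) := by
    unfold EE
    simp only [mul_sum, ← sum_add_distrib]
    refine sum_le_sum fun x hx => sum_le_sum fun y hy => ?_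
    have a0 := mul_nonneg (hg x hx) (hg y hy)
    have a1 := norm_le_norm_sub_add (KK N ((x : ℝ) - y)) (Kb N M ((x : ℝ) - y))
    have a2 := h1 x hx y hy
    have a3 := K0 (x - y)
    have a4 := hK (x - y)
    rw [Int.cast_sub] at a4
    rw [← a4] at a1
    have a5 : ‖KK N ((x : ℝ) - y)‖ ^ 2 ≤ 2 * E * K (x - y) + 2 * ‖Kb N M ((x : ℝ) - y)‖ ^ 2 := by
      have := pow_le_pow_left₀ (norm_nonneg _) a1 2
      nlinarith [sq_nonneg (K (x - y) - ‖Kb N M ((x : ℝ) - y)‖), mul_le_mul_of_nonneg_right a2 a3]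
    nlinarith [mul_le_mul_of_nonneg_left a5 a0]
  nlinarith [mul_le_mul_of_nonneg_left h3 E0]

theorem setB_stmt (hP : PosStmt) (hJ : JutStmt) : SetBStmt := by
  intro ε hε
  obtain ⟨C, hC, hJ⟩ := hJ ε hε
  refine ⟨1 + 9 * C * 3 ^ ε, le_add_of_nonneg_right (by positivity), fun N T hN hT W hW => ?_⟩
  have hN0 : (0 : ℝ) < N := by exact_mod_cast hN
  have h1 := EE_le_ZZ hP (L := 3 * N) (L' := 3 * N) (c := fun n => (Wt ((n : ℝ) / N) : ℂ))
    (α := √(3 * N)) (Real.sqrt_nonneg _) le_rfl (fun l hl => by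
      obtain ⟨l1, l2⟩ := mem_Icc.1 hl
      have l3 : (0 : ℝ) < l := by exact_mod_cast l1
      rw [Complex.norm_real, Real.norm_of_nonneg (Wt_nonneg _), hf, mul_one_div]
      refine (Wt_le_one _).trans ((one_le_div (Real.sqrt_pos.2 l3)).2 (Real.sqrt_le_sqrt ?_))
      exact_mod_cast l2) W fun _ => 1
  have h2 := hJ (3 * N) T W (fun _ => 1) (by omega)
    (hT.trans (Nat.pow_le_pow_left (by omega) 3)) (fun x hx y hy => by
      have a := mem_Icc.1 (hW hx)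
      have b := mem_Icc.1 (hW hy)
      rw [abs_le]
      omega) fun _ _ => zero_le_one
  rw [← KK_eq_PP, Real.sq_sqrt (by positivity)] at h1
  simp only [one_pow, sum_const, nsmul_eq_mul, mul_one, Nat.cast_mul, Nat.cast_ofNat] at h2
  rw [Real.mul_rpow (by norm_num) hN0.le] at h2
  have p1 : 0 < (N : ℝ) ^ ε := Real.rpow_pos_of_pos hN0 ε
  have p2 : 0 < (3 : ℝ) ^ ε := by positivity
  have p3 : (0 : ℝ) ≤ W.card := Nat.cast_nonneg _
  generalize (W.card : ℝ) = R at h2 p3 ⊢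
  calc _ ≤ 3 * N * (C * (3 ^ ε * (N : ℝ) ^ ε) * (3 * N * R + R ^ 2)) :=
        h1.trans (mul_le_mul_of_nonneg_left h2 (by positivity))
    _ = C * 3 ^ ε * (N : ℝ) ^ ε * (9 * (R * (N : ℝ) ^ 2) + 3 * (R ^ 2 * N)) := by ring
    _ ≤ C * 3 ^ ε * (N : ℝ) ^ ε * (9 * (R * (N : ℝ) ^ 2) + 9 * (R ^ 2 * N)) := by gcongr; norm_num
    _ = 9 * C * 3 ^ ε * (N : ℝ) ^ ε * (R * (N : ℝ) ^ 2 + R ^ 2 * N) := by ring
    _ ≤ _ := by gcongr; linarith

end Pool.Agent.MP_2a1f0e_nt.DH
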