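import Pool.Agent.MP_2a1f0e_nt.GM.Decay
import Pool.Agent.MP_2a1f0e_nt.GM.Pois
import Pool.Agent.MP_2a1f0e_nt.GM.KOne
import Pool.Agent.MP_2a1f0e_nt.GM.Rad
import Pool.Agent.MP_2a1f0e_nt.GM.PhExp
import Pool.Agent.MP_2a1f0e_nt.GM.PhMaj
import Pool.Agent.MP_2a1f0e_nt.GM.Bes
import Pool.Agent.MP_2a1f0e_nt.GM.DivS
import Pool.Agent.MP_2a1f0e_nt.GM.Rho
import Pool.Agent.MP_2a1f0e_nt.GM.Pt
import Pool.Agent.MP_2a1f0e_nt.GM.Two
import Pool.Agent.MP_2a1f0e_nt.GM.Hux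
import Pool.Agent.MP_2a1f0e_nt.GM.SSt
import Pool.Agent.MP_2a1f0e_nt.GM.Setup
import Pool.Agent.MP_2a1f0e_nt.GM.BTwo
import Pool.Agent.MP_2a1f0e_nt.DH.Mel
import Pool.Agent.MP_2a1f0e_nt.DH.Gam
import Pool.Agent.MP_2a1f0e_nt.DH.Fub
import Pool.Agent.MP_2a1f0e_nt.DH.Refl
import Pool.Agent.MP_2a1f0e_nt.DH.Pos
import Pool.Agent.MP_2a1f0e_nt.DH.PowZ
import Pool.Agent.MP_2a1f0e_nt.DH.Len
import Pool.Agent.MP_2a1f0e_nt.DH.Sq
import Pool.Agent.MP_2a1f0e_nt.DH.KbJ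
import Pool.Agent.MP_2a1f0e_nt.DH.Jut
import Pool.Agent.MP_2a1f0e_nt.DH.Mom
import Pool.Agent.MP_2a1f0e_nt.DH.SetA
import Pool.Agent.MP_2a1f0e_nt.DH.Spec
import Pool.Agent.MP_2a1f0e_nt.DH.Bil
import Pool.Agent.MP_2a1f0e_nt.DH.Pr
import Pool.Agent.MP_2a1f0e_nt.DH.Lev
import Pool.Agent.MP_2a1f0e_nt.DH.Master
import Pool.Agent.MP_2a1f0e_nt.DH.Nu
import Pool.Agent.MP_2a1f0e_nt.DH.Iv
import Pool.Agent.MP_2a1f0e_nt.DH.Pow
import Pool.Agent.MP_2a1f0e_nt.DH.Ty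
import Pool.Agent.MP_2a1f0e_nt.DH.LV

set_option autoImplicit false

namespace Pool.Agent.MP_2a1f0e_nt.DH

open Pool.Agent.MP_2a1f0e_nt.GM

theorem kone_all : K1Stmt := k1_stmt decay_stmt zero_stmt (pois_stmt decay_stmt)

theorem btwo_all : B2Stmt :=
  b2_stmt (setup_stmt kone_all (s_stmt (two_stmt rad_stmt phMaj_stmt)
    (pt_stmt triang_stmt phExp_stmt phMaj_stmt) (rho_stmt phExp_stmt bes_stmt div_stmt))) hux_stmt

theorem avg_all : AvgStmt := avg_stmt (refl_stmt (fub_stmt mel_stmt) gam_stmt)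

theorem kbJ_all : KbJStmt := kbJ_stmt avg_all powZ_stmt pos_stmt

theorem jut_all : JutStmt :=
  jut_stmt kone_all (len_stmt id_stmt pos_stmt) sq_stmt kbJ_all pos_stmt

theorem mom_all : MomStmt := mom_stmt jut_all powZ_stmt pos_stmt

theorem master_all : MasterStmt :=
  master_stmt (setA_stmt kone_all mom_all kbJ_all jut_all) (setB_stmt pos_stmt jut_all) avg_all
    (bil_stmt spec_stmt pos_stmt) pr_stmt lev_stmt

theorem iv_all : IvStmt := iv_stmt master_all nu_stmt btwo_all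

theorem pow_all : PowStmt := pow_stmt iv_all

theorem lv_all : LVStmt := lv_stmt iv_all pow_all ty_stmt

end Pool.Agent.MP_2a1f0e_nt.DH
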