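import Pool.Agent.MP_2a1f0e_nt.DH.Basic

set_option autoImplicit false

open Finset

namespace Pool.Agent.MP_2a1f0e_nt.DH

open Pool.Agent.MP_2a1f0e_nt.GM

noncomputable def co_Ty (N : ℕ) (b : ℕ → ℂ) (j n : ℕ) : ℂ :=
  if n ∈ Icc N (2 * N) then b n * ((Real.log ((n : ℝ) / N) : ℝ) : ℂ) ^ j else 0

lemma norm_co_Ty {N : ℕ} (hN : 1 ≤ N) {b : ℕ → ℂ} (hb : ∀ n, ‖b n‖ ≤ 1) (j n : ℕ) :
    ‖co_Ty N b j n‖ ≤ (7 / 10 : ℝ) ^ j := by
  unfold co_Ty
  split_ifs with h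
  · obtain ⟨h1, h2⟩ := mem_Icc.1 h
    have N0 : (0 : ℝ) < N := by exact_mod_cast hN
    have h3 : (1 : ℝ) ≤ (n : ℝ) / N := (one_le_div N0).2 (by exact_mod_cast h1)
    have h4 : (n : ℝ) / N ≤ 2 := (div_le_iff₀ N0).2 (by exact_mod_cast h2)
    have h5 : Real.log ((n : ℝ) / N) ≤ 7 / 10 :=
      (Real.log_le_log (by linarith) h4).trans (by linarith [Real.log_two_lt_d9])
    rw [norm_mul, norm_pow, Complex.norm_real, Real.norm_of_nonneg (Real.log_nonneg h3)]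
    calc _ ≤ 1 * (7 / 10 : ℝ) ^ j :=
          mul_le_mul (hb n) (pow_le_pow_left₀ (Real.log_nonneg h3) h5 j)
            (pow_nonneg (Real.log_nonneg h3) j) zero_le_one
      _ = _ := one_mul _
  · simp only [norm_zero]
    positivity

lemma norm_DP_Ty (N : ℕ) (b : ℕ → ℂ) (c : ℝ) (hb : ∀ n, ‖b n‖ ≤ c) (t : ℝ) :
    ‖DP N b t‖ ≤ (N + 1) * c := by
  unfold DP
  refine (norm_sum_le _ _).trans ?_
  have := sum_le_card_nsmul (Icc N (2 * N)) (fun n : ℕ => ‖b n * pw (n : ℝ) t‖) c fun n _ => by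
    rw [norm_mul, norm_pw, mul_one]
    exact hb n
  rw [Nat.card_Icc, show 2 * N + 1 - N = N + 1 by omega, nsmul_eq_mul] at this
  exact_mod_cast this

lemma hasSum_Ty {N : ℕ} (hN : 1 ≤ N) (b : ℕ → ℂ) (m : ℝ) (z : ℂ) :
    HasSum (fun j : ℕ => z ^ j / (j.factorial : ℂ) * DP N (co_Ty N b j) m)
      (∑ n ∈ Icc N (2 * N), b n * pw (n : ℝ) m * ((((n : ℝ) / N : ℝ) : ℂ) ^ z)) := by
  unfold DP
  simp only [mul_sum]
  refine hasSum_sum fun n hn => ?_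
  have N0 : (0 : ℝ) < N := by exact_mod_cast hN
  have n0 : (0 : ℝ) < n := by exact_mod_cast (by have := (mem_Icc.1 hn).1; omega : 0 < n)
  have q0 : (0 : ℝ) < (n : ℝ) / N := div_pos n0 N0
  have h := (NormedSpace.expSeries_div_hasSum_exp
    (((Real.log ((n : ℝ) / N) : ℝ) : ℂ) * z)).mul_left (b n * pw (n : ℝ) m)
  rw [← Complex.exp_eq_exp_ℂ] at h
  have e1 : ((((n : ℝ) / N : ℝ) : ℂ) ^ z) =
      Complex.exp (((Real.log ((n : ℝ) / N) : ℝ) : ℂ) * z) := by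
    rw [Complex.cpow_def_of_ne_zero (by exact_mod_cast q0.ne'), Complex.ofReal_log q0.le]
  rw [e1]
  have e2 : ∀ j : ℕ, z ^ j / (j.factorial : ℂ) * (co_Ty N b j n * pw (n : ℝ) m) =
      b n * pw (n : ℝ) m * ((((Real.log ((n : ℝ) / N) : ℝ) : ℂ) * z) ^ j /
        (j.factorial : ℂ)) := fun j => by
    rw [co_Ty, if_pos hn, mul_pow]
    ring
  simp only [e2]
  exact h

lemma exp_Ty : Real.exp (6 / 5) < 6 := by
  have h1 : Real.exp (6 / 5) = Real.exp 1 * Real.exp (1 / 5) := by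
    rw [← Real.exp_add]
    norm_num
  have h2 : Real.exp (1 / 5) ≤ 1 / (1 - 1 / 5) :=
    Real.exp_bound_div_one_sub_of_interval (by norm_num) (by norm_num)
  have h3 := Real.exp_one_lt_three
  have h4 := Real.exp_pos (1 / 5)
  rw [h1]
  nlinarith

lemma small_Ty {Y j : ℕ} (hj : 2 * Y + 8 ≤ j) : (2 : ℝ) ^ Y * (7 / 10) ^ j < 1 / 6 := by
  have h1 : (7 / 10 : ℝ) ^ j ≤ (7 / 10) ^ (2 * Y + 8) :=
    pow_le_pow_of_le_one (by norm_num) (by norm_num) hj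
  have h2 : (2 : ℝ) ^ Y * (7 / 10) ^ (2 * Y + 8) = (2 * (7 / 10) ^ 2) ^ Y * (7 / 10) ^ 8 := by
    rw [pow_add, pow_mul, mul_pow]
    ring
  have h3 : (2 * (7 / 10 : ℝ) ^ 2) ^ Y ≤ 1 := pow_le_one₀ (by norm_num) (by norm_num)
  calc _ ≤ (2 : ℝ) ^ Y * (7 / 10) ^ (2 * Y + 8) := by gcongr
    _ ≤ 1 * (7 / 10) ^ 8 := by
        rw [h2]
        gcongr
    _ < 1 / 6 := by norm_num

theorem ty_stmt : TyStmt := by
  intro N T Y V Z hN hV hY hZ b hb S z hS hz hlow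
  have hE : HasSum (fun j : ℕ => (6 / 5 : ℝ) ^ j / (j.factorial : ℝ)) (Real.exp (6 / 5)) := by
    have := NormedSpace.expSeries_div_hasSum_exp (6 / 5 : ℝ)
    rwa [← Real.exp_eq_exp_ℝ] at this
  have hsub : S ⊆ (range (2 * Y + 8)).biUnion fun j =>
      (Icc 0 (T : ℤ)).filter (fun t : ℤ => V / 6 ≤ ‖DP N (co_Ty N b j) t‖) := by
    intro m hm
    have hex : ∃ j, V / 6 ≤ ‖DP N (co_Ty N b j) m‖ := by
      by_contra hne
      push Not at hne
      have h3 := (hasSum_Ty hN b (m : ℝ) (z m)).norm_le_of_bounded (hE.mul_right (V / 6))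
        fun j => by
          rw [norm_mul, norm_div, norm_pow, Complex.norm_natCast]
          have := hz m hm
          gcongr
          exact (hne j).le
      have h4 := hlow m hm
      have h5 := exp_Ty
      nlinarith
    obtain ⟨j, hj⟩ := hex
    refine mem_biUnion.2 ⟨j, mem_range.2 ?_, mem_filter.2 ⟨hS hm, hj⟩⟩
    by_contra hge
    have h1 := small_Ty (not_lt.1 hge)
    have h2 := norm_DP_Ty N _ _ (norm_co_Ty hN hb j) (m : ℝ)
    have h3 : ((N : ℝ) + 1) * (7 / 10) ^ j ≤ 2 ^ Y * V * (7 / 10) ^ j := by gcongr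
    have h4 : 2 ^ Y * V * (7 / 10 : ℝ) ^ j = V * (2 ^ Y * (7 / 10) ^ j) := by ring
    have h5 := mul_lt_mul_of_pos_left h1 hV
    linarith
  have h1 := (card_le_card hsub).trans card_biUnion_le
  have h2 : ((∑ j ∈ range (2 * Y + 8), cnt N (co_Ty N b j) T (V / 6) : ℕ) : ℝ) ≤
      ∑ _j ∈ range (2 * Y + 8), Z := by
    push_cast
    exact sum_le_sum fun j _ => hZ _ fun n =>
      (norm_co_Ty hN hb j n).trans (pow_le_one₀ (by norm_num) (by norm_num))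
  rw [sum_const, card_range, nsmul_eq_mul] at h2
  have h3 : (S.card : ℝ) ≤ ((∑ j ∈ range (2 * Y + 8), cnt N (co_Ty N b j) T (V / 6) : ℕ) : ℝ) := by
    exact_mod_cast h1
  refine h3.trans (h2.trans (le_of_eq ?_))
  push_cast
  ring

end Pool.Agent.MP_2a1f0e_nt.DH
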